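import Pool.Agent.P.MP_260cc8_ag.af.RR

/-!
An integer invariant of homogeneous idempotent matrices.
-/

namespace Pool.Agent.P.MP_260cc8_ag.af

open MvPolynomial Matrix

variable {k : Type} [Field k]

section HM

variable {ι κ μ ν : Type} {d : ι → ℤ} {d' : κ → ℤ} {d'' : μ → ℤ} {d''' : ν → ℤ}

theorem HM.zero : HM d d' (0 : Matrix ι κ (RR k)) := fun _ _ => Hg.zero _

theorem HM.one [DecidableEq ι] : HM d d (1 : Matrix ι ι (RR k)) := fun i j => by
  rw [Matrix.one_apply]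
  split_ifs with h
  · rw [h, sub_self]
    exact Hg.one
  · exact Hg.zero _

theorem HM.add {A B : Matrix ι κ (RR k)} (hA : HM d d' A) (hB : HM d d' B) : HM d d' (A + B) :=
  fun i j => (hA i j).add (hB i j)

theorem HM.sub {A B : Matrix ι κ (RR k)} (hA : HM d d' A) (hB : HM d d' B) : HM d d' (A - B) :=
  fun i j => (hA i j).sub (hB i j)

theorem HM.mul [Fintype κ] {A : Matrix ι κ (RR k)} {B : Matrix κ μ (RR k)} (hA : HM d d' A)
    (hB : HM d' d'' B) : HM d d'' (A * B) := fun i j => by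
  rw [Matrix.mul_apply]
  refine Hg.sum _ fun l _ => ?_
  have := (hA i l).mul (hB l j)
  rwa [sub_add_sub_cancel] at this

theorem HM.fromCols {A : Matrix ι κ (RR k)} {B : Matrix ι μ (RR k)} (hA : HM d d' A)
    (hB : HM d d'' B) : HM d (Sum.elim d' d'') (fromCols A B) := by
  rintro i (j | j)
  exacts [hA i j, hB i j]

theorem HM.fromRows {A : Matrix κ ι (RR k)} {B : Matrix μ ι (RR k)} (hA : HM d' d A)
    (hB : HM d'' d B) : HM (Sum.elim d' d'') d (fromRows A B) := by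
  rintro (i | i) j
  exacts [hA i j, hB i j]

theorem HM.fromBlocks {A : Matrix ι μ (RR k)} {B : Matrix ι ν (RR k)} {C : Matrix κ μ (RR k)}
    {D : Matrix κ ν (RR k)} (hA : HM d d'' A) (hB : HM d d''' B) (hC : HM d' d'' C)
    (hD : HM d' d''' D) : HM (Sum.elim d d') (Sum.elim d'' d''') (fromBlocks A B C D) := by
  rintro (i | i) (j | j)
  exacts [hA i j, hB i j, hC i j, hD i j]

theorem HM.transpose {A : Matrix ι κ (RR k)} (hA : HM d d' A) :
    HM (fun j => -1 - d' j) (fun i => -1 - d i) Aᵀ := fun j i => by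
  have := hA i j
  rwa [show d i - d' j = -1 - d' j - (-1 - d i) by ring] at this

theorem HM.map {A : Matrix ι κ (RR k)} (hA : HM d d' A) (c : k) : HM d d' (A.map (ev c)) :=
  fun i j => (hA i j).ev c

end HM

/-- Data showing that the image of `e` is stably free. -/
structure Dat {ι : Type} [Fintype ι] (d : ι → ℤ) (e : Matrix ι ι (RR k)) (κ μ : Type) [Fintype κ]
    [Fintype μ] [DecidableEq κ] [DecidableEq μ] (d0 : κ → ℤ) (d1 : μ → ℤ) where
  a1 : Matrix ι κ (RR k)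
  a2 : Matrix μ κ (RR k)
  b1 : Matrix κ ι (RR k)
  b2 : Matrix κ μ (RR k)
  ha1 : HM d d0 a1
  ha2 : HM d1 d0 a2
  hb1 : HM d0 d b1
  hb2 : HM d0 d1 b2
  h0 : b1 * a1 + b2 * a2 = 1
  h11 : a1 * b1 = e
  h22 : a2 * b2 = 1
  h12 : a1 * b2 = 0
  h21 : a2 * b1 = 0

/-- The idempotent `e` has invariant `z`. -/
def Cl {ι : Type} [Fintype ι] (d : ι → ℤ) (e : Matrix ι ι (RR k)) (z : ℤ) : Prop :=
  ∃ (κ μ : Type) (_ : Fintype κ) (_ : Fintype μ) (_ : DecidableEq κ) (_ : DecidableEq μ)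
    (d0 : κ → ℤ) (d1 : μ → ℤ), Nonempty (Dat d e κ μ d0 d1) ∧ z = ∑ i, Q (d0 i) - ∑ i, Q (d1 i)

section

variable {ι : Type} [Fintype ι] {d : ι → ℤ} {e : Matrix ι ι (RR k)}

theorem Dat.ea {κ μ : Type} [Fintype κ] [Fintype μ] [DecidableEq κ] [DecidableEq μ] {d0 : κ → ℤ}
    {d1 : μ → ℤ} (D : Dat d e κ μ d0 d1) : e * D.a1 = D.a1 := by
  have h := congrArg (D.a1 * ·) D.h0
  simp only [Matrix.mul_add, ← Matrix.mul_assoc, D.h11, D.h12, Matrix.zero_mul, add_zero,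
    Matrix.mul_one] at h
  exact h

theorem Dat.be {κ μ : Type} [Fintype κ] [Fintype μ] [DecidableEq κ] [DecidableEq μ] {d0 : κ → ℤ}
    {d1 : μ → ℤ} (D : Dat d e κ μ d0 d1) : D.b1 * e = D.b1 := by
  have h := congrArg (· * D.b1) D.h0
  simp only [Matrix.add_mul, Matrix.mul_assoc, D.h11, D.h21, Matrix.mul_zero, add_zero,
    Matrix.one_mul] at h
  exact h

theorem Cl.unique {z z' : ℤ} (h : Cl d e z) (h' : Cl d e z') : z = z' := by
  obtain ⟨κ, μ, _, _, _, _, d0, d1, ⟨D⟩, rfl⟩ := h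
  obtain ⟨κ', μ', _, _, _, _, d0', d1', ⟨D'⟩, rfl⟩ := h'
  have key : ∀ {κ μ κ' μ' : Type} [Fintype κ] [Fintype μ] [DecidableEq κ] [DecidableEq μ]
      [Fintype κ'] [Fintype μ'] [DecidableEq κ'] [DecidableEq μ'] {d0 : κ → ℤ} {d1 : μ → ℤ}
      {d0' : κ' → ℤ} {d1' : μ' → ℤ} (D : Dat d e κ μ d0 d1) (D' : Dat d e κ' μ' d0' d1'),
      fromBlocks (D'.b1 * D.a1) D'.b2 D.a2 0 * fromBlocks (D.b1 * D'.a1) D.b2 D'.a2 0 = 1 := by
    intro κ μ κ' μ' _ _ _ _ _ _ _ _ d0 d1 d0' d1' D D'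
    rw [fromBlocks_multiply, ← fromBlocks_one]
    congr 1
    · rw [Matrix.mul_assoc, ← Matrix.mul_assoc D.a1, D.h11, D'.ea, D'.h0]
    · rw [Matrix.mul_assoc, D.h12, Matrix.mul_zero, Matrix.mul_zero, add_zero]
    · rw [← Matrix.mul_assoc, D.h21, Matrix.zero_mul, Matrix.zero_mul, add_zero]
    · rw [D.h22, Matrix.mul_zero, add_zero]
  have := core (HM.fromBlocks (D'.hb1.mul D.ha1) D'.hb2 D.ha2 HM.zero)
    (HM.fromBlocks (D.hb1.mul D'.ha1) D.hb2 D'.ha2 HM.zero) (key D D') (key D' D)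
  simp only [Fintype.sum_sum_type, Sum.elim_inl, Sum.elim_inr] at this
  omega

theorem Cl.equiv {z : ℤ} (h : Cl d e z) {ι' : Type} [Fintype ι'] {d' : ι' → ℤ}
    {a : Matrix ι ι' (RR k)} {b : Matrix ι' ι (RR k)} (ha : HM d d' a) (hb : HM d' d b)
    (hab : a * b = e) (hba : b * e * a = b * a) : Cl d' (b * a) z := by
  obtain ⟨κ, μ, _, _, _, _, d0, d1, ⟨D⟩, rfl⟩ := h
  refine ⟨κ, μ, _, _, _, _, d0, d1, ⟨⟨b * D.a1, D.a2, D.b1 * a, D.b2, hb.mul D.ha1, D.ha2,
    D.hb1.mul ha, D.hb2, ?_, ?_, D.h22, ?_, ?_⟩⟩, rfl⟩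
  · rw [Matrix.mul_assoc, ← Matrix.mul_assoc a, hab, D.ea, D.h0]
  · rw [Matrix.mul_assoc, ← Matrix.mul_assoc D.a1, D.h11, ← Matrix.mul_assoc, hba]
  · rw [Matrix.mul_assoc, D.h12, Matrix.mul_zero]
  · rw [← Matrix.mul_assoc, D.h21, Matrix.zero_mul]

theorem Cl.add {e' : Matrix ι ι (RR k)} {z z' : ℤ} (h : Cl d e z) (h' : Cl d e' z')
    (h1 : e * e' = 0) (h2 : e' * e = 0) : Cl d (e + e') (z + z') := by
  obtain ⟨κ, μ, _, _, _, _, d0, d1, ⟨D⟩, rfl⟩ := h
  obtain ⟨κ', μ', _, _, _, _, d0', d1', ⟨D'⟩, rfl⟩ := h'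
  have h3 : D.b1 * D'.a1 = 0 := by
    rw [← D.be, ← D'.ea, Matrix.mul_assoc, ← Matrix.mul_assoc e, h1, Matrix.zero_mul,
      Matrix.mul_zero]
  have h4 : D'.b1 * D.a1 = 0 := by
    rw [← D'.be, ← D.ea, Matrix.mul_assoc, ← Matrix.mul_assoc e', h2, Matrix.zero_mul,
      Matrix.mul_zero]
  refine ⟨κ ⊕ κ', μ ⊕ μ', _, _, inferInstance, inferInstance, Sum.elim d0 d0', Sum.elim d1 d1',
    ⟨⟨fromCols D.a1 D'.a1, fromBlocks D.a2 0 0 D'.a2, fromRows D.b1 D'.b1,
      fromBlocks D.b2 0 0 D'.b2, D.ha1.fromCols D'.ha1,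
      HM.fromBlocks D.ha2 HM.zero HM.zero D'.ha2, D.hb1.fromRows D'.hb1,
      HM.fromBlocks D.hb2 HM.zero HM.zero D'.hb2, ?_, ?_, ?_, ?_, ?_⟩⟩, ?_⟩
  · rw [fromRows_mul_fromCols, fromBlocks_multiply, fromBlocks_add, h3, h4]
    simp [D.h0, D'.h0]
  · rw [fromCols_mul_fromRows, D.h11, D'.h11]
  · rw [fromBlocks_multiply]
    simp [D.h22, D'.h22]
  · rw [fromCols_mul_fromBlocks]
    simp [D.h12, D'.h12]
  · rw [fromBlocks_mul_fromRows]
    simp [D.h21, D'.h21]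
  · simp only [Fintype.sum_sum_type, Sum.elim_inl, Sum.elim_inr]
    ring

theorem Cl.diag [DecidableEq ι] (d : ι → ℤ) (S : ι → Prop) [DecidablePred S] :
    Cl d (diagonal fun i => if S i then (1 : RR k) else 0) (∑ i, if S i then Q (d i) else 0) := by
  have h1 : HM d d (1 : Matrix ι ι (RR k)) := HM.one
  refine ⟨{i // S i}, Empty, _, _, inferInstance, inferInstance, fun i => d i.1, Empty.elim,
    ⟨⟨(1 : Matrix ι ι (RR k)).submatrix id Subtype.val, 0,
      (1 : Matrix ι ι (RR k)).submatrix Subtype.val id, 0, fun i j => h1 i j.1, HM.zero,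
      fun i j => h1 i.1 j, HM.zero, ?_, ?_, Subsingleton.elim _ _, ?_, ?_⟩⟩, ?_⟩
  · ext i j
    simp [Matrix.mul_apply, Matrix.one_apply, Subtype.ext_iff]
  · ext i j
    simp only [Matrix.mul_apply, submatrix_apply, id, Matrix.one_apply, diagonal_apply]
    by_cases hi : S i
    · rw [Finset.sum_eq_single ⟨i, hi⟩]
      · simp [hi]
      · intro l _ hl
        rw [if_neg (fun h => hl (Subtype.ext h.symm)), zero_mul]
      · simp
    · rw [Finset.sum_eq_zero]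
      · simp [hi]
      · intro l _
        rw [if_neg (fun h : i = l.1 => hi (h ▸ l.2)), zero_mul]
  · simp
  · simp
  · rw [← Finset.sum_filter, Finset.sum_subtype (p := S) (F := inferInstance) _ (by simp)]
    simp

theorem Cl.transpose {z : ℤ} (h : Cl d e z) : Cl (fun i => -1 - d i) eᵀ z := by
  obtain ⟨κ, μ, _, _, _, _, d0, d1, ⟨D⟩, rfl⟩ := h
  refine ⟨κ, μ, _, _, _, _, fun i => -1 - d0 i, fun i => -1 - d1 i,
    ⟨⟨D.b1ᵀ, D.b2ᵀ, D.a1ᵀ, D.a2ᵀ, D.hb1.transpose, D.hb2.transpose, D.ha1.transpose,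
      D.ha2.transpose, ?_, ?_, ?_, ?_, ?_⟩⟩, by simp only [Q_flip]⟩
  · rw [← transpose_mul, ← transpose_mul, ← transpose_add, D.h0, transpose_one]
  · rw [← transpose_mul, D.h11]
  · rw [← transpose_mul, D.h22, transpose_one]
  · rw [← transpose_mul, D.h21, transpose_zero]
  · rw [← transpose_mul, D.h12, transpose_zero]

theorem Cl.submatrix {z : ℤ} (h : Cl d e z) {ι' : Type} [Fintype ι'] (ρ : ι' ≃ ι) :
    Cl (fun i => d (ρ i)) (e.submatrix ρ ρ) z := by
  obtain ⟨κ, μ, _, _, _, _, d0, d1, ⟨D⟩, rfl⟩ := h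
  refine ⟨κ, μ, _, _, _, _, d0, d1, ⟨⟨D.a1.submatrix ρ id, D.a2, D.b1.submatrix id ρ, D.b2,
    fun i j => D.ha1 _ _, D.ha2, fun i j => D.hb1 _ _, D.hb2, ?_, ?_, D.h22, ?_, ?_⟩⟩, rfl⟩
  · rw [submatrix_mul_equiv, submatrix_id_id, D.h0]
  · change (D.a1 * D.b1).submatrix ρ ρ = _
    rw [D.h11]
  · change (D.a1 * D.b2).submatrix ρ id = 0
    rw [D.h12]
    rfl
  · change (D.a2 * D.b1).submatrix id ρ = 0
    rw [D.h21]
    rfl

theorem Cl.map {z : ℤ} (h : Cl d e z) (c : k) : Cl d (e.map (ev c)) z := by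
  obtain ⟨κ, μ, _, _, _, _, d0, d1, ⟨D⟩, rfl⟩ := h
  refine ⟨κ, μ, _, _, _, _, d0, d1, ⟨⟨D.a1.map (ev c), D.a2.map (ev c), D.b1.map (ev c),
    D.b2.map (ev c), D.ha1.map c, D.ha2.map c, D.hb1.map c, D.hb2.map c, ?_, ?_, ?_, ?_, ?_⟩⟩, rfl⟩
  · rw [← Matrix.map_mul, ← Matrix.map_mul, ← Matrix.map_add _ (map_add _), D.h0,
      Matrix.map_one _ (map_zero _) (map_one _)]
  · rw [← Matrix.map_mul, D.h11]
  · rw [← Matrix.map_mul, D.h22, Matrix.map_one _ (map_zero _) (map_one _)]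
  · rw [← Matrix.map_mul, D.h12, Matrix.map_zero _ (map_zero _)]
  · rw [← Matrix.map_mul, D.h21, Matrix.map_zero _ (map_zero _)]

theorem Cl.step {κ : Type} [Fintype κ] [DecidableEq κ] {d' : κ → ℤ} {ψ : Matrix ι κ (RR k)}
    {s : Matrix κ ι (RR k)} (hψ : HM d d' ψ) (hs : HM d' d s) (h1 : ψ * s = e) (h2 : e * ψ = ψ)
    (h3 : s * e = s) {z : ℤ} (h : Cl d' (1 - s * ψ) z) : ∃ z', Cl d e z' := by
  obtain ⟨κ', μ', _, _, _, _, d0, d1, ⟨D⟩, -⟩ := h
  have h4 : ψ * D.a1 = 0 := by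
    rw [← D.ea, ← Matrix.mul_assoc, Matrix.mul_sub, Matrix.mul_one, ← Matrix.mul_assoc, h1, h2,
      sub_self, Matrix.zero_mul]
  have h5 : D.b1 * s = 0 := by
    rw [← D.be, Matrix.mul_assoc, Matrix.sub_mul, Matrix.one_mul, Matrix.mul_assoc, h1, h3,
      sub_self, Matrix.mul_zero]
  refine ⟨_, κ ⊕ μ', κ', _, _, inferInstance, inferInstance, Sum.elim d' d1, d0,
    ⟨⟨fromCols ψ 0, fromCols D.b1 D.b2, fromRows s 0, fromRows D.a1 D.a2, hψ.fromCols HM.zero,
      D.hb1.fromCols D.hb2, hs.fromRows HM.zero, D.ha1.fromRows D.ha2, ?_, ?_, ?_, ?_, ?_⟩⟩, rfl⟩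
  · rw [fromRows_mul_fromCols, fromRows_mul_fromCols, fromBlocks_add]
    simp [D.h11, D.h12, D.h21, D.h22]
  · rw [fromCols_mul_fromRows, h1, Matrix.zero_mul, add_zero]
  · rw [fromCols_mul_fromRows, D.h0]
  · rw [fromCols_mul_fromRows, h4, Matrix.zero_mul, add_zero]
  · rw [fromCols_mul_fromRows, h5, Matrix.mul_zero, add_zero]

end

theorem col_lift {n : ℕ} (D : Fin n → Dg) {j : ℤ} {v : Fin n → RR k}
    (hv : ∀ i, Hg ((D i).1 - (D i).2.1 - j) (v i)) :
    ∃ (δ : Dg) (p : Fin n → PP k), δ.1 - δ.2.1 = -j ∧ (fr k wt D).π δ p = p ∧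
      ∀ i, mk k (p i) = v i := by
  obtain ⟨b, p, hp⟩ := Hg.lift hv (fun i => (D i).2.1) (fun i => (D i).2.2)
  refine ⟨(b - j, b, b), p, by simp, funext fun i => selfGr_iff.mpr ?_, fun i => (hp i).2⟩
  have := (hp i).1
  rwa [show (D i).1 - (D i).2.1 - j + ((D i).2.1 + b) = (D i).1 + (b - j) by ring] at this

theorem cl_of_res {n : ℕ} {D : Fin n → Dg} {K : Submodule (PP k) (Fin n → PP k)}
    (h : Res k wt ∅ n D K) : ∀ e : Matrix (Fin n) (Fin n) (RR k), e * e = e →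
      (∀ j, ∃ (δ : Dg) (p : Fin n → PP k), δ.1 - δ.2.1 = -((D j).1 - (D j).2.1) ∧
        (fr k wt D).π δ p = p ∧ p ∈ K ∧ ∀ i, mk k (p i) = e i j) →
      (∀ p ∈ K, e *ᵥ (fun i => mk k (p i)) = fun i => mk k (p i)) →
      ∃ z, Cl (fun i => (D i).1 - (D i).2.1) e z := by
  induction h with
  | zero n D =>
    intro e _ h1 _
    have : e = diagonal fun _ => if False then 1 else 0 := by
      ext i j
      obtain ⟨δ, p, -, -, hp, hp'⟩ := h1 j
      rw [IJ_empty, Submodule.mem_bot] at hp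
      rw [← hp' i, hp]
      simp
    rw [this]
    exact ⟨_, Cl.diag _ _⟩
  | step n D n' D' ψ hψ _ ih =>
    intro e he h1 h2
    rw [IJ_empty, sup_bot_eq] at h1 h2
    rw [IJ_empty] at ih
    have hmk : ∀ c : Fin n' → PP k, ψ.map (mk k) *ᵥ (fun i => mk k (c i)) =
        fun i => mk k ((ψ *ᵥ c) i) := fun c => funext fun i => (RingHom.map_mulVec _ _ _ i).symm
    have hψ' : HM (fun i => (D i).1 - (D i).2.1) (fun i => (D' i).1 - (D' i).2.1)
        (ψ.map (mk k)) := fun i j => by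
      have := Hg.of_hom (hψ i j)
      simp only [Prod.fst_sub, Prod.snd_sub] at this
      rwa [sub_sub_sub_comm] at this
    have h3 : ∀ j, ∃ c : Fin n' → RR k, (∀ i, Hg ((D' i).1 - (D' i).2.1 - ((D j).1 - (D j).2.1))
        (c i)) ∧ ψ.map (mk k) *ᵥ c = fun i => e i j := by
      intro j
      obtain ⟨δ, p, hδ, hp, ⟨c, rfl⟩, hp'⟩ := h1 j
      refine ⟨fun i => mk k ((fr k wt D').π δ c i), fun i => ?_, ?_⟩
      · have := Hg.of_hom (k := k) (weightedHomogeneousComponent_isWeightedHomogeneous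
          (w := wt) (D' i + δ) (c i))
        simp only [Prod.fst_add, Prod.snd_add] at this
        rwa [add_sub_add_comm, hδ, ← sub_eq_add_neg] at this
      · have h4 := hψ.map δ c
        rw [zero_add, hp] at h4
        rw [hmk, ← funext hp', h4]
        rfl
    choose c hc hc' using h3
    let s : Matrix (Fin n') (Fin n) (RR k) := Matrix.of fun i j => c j i
    have hs : HM (fun i => (D' i).1 - (D' i).2.1) (fun i => (D i).1 - (D i).2.1) s :=
      fun i j => hc j i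
    have h4 : ψ.map (mk k) * s = e := by
      ext i j
      exact congrFun (hc' j) i
    have hH : HM (fun i => (D i).1 - (D i).2.1) (fun i => (D i).1 - (D i).2.1) e :=
      h4 ▸ hψ'.mul hs
    have h5 : e * ψ.map (mk k) = ψ.map (mk k) := by
      ext i j
      exact congrFun (h2 (fun i => ψ i j) ⟨Pi.single j 1, by funext i; simp⟩) i
    have h6 : ψ.map (mk k) * (s * e) = e := by rw [← Matrix.mul_assoc, h4, he]
    have h7 : ψ.map (mk k) * (1 - s * e * ψ.map (mk k)) = 0 := by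
      rw [Matrix.mul_sub, Matrix.mul_one, ← Matrix.mul_assoc, h6, h5, sub_self]
    have h8 := HM.sub HM.one ((hs.mul hH).mul hψ')
    obtain ⟨z, hz⟩ := ih (1 - s * e * ψ.map (mk k)) (by
      rw [Matrix.sub_mul, Matrix.one_mul, Matrix.mul_assoc (s * e), h7, Matrix.mul_zero, sub_zero])
      (fun j => by
        obtain ⟨δ, p, hδ, hp, hp'⟩ := col_lift D' fun i => h8 i j
        refine ⟨δ, p, hδ, hp, ?_, hp'⟩
        rw [Submodule.mem_comap, Submodule.mem_bot]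
        funext i
        have h9 := hψ.map δ p
        rw [zero_add, hp] at h9
        refine mk_inj (selfGr_iff.mp (congrFun h9 i)) ?_
        have h10 := congrFun (hmk p) i
        rw [funext hp'] at h10
        exact h10.symm.trans (congrFun (congrFun h7 i) j))
      (fun p hp => by
        have h9 : ψ *ᵥ p = 0 := hp
        rw [Matrix.sub_mulVec, Matrix.one_mulVec, ← Matrix.mulVec_mulVec, hmk, h9]
        simp only [Pi.zero_apply, map_zero]
        rw [show (fun _ : Fin n => (0 : RR k)) = 0 from rfl, Matrix.mulVec_zero, sub_zero])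
    exact Cl.step hψ' (hs.mul hH) h6 h5 (by rw [Matrix.mul_assoc, he]) hz

theorem cl_exists {ι : Type} [Fintype ι] {d : ι → ℤ} {e : Matrix ι ι (RR k)} (hH : HM d d e)
    (he : e * e = e) : ∃ z, Cl d e z := by
  have key : ∀ (n : ℕ) (d : Fin n → ℤ) (e : Matrix (Fin n) (Fin n) (RR k)), HM d d e → e * e = e →
      ∃ z, Cl d e z := by
    intro n d e hH he
    have h1 := fun j => col_lift (k := k) (fun i => ((d i, 0, 0) : Dg)) (j := d j)
      (v := fun i => e i j) fun i => by simpa using hH i j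
    choose δ p hδ hp hp' using h1
    have h2 := cl_of_res (ffr ((AddMonoidHom.fst ℤ (ℤ × ℤ)) +
        ((AddMonoidHom.fst ℤ ℤ) + (AddMonoidHom.snd ℤ ℤ)).comp (AddMonoidHom.snd ℤ (ℤ × ℤ)))
      (fun s => by fin_cases s <;> simp [wt]) n _ _ ((fr k wt _).sub_span p δ hp)) e he
      (fun j => ⟨δ j, p j, by simpa using hδ j, hp j, Submodule.subset_span ⟨j, rfl⟩, hp' j⟩)
      (fun v hv => by
        induction hv using Submodule.span_induction with
        | mem x hx =>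
          obtain ⟨j, rfl⟩ := hx
          rw [funext (hp' j)]
          funext i
          exact congrFun (congrFun he i) j
        | zero =>
          simp only [Pi.zero_apply, map_zero]
          exact Matrix.mulVec_zero e
        | add x y _ _ hx hy =>
          simp only [Pi.add_apply, map_add]
          exact (Matrix.mulVec_add e _ _).trans (by rw [hx, hy]; rfl)
        | smul r x _ hx =>
          simp only [Pi.smul_apply, smul_eq_mul, map_mul]
          exact (Matrix.mulVec_smul e (mk k r) _).trans (by rw [hx]; rfl))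
    simpa using h2
  let ρ := Fintype.equivFin ι
  obtain ⟨z, hz⟩ := key _ (fun i => d (ρ.symm i)) (e.submatrix ρ.symm ρ.symm)
    (fun i j => hH _ _) (by rw [submatrix_mul_equiv, he])
  refine ⟨z, ?_⟩
  simpa using hz.submatrix ρ

end Pool.Agent.P.MP_260cc8_ag.af
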