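import Pool.Agent.P.MP_260cc8_ag.af.Ind

/-!
The index as a homomorphism on invertible matrices.
-/

namespace Pool.Agent.P.MP_260cc8_ag.af

open Matrix

variable {k : Type} [Field k]

/-- The compression to two windows. -/
noncomputable def cmp2 (M M' : ℤ) (f : En k) : Matrix (Wd M) (Wd M') (RR k) :=
  Matrix.of fun u v => coef f u v

theorem cmp2_mul (M M' M'' : ℤ) (f g : En k) :
    cmp2 M M' f * cmp2 M' M'' g = cmp2 M M'' (f * (win k M' * g)) := by
  ext u v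
  rw [cmp2, cmp2, cmp2, Matrix.of_apply, coef_mul _ _ _ _ (Wd M') fun w hw => by
    rw [win, coef_chi_mul, if_neg hw], Matrix.mul_apply, ← Finset.sum_coe_sort (Wd M')
    fun w => coef f u w * coef (win k M' * g) w v]
  refine Finset.sum_congr rfl fun w _ => ?_
  rw [win, coef_chi_mul, if_pos w.2]
  rfl

theorem ind_win {M M' : ℤ} {f : En k} (hf : Gd M f) (h : win k M * f = f)
    (h' : win k M' * f = f) : ind M' f = ind M f := by
  have h1 : cmp2 M' M f * cmp2 M M' f = cmp M' f := by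
    rw [cmp2_mul, h, hf.idem]
    rfl
  have := hf.cl.equiv (d' := dg M') (a := cmp2 M M' f) (b := cmp2 M' M f)
    (fun u v => hf.hm u v) (fun u v => hf.hm u v) (by
      rw [cmp2_mul, h', hf.idem]
      rfl) (by
      rw [show cmp M f = cmp2 M M f from rfl, cmp2_mul M' M M, h, hf.idem])
  rw [h1] at this
  exact ind_eq this

theorem ind_win' {c M : ℤ} (hc : 0 ≤ c) (hM : c ≤ M) {p : En k} (h : Cm c p) :
    ind M p - ind M (up k c) = ind c (p - up k c) := by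
  have hu : Cm c (up k c) := Cm.up le_rfl (by omega)
  have hM0 : 0 ≤ M := by omega
  rw [ind_sub ((h.mono hM).gd hM0) ((hu.mono hM).gd hM0) h.ur h.ul, add_sub_cancel_left]
  refine ind_win ((h.gd hc).sub (hu.gd hc) h.ur h.ul) ?_ ?_
  · rw [mul_sub, h.win_mul hc, hu.win_mul hc]
    abel
  · rw [mul_sub, (h.mono hM).win_mul hM0, (hu.mono hM).win_mul hM0]
    abel

theorem Band.mono {m m' : ℤ} {σ : M4 k} (h : Band m σ) (hm : m ≤ m') : Band m' σ :=
  fun a b l hl => (h a b l hl).trans hm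

/-- The index of a pair in a window. -/
noncomputable def Dw (M : ℤ) (σ τ : M4 k) : ℤ :=
  ind M (hat σ * up k 0 * hat τ) - ind M (up k 0)

theorem Dw_indep {m M M' : ℤ} (hm : 0 ≤ m) (hM : m ≤ M) (hM' : m ≤ M') {σ τ : M4 k}
    (hσ : Band m σ) (hτ : Band m τ) (h : σ * τ = 1) : Dw M σ τ = Dw M' σ τ := by
  have hu0 : Cm 0 (up k 0) := Cm.up le_rfl (by omega)
  have c1 := hu0.conj hσ hτ h (mul_eq_one_comm.mp h)
  rw [zero_add] at c1
  have c2 := hu0.mono hm
  have a1 := ind_win' hm hM c1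
  have a2 := ind_win' hm hM' c1
  have a3 := ind_win' hm hM c2
  have a4 := ind_win' hm hM' c2
  unfold Dw
  omega

/-- The index of a matrix. -/
noncomputable def Dm (σ : M4 k) : ℤ :=
  Dw (exists_band ![σ, σ⁻¹]).choose σ σ⁻¹

theorem Dm_eq {m M : ℤ} (hm : 0 ≤ m) (hM : m ≤ M) {σ τ : M4 k} (h : σ * τ = 1) (hσ : Band m σ)
    (hτ : Band m τ) : Dm σ = Dw M σ τ := by
  obtain rfl := Matrix.inv_eq_right_inv h
  obtain ⟨h1, h2⟩ := (exists_band ![σ, σ⁻¹]).choose_spec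
  exact (Dw_indep (by omega) le_rfl (le_max_left _ m) (h2 0) (h2 1) h).trans
    (Dw_indep hm hM (le_max_right _ m) hσ hτ h).symm

theorem Dm_mul {σ τ σ' τ' : M4 k} (h : σ * τ = 1) (h' : σ' * τ' = 1) :
    Dm (σ * σ') = Dm σ + Dm σ' := by
  obtain ⟨m, hm, hb⟩ := exists_band ![σ, τ, σ', τ', σ * σ', τ' * τ]
  have hm0 : 0 ≤ m := by omega
  have hM : m ≤ m + m := by omega
  have hu0 : Cm 0 (up k 0) := Cm.up le_rfl (by omega)
  have c1 := hu0.conj (hb 2) (hb 3) h' (mul_eq_one_comm.mp h')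
  rw [zero_add] at c1
  have d := ind_indep' hm0 c1 (hu0.mono hm0) (hb 0) (hb 1) h (mul_eq_one_comm.mp h)
  rw [Dm_eq hm0 hM h (hb 0) (hb 1), Dm_eq hm0 hM h' (hb 2) (hb 3),
    Dm_eq hm0 hM (σ := σ * σ') (τ := τ' * τ) (by
      rw [Matrix.mul_assoc, ← Matrix.mul_assoc σ', h', Matrix.one_mul, h]) (hb 4) (hb 5)]
  simp only [Matrix.cons_val, Dw, hat_mul, mul_assoc] at d ⊢
  omega

theorem Dm_pat {σ τ : M4 k} (h : σ * τ = 1) {α β : Fin 4 → ℤ}
    (hp : ∀ a b, Hg (β a + α b) (σ a b)) : ∃ M : ℤ, 2 ≤ M ∧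
      Dm σ = (∑ u : Wd M, if β u.1.2 ≤ u.1.1 then Q u.1.1 else 0) -
        ∑ u : Wd M, if -α u.1.2 ≤ u.1.1 then Q u.1.1 else 0 := by
  obtain ⟨m0, hm0, hb⟩ := exists_band ![σ, τ]
  obtain ⟨a, ha⟩ := (Set.finite_range fun i => |α i|).bddAbove
  let m := max m0 a
  have h1 : m0 ≤ m := le_max_left _ _
  have h2 : ∀ i, |α i| ≤ m := fun i => (ha ⟨i, rfl⟩).trans (le_max_right _ _)
  have hm : 0 ≤ m := by omega
  let T : Ix → Prop := fun u => -α u.2 ≤ u.1
  let T' : Ix → Prop := fun u => β u.2 ≤ u.1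
  have cχ : Cm m (chi k T) := Cm.chi (fun u h => by
      have := abs_le.mp (h2 u.2)
      simp only [T]
      omega) (fun u h => by
      have := abs_le.mp (h2 u.2)
      simp only [T] at h
      omega)
  have hu : Cm m (up k 0) := Cm.up hm (by omega)
  have d := ind_indep' hm cχ hu ((hb 0).mono h1) ((hb 1).mono h1) h (mul_eq_one_comm.mp h)
  simp only [Matrix.cons_val] at d
  rw [hat_chi (T := T') hp (fun _ => Iff.rfl) (fun _ => Iff.rfl), mul_assoc, ← hat_mul, h,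
    hat_one, mul_one, ind_chi, ind_chi] at d
  refine ⟨m + m, by omega, ?_⟩
  rw [Dm_eq hm (M := m + m) (by omega) h ((hb 0).mono h1) ((hb 1).mono h1)]
  exact d.symm

theorem Dm_zero {σ τ : M4 k} (h : σ * τ = 1) (hp : ∀ a b, Hg 0 (σ a b)) : Dm σ = 0 := by
  obtain ⟨M, -, hM⟩ := Dm_pat h (α := 0) (β := 0) (by simpa using hp)
  simpa using hM

theorem Dm_one : Dm (1 : M4 k) = 0 :=
  Dm_zero (one_mul _) fun a b => by simpa using HM.one (k := k) (d := fun _ : Fin 4 => 0) a b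

theorem Dm_inv {σ τ : M4 k} (h : σ * τ = 1) : Dm τ = -Dm σ := by
  have := Dm_mul h (mul_eq_one_comm.mp h)
  rw [h, Dm_one] at this
  omega

theorem Dm_neg_one {σ τ : M4 k} (h : σ * τ = 1)
    (hp : ∀ a b, Hg (![1, -1, -1, -1] a + ![2, 0, 0, 0] b) (σ a b)) : Dm σ = -1 := by
  obtain ⟨M, hM, h1⟩ := Dm_pat h hp
  rw [h1, ← Finset.sum_sub_distrib,
    Finset.sum_eq_single ⟨(-2, 0), mem_Wd.mpr (by simp only; omega)⟩]
  · simp [Q]
  · rintro ⟨⟨j, a⟩, hu⟩ _ hne
    have hne' : ¬(j = -2 ∧ a = 0) := fun h => hne (Subtype.ext (Prod.ext h.1 h.2))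
    have q0 : Q 0 = 0 := rfl
    have q1 : Q (-1) = 0 := rfl
    by_cases j0 : j = 0
    · simp [j0, q0]
    by_cases j1 : j = -1
    · simp [j1, q1]
    have : (![1, -1, -1, -1] : Fin 4 → ℤ) a ≤ j ↔ -(![2, 0, 0, 0] : Fin 4 → ℤ) a ≤ j := by
      fin_cases a <;> simp at hne' ⊢ <;> omega
    simp [this]
  · simp

theorem Dm_transpose {σ τ : M4 k} (h : σ * τ = 1) : Dm σᵀ = Dm σ := by
  obtain ⟨m, hm, hb⟩ := exists_band ![σ, τ, 1]
  have hm0 : 0 ≤ m := by omega
  have hM : m ≤ m + m := by omega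
  have h' := mul_eq_one_comm.mp h
  have d3 := ind_dual hm0 (hb 1) (hb 0) h' h
  have d4 := ind_dual hm0 (hb 2) (hb 2) (one_mul _) (one_mul _)
  have d5 := Dm_inv h
  rw [Dm_eq hm0 hM h' (hb 1) (hb 0)] at d5
  rw [Dm_eq hm0 hM (σ := σᵀ) (τ := τᵀ) (by rw [← transpose_mul, h', transpose_one])
    (fun a b => hb 0 b a) (fun a b => hb 1 b a)]
  simp only [Matrix.cons_val, transpose_one, hat_one, one_mul, mul_one, Dw] at d3 d4 d5 ⊢
  omega

theorem Dm_ev {σ τ : M4 k} (h : σ * τ = 1) (c : k) : Dm (σ.map (ev c)) = Dm σ := by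
  obtain ⟨m, hm, hb⟩ := exists_band ![σ, τ, σ.map (ev c), τ.map (ev c)]
  have hm0 : 0 ≤ m := by omega
  have hM : m ≤ m + m := by omega
  have hu : Cm m (up k 0) := Cm.up hm0 (by omega)
  have gS := (hu.conj (hb 0) (hb 1) h (mul_eq_one_comm.mp h)).gd (by omega)
  have a0 := ind_ev (((Ev.hat c σ).mul (Ev.chi c _)).mul (Ev.hat c τ)) gS
  rw [Dm_eq hm0 hM h (hb 0) (hb 1), Dm_eq hm0 hM (σ := σ.map (ev c)) (τ := τ.map (ev c)) (by
    rw [← Matrix.map_mul, h, Matrix.map_one _ (map_zero _) (map_one _)]) (hb 2) (hb 3)]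
  exact congrArg (· - ind (m + m) (up k 0)) a0

theorem Dm_diag (i : Fin 4) {a b : RR k} (h : a * b = 1) :
    Dm (diagonal (Function.update 1 i a)) = Dm (diagonal (Function.update 1 0 a)) := by
  have h1 : (diagonal (Function.update 1 0 a) : M4 k) * diagonal (Function.update 1 0 b) = 1 := by
    rw [diagonal_mul_diagonal, ← diagonal_one]
    congr 1
    funext j
    fin_cases j <;> simp [h]
  have h2 : (Matrix.swap (RR k) i 0) * Matrix.swap (RR k) i 0 = 1 := swap_mul_self _ _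
  have h3 : Dm (Matrix.swap (RR k) i 0) = 0 := Dm_zero h2 fun u v => by
    simp only [Matrix.swap, Equiv.Perm.permMatrix, PEquiv.toMatrix_apply]
    split_ifs
    exacts [Hg.one, Hg.zero _]
  have h4 : (diagonal (Function.update 1 i a) : M4 k) =
      Matrix.swap (RR k) i 0 * (diagonal (Function.update 1 0 a) * Matrix.swap (RR k) i 0) := by
    rw [← Matrix.mul_assoc, Matrix.swap, Equiv.Perm.permMatrix, PEquiv.toMatrix_toPEquiv_mul,
      PEquiv.mul_toMatrix_toPEquiv, Equiv.symm_swap, submatrix_submatrix]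
    simp only [Function.comp_id, Function.id_comp, submatrix_diagonal_equiv]
    congr 1
    funext j
    fin_cases i <;> fin_cases j <;> simp [Equiv.swap_apply_def]
  rw [h4, Dm_mul h2 (τ' := Matrix.swap (RR k) i 0 * diagonal (Function.update 1 0 b)) (by
    rw [Matrix.mul_assoc, ← Matrix.mul_assoc (Matrix.swap (RR k) i 0), h2, Matrix.one_mul, h1]),
    Dm_mul h1 h2, h3]
  ring

end Pool.Agent.P.MP_260cc8_ag.af
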