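import Pool.Agent.P.MP_260cc8_ag.af.Gr

/-!
The graded syzygy theorem.
-/

namespace Pool.Agent.P.MP_260cc8_ag.af

open MvPolynomial

variable {k : Type} [Field k] {σ : Type} {Γ : Type} [AddCommGroup Γ]

/-- Homogeneous matrices. -/
def PM (w : σ → Γ) {ι κ : Type} (D : ι → Γ) (D' : κ → Γ)
    (ψ : Matrix ι κ (MvPolynomial σ k)) : Prop :=
  ∀ i j, IsWeightedHomogeneous w (ψ i j) (D i - D' j)

/-- The grading of a free module with shifts. -/
noncomputable abbrev fr (k : Type) [Field k] (w : σ → Γ) {ι : Type} [Fintype ι] (D : ι → Γ) :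
    Gr k w (ι → MvPolynomial σ k) := (selfGr k w).pi D

theorem PM.map {w : σ → Γ} {ι κ : Type} [Fintype ι] [Fintype κ] {D : ι → Γ} {D' : κ → Γ}
    {ψ : Matrix ι κ (MvPolynomial σ k)} (h : PM w D D' ψ) :
    (fr k w D').Map (fr k w D) 0 ψ.mulVecLin := by
  intro d m
  funext i
  rw [Gr.pi_apply, zero_add, Matrix.mulVecLin_apply, Matrix.mulVecLin_apply, Matrix.mulVec,
    Matrix.mulVec, dotProduct, dotProduct, map_sum]
  refine Finset.sum_congr rfl fun j _ => ?_
  have := (selfGr k w).smul _ _ (h i j) (D' j + d) (m j)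
  rw [show D i - D' j + (D' j + d) = D i + d by abel] at this
  exact this

/-- Vectors with entries in the ideal spanned by the variables in `J`. -/
noncomputable def IJ (k : Type) [Field k] (J : Set σ) (n : ℕ) :
    Submodule (MvPolynomial σ k) (Fin n → MvPolynomial σ k) :=
  Submodule.pi Set.univ fun _ => Ideal.span (X '' J : Set (MvPolynomial σ k))

theorem mem_IJ {J : Set σ} {n : ℕ} {v : Fin n → MvPolynomial σ k} :
    v ∈ IJ k J n ↔ ∀ i, v i ∈ Ideal.span (X '' J : Set (MvPolynomial σ k)) :=
  ⟨fun h i => h i trivial, fun h i _ => h i⟩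

theorem IJ_sub (w : σ → Γ) (J : Set σ) {n : ℕ} (D : Fin n → Γ) : (fr k w D).Sub (IJ k J n) := by
  classical
  intro d v hv
  rw [mem_IJ] at hv ⊢
  intro i
  have h := hv i
  rw [mem_ideal_span_X_image] at h ⊢
  intro m hm
  refine h m ?_
  rw [mem_support_iff] at hm ⊢
  intro h0
  apply hm
  change coeff m (weightedHomogeneousComponent w (D i + d) (v i)) = 0
  rw [coeff_weightedHomogeneousComponent, h0, ite_self]

theorem IJ_mulVec {J : Set σ} {n n' : ℕ} (ψ : Matrix (Fin n) (Fin n') (MvPolynomial σ k))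
    {v : Fin n' → MvPolynomial σ k} (hv : v ∈ IJ k J n') : ψ.mulVec v ∈ IJ k J n := by
  rw [mem_IJ] at hv ⊢
  intro i
  rw [Matrix.mulVec, dotProduct]
  exact Ideal.sum_mem _ fun j _ => Ideal.mul_mem_left _ _ (hv j)

theorem IJ_mono {J J' : Set σ} (h : J ⊆ J') (n : ℕ) : IJ k J n ≤ IJ k J' n := fun _ hv =>
  mem_IJ.mpr fun i => Ideal.span_mono (Set.image_mono h) (mem_IJ.mp hv i)

theorem IJ_sat {J : Set σ} {z : σ} (hz : z ∉ J) {n : ℕ} {v : Fin n → MvPolynomial σ k}
    (hv : (X z : MvPolynomial σ k) • v ∈ IJ k J n) : v ∈ IJ k J n := by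
  classical
  rw [mem_IJ] at hv ⊢
  intro i
  have h := hv i
  rw [mem_ideal_span_X_image] at h ⊢
  intro m hm
  obtain ⟨s, hs, h1⟩ := h (Finsupp.single z 1 + m) (by
    rw [mem_support_iff] at hm ⊢
    rwa [Pi.smul_apply, smul_eq_mul, coeff_X_mul])
  refine ⟨s, hs, ?_⟩
  have : z ≠ s := fun h => hz (h ▸ hs)
  rwa [Finsupp.add_apply, Finsupp.single_eq_of_ne this.symm, zero_add] at h1

theorem IJ_insert {J : Set σ} {z : σ} {n : ℕ} {v : Fin n → MvPolynomial σ k}
    (hv : v ∈ IJ k (insert z J) n) :
    ∃ v', v - (X z : MvPolynomial σ k) • v' ∈ IJ k J n := by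
  have h : ∀ i, ∃ a, v i - X z * a ∈ Ideal.span (X '' J : Set (MvPolynomial σ k)) := by
    intro i
    have h1 := mem_IJ.mp hv i
    rw [Set.image_insert_eq, Ideal.mem_span_insert] at h1
    obtain ⟨a, b, hb, h1⟩ := h1
    refine ⟨a, ?_⟩
    rw [h1, mul_comm, add_sub_cancel_left]
    exact hb
  choose a ha using h
  exact ⟨a, mem_IJ.mpr ha⟩

theorem smul_mem_IJ {J : Set σ} {z : σ} {n : ℕ} (v : Fin n → MvPolynomial σ k) :
    (X z : MvPolynomial σ k) • v ∈ IJ k (insert z J) n :=
  mem_IJ.mpr fun _ => Ideal.mul_mem_right _ _ (Ideal.subset_span ⟨z, Set.mem_insert _ _, rfl⟩)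

/-- Finite resolutions modulo the variables in `J`. -/
inductive Res (k : Type) [Field k] (w : σ → Γ) (J : Set σ) :
    (n : ℕ) → (Fin n → Γ) → Submodule (MvPolynomial σ k) (Fin n → MvPolynomial σ k) → Prop
  | zero (n : ℕ) (D : Fin n → Γ) : Res k w J n D (IJ k J n)
  | step (n : ℕ) (D : Fin n → Γ) (n' : ℕ) (D' : Fin n' → Γ)
      (ψ : Matrix (Fin n) (Fin n') (MvPolynomial σ k)) (hψ : PM w D D' ψ)
      (h : Res k w J n' D' ((IJ k J n).comap ψ.mulVecLin)) :
      Res k w J n D (LinearMap.range ψ.mulVecLin ⊔ IJ k J n)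

theorem range_cols {n n' : ℕ} (v : Fin n' → Fin n → MvPolynomial σ k) :
    LinearMap.range (Matrix.of fun i j => v j i).mulVecLin =
      Submodule.span (MvPolynomial σ k) (Set.range v) := by
  rw [Matrix.range_mulVecLin]
  rfl

theorem PM_cols {w : σ → Γ} {n n' : ℕ} {D : Fin n → Γ} {E : Fin n' → Γ}
    {v : Fin n' → Fin n → MvPolynomial σ k} (hv : ∀ j, (fr k w D).π (E j) (v j) = v j) :
    PM w D (fun j => -E j) (Matrix.of fun i j => v j i) := by
  intro i j
  rw [sub_neg_eq_add]
  exact selfGr_iff.mp (congrFun (hv j) i)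

theorem res_univ_aux (w : σ → Γ) {n : ℕ} (D : Fin n → Γ) (n' : ℕ) :
    ∀ (E : Fin n' → Γ) (v : Fin n' → Fin n → MvPolynomial σ k),
      (∀ j, (fr k w D).π (E j) (v j) = v j) →
      Res k w Set.univ n D (Submodule.span (MvPolynomial σ k) (Set.range v) ⊔ IJ k Set.univ n) := by
  induction n' with
  | zero =>
    intro E v _
    rw [Set.range_eq_empty, Submodule.span_empty, bot_sup_eq]
    exact Res.zero n D
  | succ n' ih =>
    intro E v hv
    by_cases h : (IJ k Set.univ n).comap (Matrix.of fun i j => v j i).mulVecLin ≤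
        IJ k Set.univ (n' + 1)
    · rw [← range_cols]
      refine Res.step n D _ _ _ (PM_cols hv) ?_
      rw [le_antisymm h fun c hc => IJ_mulVec _ hc]
      exact Res.zero _ _
    · obtain ⟨c, hc, hc'⟩ := Set.not_subset.mp h
      have hker : ∀ p : MvPolynomial σ k,
          p ∈ Ideal.span (X '' Set.univ : Set (MvPolynomial σ k)) ↔ constantCoeff p = 0 := by
        intro p
        rw [mem_ideal_span_X_image]
        constructor
        · intro h1
          by_contra h2
          obtain ⟨s, -, hs⟩ := h1 0 (mem_support_iff.mpr h2)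
          exact hs rfl
        · intro h1 m hm
          by_contra h2
          push Not at h2
          have : m = 0 := Finsupp.ext fun s => h2 s trivial
          subst this
          exact mem_support_iff.mp hm h1
      obtain ⟨j, hj⟩ : ∃ j, constantCoeff (c j) ≠ 0 := by
        by_contra h1
        push Not at h1
        exact hc' (mem_IJ.mpr fun j => (hker _).mpr (h1 j))
      have h1 := ih (fun i => E (j.succAbove i)) (fun i => v (j.succAbove i)) (fun i => hv _)
      have h2 : Submodule.span (MvPolynomial σ k) (Set.range v) ⊔ IJ k Set.univ n =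
          Submodule.span (MvPolynomial σ k) (Set.range fun i => v (j.succAbove i)) ⊔
            IJ k Set.univ n := by
        apply le_antisymm
        · refine sup_le (Submodule.span_le.mpr ?_) le_sup_right
          rintro _ ⟨i, rfl⟩
          rcases Fin.eq_self_or_eq_succAbove j i with rfl | ⟨i', rfl⟩
          · have h3 : (∑ l, c l • v l) ∈ IJ k Set.univ n := by
              have : (Matrix.of fun i j => v j i).mulVecLin c = ∑ l, c l • v l := by
                funext a
                simp [Matrix.mulVec, dotProduct, mul_comm]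
              rw [← this]
              exact hc
            rw [Fin.sum_univ_succAbove _ i] at h3
            have h4 : (c i - C (constantCoeff (c i))) • v i ∈ IJ k Set.univ n :=
              mem_IJ.mpr fun a => Ideal.mul_mem_right _ _ ((hker _).mpr (by simp))
            have h5 : v i = (C (constantCoeff (c i))⁻¹ : MvPolynomial σ k) •
                (-(∑ l, c (i.succAbove l) • v (i.succAbove l)) +
                  ((c i • v i + ∑ l, c (i.succAbove l) • v (i.succAbove l)) -
                    (c i - C (constantCoeff (c i))) • v i)) := by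
              rw [show ∀ a b : Fin n → MvPolynomial σ k, ∀ p r : MvPolynomial σ k,
                -a + ((p • b + a) - (p - r) • b) = r • b from fun a b p r => by module,
                smul_smul, ← map_mul, inv_mul_cancel₀ hj, map_one, one_smul]
            rw [SetLike.mem_coe, h5]
            refine Submodule.smul_mem _ _ (Submodule.add_mem_sup (Submodule.neg_mem _
              (Submodule.sum_mem _ fun l _ => Submodule.smul_mem _ _
                (Submodule.subset_span ⟨l, rfl⟩))) (Submodule.sub_mem _ h3 h4))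
          · exact Submodule.mem_sup_left (Submodule.subset_span ⟨i', rfl⟩)
        · refine sup_le_sup_right (Submodule.span_mono ?_) _
          rintro _ ⟨i, rfl⟩
          exact ⟨_, rfl⟩
      rw [h2]
      exact h1

theorem hom_eq_zero {w : σ → Γ} (l : Γ →+ ℤ) (hl : ∀ s, 0 < l (w s)) {p : MvPolynomial σ k}
    {e : Γ} (hp : IsWeightedHomogeneous w p e) (he : l e < 0) : p = 0 := by
  by_contra h
  obtain ⟨m, hm⟩ := ne_zero_iff.mp h
  have h1 : Finsupp.weight w m = e := hp hm
  rw [← h1, Finsupp.weight_apply, Finsupp.sum, map_sum] at he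
  refine absurd he (not_lt.mpr (Finset.sum_nonneg fun s _ => ?_))
  rw [map_nsmul]
  exact nsmul_nonneg (hl s).le _

theorem nak {w : σ → Γ} (l : Γ →+ ℤ) (hl : ∀ s, 0 < l (w s)) {n : ℕ} {D : Fin n → Γ}
    {K L : Submodule (MvPolynomial σ k) (Fin n → MvPolynomial σ k)} (hK : (fr k w D).Sub K)
    (hL : (fr k w D).Sub L) (z : σ)
    (h : ∀ v ∈ K, ∃ v' ∈ K, v - (X z : MvPolynomial σ k) • v' ∈ L) : K ≤ L := by
  obtain ⟨a, ha⟩ := (Set.finite_range fun i => l (D i)).bddAbove
  have h1 : ∀ (N : ℕ) (d : Γ), l d + a < N → ∀ v ∈ K, (fr k w D).π d v = v → v ∈ L := by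
    intro N
    induction N with
    | zero =>
      intro d hd v _ hv
      have : v = 0 := funext fun i => by
        have h2 : l (D i) ≤ a := ha ⟨i, rfl⟩
        refine hom_eq_zero l hl (selfGr_iff.mp (congrFun hv i)) ?_
        rw [map_add]
        push_cast at hd
        omega
      rw [this]
      exact L.zero_mem
    | succ N ih =>
      intro d hd v hv hv'
      obtain ⟨v', h2, h3⟩ := h v hv
      have h4 := hL d _ h3
      have h5 := (fr k w D).smul _ _ (isWeightedHomogeneous_X k w z) (d - w z) v'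
      rw [add_sub_cancel] at h5
      rw [map_sub, hv', h5] at h4
      have h6 := ih (d - w z) (by
        have := hl z
        rw [map_sub]
        push_cast at hd
        omega) _ (hK _ _ h2) ((fr k w D).same _ _)
      have := L.add_mem h4 (L.smul_mem (X z) h6)
      rwa [sub_add_cancel] at this
  intro v hv
  obtain ⟨s, hs⟩ := (fr k w D).sum v
  rw [← hs]
  refine L.sum_mem fun d _ => h1 ((l d + a).toNat + 1) d ?_ _ (hK d v hv) ((fr k w D).same _ _)
  push_cast
  omega

theorem res_lift {w : σ → Γ} (l : Γ →+ ℤ) (hl : ∀ s, 0 < l (w s)) {J : Set σ} {z : σ}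
    (hz : z ∉ J) {n : ℕ} {D : Fin n → Γ}
    {K' : Submodule (MvPolynomial σ k) (Fin n → MvPolynomial σ k)}
    (h : Res k w (insert z J) n D K') :
    ∀ K : Submodule (MvPolynomial σ k) (Fin n → MvPolynomial σ k), (fr k w D).Sub K →
      IJ k J n ≤ K → (∀ v, (X z : MvPolynomial σ k) • v ∈ K → v ∈ K) →
      K' = K ⊔ IJ k (insert z J) n → Res k w J n D K := by
  induction h with
  | zero n D =>
    intro K hK hJ hs hK'
    have : K = IJ k J n := by
      refine le_antisymm (nak l hl hK (IJ_sub w J D) z fun v hv => ?_) hJ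
      obtain ⟨v', hv'⟩ := IJ_insert (hK' ▸ Submodule.mem_sup_left hv : v ∈ IJ k (insert z J) n)
      refine ⟨v', hs v' ?_, hv'⟩
      have := K.sub_mem hv (hJ hv')
      rwa [sub_sub_cancel] at this
    rw [this]
    exact Res.zero n D
  | step n D n' D' ψ hψ _ ih =>
    intro K hK hJ hs hK'
    have h1 : ∀ j, ∃ v ∈ K, (fr k w D).π (-D' j) v = v ∧
        (fun i => ψ i j) - v ∈ IJ k (insert z J) n := by
      intro j
      have h2 : (fun i => ψ i j) ∈ K ⊔ IJ k (insert z J) n := by
        rw [← hK']
        refine Submodule.mem_sup_left ⟨Pi.single j 1, ?_⟩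
        funext i
        simp
      obtain ⟨a, ha, b, hb, h3⟩ := Submodule.mem_sup.mp h2
      refine ⟨_, hK (-D' j) a ha, (fr k w D).same _ _, ?_⟩
      have h4 : (fr k w D).π (-D' j) (fun i => ψ i j) = fun i => ψ i j := funext fun i =>
        selfGr_iff.mpr (by rw [← sub_eq_add_neg]; exact hψ i j)
      rw [← h4, ← h3, map_add, add_sub_cancel_left]
      exact IJ_sub w _ D _ _ hb
    choose v hvK hv hv' using h1
    let φ : Matrix (Fin n) (Fin n') (MvPolynomial σ k) := Matrix.of fun i j => v j i
    have hφ : PM w D D' φ := by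
      have := PM_cols hv
      simpa using this
    have hφK : ∀ c, φ.mulVecLin c ∈ K := by
      intro c
      have : LinearMap.range φ.mulVecLin ≤ K := by
        rw [range_cols, Submodule.span_le]
        rintro _ ⟨j, rfl⟩
        exact hvK j
      exact this ⟨c, rfl⟩
    have hd : ∀ c, ψ.mulVecLin c - φ.mulVecLin c ∈ IJ k (insert z J) n := by
      intro c
      rw [mem_IJ]
      intro i
      simp only [Matrix.mulVecLin_apply, Pi.sub_apply, Matrix.mulVec, dotProduct,
        ← Finset.sum_sub_distrib, ← sub_mul]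
      exact Ideal.sum_mem _ fun j _ => Ideal.mul_mem_right _ _ (mem_IJ.mp (hv' j) i)
    have hKe : K = LinearMap.range φ.mulVecLin ⊔ IJ k J n := by
      refine le_antisymm (nak l hl hK (Gr.Sub.sup ?_ (IJ_sub w J D)) z fun u hu => ?_)
        (sup_le (by rintro _ ⟨c, rfl⟩; exact hφK c) hJ)
      · rw [LinearMap.range_eq_map]
        exact hφ.map.map (fr k w D').sub_top
      · obtain ⟨_, ⟨c, rfl⟩, b, hb, h3⟩ := Submodule.mem_sup.mp
          (hK' ▸ Submodule.mem_sup_left hu :
            u ∈ LinearMap.range ψ.mulVecLin ⊔ IJ k (insert z J) n)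
        obtain ⟨v', h4⟩ := IJ_insert ((IJ k (insert z J) n).add_mem (hd c) hb)
        refine ⟨v', hs v' ?_, ?_⟩
        · have := K.sub_mem (K.sub_mem hu (hφK c)) (hJ h4)
          rwa [← h3, show ∀ a b e f : Fin n → MvPolynomial σ k,
            a + b - e - (a - e + b - f) = f from fun a b e f => by abel] at this
        · have := Submodule.add_mem_sup (LinearMap.mem_range_self φ.mulVecLin c) h4
          rwa [show ∀ a b e f : Fin n → MvPolynomial σ k,
            e + (a - e + b - f) = a + b - f from fun a b e f => by abel, h3] at this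
    rw [hKe]
    refine Res.step n D n' D' φ hφ (ih _ (hφ.map.comap (IJ_sub w J D))
      (fun c hc => IJ_mulVec _ hc) (fun c hc => ?_) ?_)
    · rw [Submodule.mem_comap, map_smul] at hc
      exact IJ_sat hz hc
    · apply le_antisymm
      · intro c hc
        have h3 := (IJ k (insert z J) n).sub_mem hc (hd c)
        rw [sub_sub_cancel] at h3
        obtain ⟨v', h4⟩ := IJ_insert h3
        have h5 : v' ∈ K := by
          refine hs v' ?_
          have := K.sub_mem (hφK c) (hJ h4)
          rwa [sub_sub_cancel] at this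
        rw [hKe] at h5
        obtain ⟨_, ⟨c', rfl⟩, b, hb, h6⟩ := Submodule.mem_sup.mp h5
        rw [← sub_add_cancel c ((X z : MvPolynomial σ k) • c')]
        refine Submodule.add_mem_sup ?_ (smul_mem_IJ c')
        rw [Submodule.mem_comap, map_sub, map_smul]
        have := (IJ k J n).add_mem h4 ((IJ k J n).smul_mem (X z) hb)
        rwa [← h6, show ∀ a b e : Fin n → MvPolynomial σ k, ∀ p : MvPolynomial σ k,
          a - p • (b + e) + p • e = a - p • b from fun a b e p => by module] at this
      · refine sup_le (fun c hc => ?_) fun c hc => IJ_mulVec _ hc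
        have := (IJ k (insert z J) n).add_mem (hd c) (IJ_mono (Set.subset_insert z J) n hc)
        rwa [sub_add_cancel] at this

theorem res_all [Fintype σ] {w : σ → Γ} (l : Γ →+ ℤ) (hl : ∀ s, 0 < l (w s)) (S : Finset σ) :
    ∀ (n : ℕ) (D : Fin n → Γ) (K : Submodule (MvPolynomial σ k) (Fin n → MvPolynomial σ k)),
      (fr k w D).Sub K → IJ k (↑S)ᶜ n ≤ K → Res k w (↑S)ᶜ n D K := by
  classical
  induction S using Finset.induction_on with
  | empty =>
    intro n D K hK hJ
    obtain ⟨n', v, E, hv, rfl⟩ := (fr k w D).exists_gens hK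
    rw [Finset.coe_empty, Set.compl_empty] at hJ ⊢
    have := res_univ_aux w D n' E v hv
    rwa [sup_eq_left.mpr hJ] at this
  | insert z S hz ih =>
    intro n D K hK hJ
    have hz' : z ∉ ((↑(insert z S) : Set σ))ᶜ := by simp
    have hS : (↑S : Set σ)ᶜ = insert z ((↑(insert z S) : Set σ))ᶜ := by
      ext s
      by_cases h : s = z
      · simp [h, hz]
      · simp [h]
    rw [hS] at ih
    generalize ((↑(insert z S) : Set σ))ᶜ = J at hJ hz' ih ⊢
    obtain ⟨n', v, E, hv, rfl⟩ := (fr k w D).exists_gens hK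
    rw [← sup_eq_left.mpr hJ, ← range_cols]
    have hφ := PM_cols hv
    have h1 := hφ.map.comap (IJ_sub w J D)
    refine Res.step n D _ _ _ hφ (res_lift l hl hz' (ih _ _ _ (h1.sup (IJ_sub w _ _))
      le_sup_right) _ h1 (fun c hc => IJ_mulVec _ hc) (fun c hc => ?_) rfl)
    rw [Submodule.mem_comap, map_smul] at hc
    exact IJ_sat hz' hc

theorem IJ_empty (n : ℕ) : IJ k (∅ : Set σ) n = ⊥ := by
  rw [eq_bot_iff]
  intro v hv
  rw [Submodule.mem_bot]
  funext i
  simpa using mem_IJ.mp hv i

theorem ffr [Fintype σ] {w : σ → Γ} (l : Γ →+ ℤ) (hl : ∀ s, 0 < l (w s)) (n : ℕ) (D : Fin n → Γ)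
    (K : Submodule (MvPolynomial σ k) (Fin n → MvPolynomial σ k)) (hK : (fr k w D).Sub K) :
    Res k w ∅ n D K := by
  have := res_all (k := k) l hl Finset.univ n D K hK
  rw [Finset.coe_univ, Set.compl_univ] at this
  exact this (by rw [IJ_empty]; exact bot_le)

end Pool.Agent.P.MP_260cc8_ag.af
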