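import Pool.Agent.P.MP_260cc8_ag.af.Pr

/-!
The prime ideal `(x.y - 1, x × w)` needs four generators.
-/

namespace Pool.Agent.P.MP_260cc8_ag.af

open MvPolynomial

variable {k : Type} [Field k]

theorem hom_ext9 {B : Type} [CommRing B] {f g : P9 k →+* B} (h1 : ∀ r, f (C r) = g (C r))
    (h2 : ∀ i, f (X i) = g (X i)) (p : P9 k) : f p = g p :=
  congrArg (· p) (MvPolynomial.ringHom_ext h1 h2)

/-- Setting `w` to zero. -/
noncomputable def ze (k : Type) [Field k] : P9 k →ₐ[k] P9 k :=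
  aeval ![X 0, X 1, X 2, X 3, X 4, X 5, 0, 0, 0]

/-- The map to the eight variable ring setting `w` to zero. -/
noncomputable def m0 (k : Type) [Field k] : P9 k →ₐ[k] PP k :=
  aeval ![X 0, X 1, X 2, X 3, X 4, X 5, 0, 0, 0]

/-- The contraction of affine space. -/
noncomputable def s0 (k : Type) [Field k] : P9 k →ₐ[k] PP k :=
  aeval ![X 7 * X 0, X 7 * X 1, X 7 * X 2, X 7 * X 3, X 7 * X 4, X 7 * X 5, 0, 0, 0]

theorem m0_ze (p : P9 k) : m0 k (ze k p) = m0 k p := by
  have : (m0 k).comp (ze k) = m0 k := algHom_ext fun i => by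
    fin_cases i <;> simp [m0, ze]
  exact congrArg (· p) this

theorem ev_m0 (c : k) (p : P9 k) : aeval (ev0 c) (m0 k p) = m0 k p := by
  have : (aeval (ev0 c)).comp (m0 k) = m0 k := algHom_ext fun i => by
    fin_cases i <;> simp [m0, ev0]
  exact congrArg (· p) this

theorem ev_s0_zero (p : P9 k) : aeval (ev0 (0 : k)) (s0 k p) = C (constantCoeff p) := by
  refine hom_ext9 (f := ((aeval (ev0 (0 : k))).comp (s0 k)).toRingHom)
    (g := C.comp constantCoeff) (fun r => by simp [s0]) (fun i => ?_) p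
  fin_cases i <;> simp [s0, ev0]

theorem ev_s0_one (p : P9 k) : ev 1 (mk k (s0 k p)) = mk k (m0 k p) := by
  rw [ev_mk]
  refine hom_ext9 (f := (mk k).comp ((aeval (ev0 (1 : k))).comp (s0 k)).toRingHom)
    (g := (mk k).comp (m0 k).toRingHom) (fun r => by simp [s0, m0]) (fun i => ?_) p
  fin_cases i <;> simp [s0, m0, ev0, mk_X6]

theorem m0_J9 {p : P9 k} (hp : p ∈ J9 k) : mk k (m0 k p) = 0 := by
  refine J9_le ((mk k).comp (m0 k).toRingHom) ⊥ ?_ (zmem ?_) (zmem ?_) (zmem ?_) hp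
  · have : m0 k (q9 k) = qq k - 1 := by simp [m0, q9, qq]
    change mk k (m0 k (q9 k)) = 0
    rw [this, map_sub, mk_qq, map_one, sub_self]
  all_goals simp [m0]

theorem not_three (f : Fin 3 → P9 k) (hf : Ideal.span (Set.range f) = J9 k) : False := by
  have hfm : ∀ i, f i ∈ J9 k := fun i => hf ▸ Ideal.subset_span ⟨i, rfl⟩
  have h1 : ∀ {p}, p ∈ J9 k → ∃ c : Fin 3 → P9 k, ∑ i, c i * f i = p := fun hp =>
    Ideal.mem_span_range_iff_exists_fun.mp (hf ▸ hp)
  choose C hC using fun j => h1 (F9_mem j)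
  choose G hG using fun i => F9_span (hfm i)
  obtain ⟨n, hn⟩ := h1 j0
  have h2 : ∀ j l, (if j = l then 1 else 0) - ∑ i, C j i * G i l ∈ J9 k := by
    intro j
    refine F9_indep ?_
    have : ∑ l, ((if j = l then 1 else 0) - ∑ i, C j i * G i l) * F9 k l =
        ∑ i, C j i * (f i - ∑ l, G i l * F9 k l) := by
      simp only [sub_mul, mul_sub, Finset.sum_sub_distrib, hC, ite_mul, one_mul, zero_mul,
        Finset.sum_ite_eq, Finset.mem_univ, if_true, Finset.sum_mul, Finset.mul_sum, mul_assoc]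
      rw [Finset.sum_comm]
    rw [this]
    exact Ideal.sum_mem _ fun i _ => Ideal.mul_mem_left _ _ (hG i)
  have hq : ze k (q9 k) = q9 k := by simp [ze, q9]
  have h3 : ∀ i, ∃ g, ze k (f i) = q9 k * g := fun i => by
    refine Ideal.mem_span_singleton.mp
      (J9_le (ze k).toRingHom _ ?_ (zmem ?_) (zmem ?_) (zmem ?_) (hfm i))
    · exact Ideal.mem_span_singleton.mpr (dvd_of_eq hq.symm)
    all_goals simp [ze]
  choose g hg using h3
  have hq0 : q9 k ≠ 0 := q9_irred.ne_zero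
  have h4 : ∑ i, g i * ze k (n i) = 1 := by
    refine mul_left_cancel₀ hq0 ?_
    rw [mul_one, Finset.mul_sum]
    conv_rhs => rw [← hq, ← hn, map_sum]
    exact Finset.sum_congr rfl fun i _ => by rw [map_mul, hg]; ring
  have h5 : ∀ j, ∑ i, ze k (C j i) * g i = ![X 0, X 1, X 2] j := fun j => by
    refine mul_left_cancel₀ hq0 ?_
    have : ze k (F9 k j) = q9 k * ![X 0, X 1, X 2] j := by
      fin_cases j <;> simp [F9, q9, ze, yw]
    rw [← this, ← hC, map_sum, Finset.mul_sum]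
    exact Finset.sum_congr rfl fun i _ => by rw [map_mul, hg]; ring
  refine no_comp (k := k) (C := Matrix.of fun j i => mk k (m0 k (C j i)))
    (G := Matrix.of fun j i => mk k (m0 k (G j i))) ?_ (g := fun i => mk k (s0 k (g i)))
    (n := fun i => mk k (s0 k (ze k (n i)))) ?_ (fun i => ?_) (fun i => ?_) (fun i j => ?_)
    (fun i => ?_) ?_
  · ext j l
    have := m0_J9 (h2 j l)
    rw [map_sub, map_sub, sub_eq_zero, map_sum, map_sum] at this
    simp only [map_mul] at this
    rw [Matrix.mul_apply, Matrix.one_apply]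
    refine this.symm.trans ?_
    split_ifs <;> simp
  · have := congrArg (fun p => mk k (s0 k p)) h4
    simpa only [map_sum, map_mul, map_one, dotProduct] using this
  · rw [ev_mk, ev_s0_zero]
    exact Hg.C _
  · rw [ev_mk, ev_s0_zero]
    exact Hg.C _
  · rw [Matrix.of_apply, ev_mk, ev_m0]
  · rw [ev_s0_one, ev_mk, ev_m0]
  · funext j
    have := congrArg (fun p => mk k (m0 k p)) (h5 j)
    simp only [map_sum, map_mul, m0_ze] at this
    simp only [ev_s0_one]
    refine this.trans ?_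
    fin_cases j <;> simp [xr, xx, m0]

theorem mu_cot : sInf {m : ℕ | ∃ g : Fin m → (J9 k).Cotangent,
    Submodule.span (P9 k) (Set.range g) = ⊤} = 3 := by
  have := (J9_prime (k := k)).ne_top
  have := Ideal.Quotient.nontrivial_iff.mpr this
  refine le_antisymm (Nat.sInf_le ⟨_, c9_span⟩) (le_csInf ⟨3, _, c9_span⟩ ?_)
  rintro m ⟨g, hg⟩
  have h1 := finrank_le_of_span_eq_top
    (Submodule.span_eq_top_of_span_eq_top (P9 k) (P9 k ⧸ J9 k) _ hg)
  rwa [Module.finrank_eq_card_basis (b9 k), Fintype.card_fin, Fintype.card_fin] at h1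

theorem mu_J9 : sInf {m : ℕ | ∃ f : Fin m → P9 k, Ideal.span (Set.range f) = J9 k} = 4 := by
  have h4 : 4 ∈ {m : ℕ | ∃ f : Fin m → P9 k, Ideal.span (Set.range f) = J9 k} :=
    ⟨![X 0 * X 3 + X 1 * X 4 + X 2 * X 5 - 1, X 1 * X 8 - X 2 * X 7, X 2 * X 6 - X 0 * X 8,
      X 0 * X 7 - X 1 * X 6], by
      simp only [Matrix.range_cons, Matrix.range_empty, Set.union_empty, Set.singleton_union, J9]⟩
  refine le_antisymm (Nat.sInf_le h4) (le_csInf ⟨4, h4⟩ ?_)
  rintro m ⟨f, hf⟩
  by_contra h2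
  apply not_three (fun i => if hi : (i : ℕ) < m then f ⟨i, hi⟩ else 0)
  rw [← hf]
  apply le_antisymm
  · rw [Ideal.span_le]
    rintro _ ⟨i, rfl⟩
    dsimp only
    split_ifs with hi
    · exact Ideal.subset_span ⟨_, rfl⟩
    · exact Ideal.zero_mem _
  · rw [Ideal.span_le]
    rintro _ ⟨i, rfl⟩
    refine Ideal.subset_span ⟨⟨i, by omega⟩, ?_⟩
    simp

end Pool.Agent.P.MP_260cc8_ag.af
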