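import Mathlib

/-!
Graded modules over a polynomial ring with weighted variables, given by projections.
-/

namespace Pool.Agent.P.MP_260cc8_ag.af

open MvPolynomial

variable {k : Type} [Field k] {σ : Type} {Γ : Type} [AddCommGroup Γ]

/-- A grading of the module `M` by projections. -/
structure Gr (k : Type) [Field k] (w : σ → Γ) (M : Type) [AddCommGroup M]
    [Module (MvPolynomial σ k) M] [Module k M] where
  π : Γ → M →ₗ[k] M
  same : ∀ d m, π d (π d m) = π d m
  ne : ∀ d e m, d ≠ e → π d (π e m) = 0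
  sum : ∀ m, ∃ s : Finset Γ, ∑ d ∈ s, π d m = m
  smul : ∀ e (p : MvPolynomial σ k), IsWeightedHomogeneous w p e →
    ∀ d m, π (e + d) (p • m) = p • π d m

section basic

variable {w : σ → Γ} {M : Type} [AddCommGroup M] [Module (MvPolynomial σ k) M] [Module k M]
  {N : Type} [AddCommGroup N] [Module (MvPolynomial σ k) N] [Module k N]

theorem poly_sum (w : σ → Γ) (p : MvPolynomial σ k) :
    ∃ s : Finset Γ, ∑ d ∈ s, weightedHomogeneousComponent w d p = p := by
  classical
  refine ⟨(weightedHomogeneousComponent_finsupp (w := w) p).toFinset, ?_⟩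
  conv_rhs => rw [← sum_weightedHomogeneousComponent w p]
  rw [finsum_eq_sum _ (weightedHomogeneousComponent_finsupp p)]

theorem Gr.smul_hom (G : Gr k w M) {e d : Γ} {p : MvPolynomial σ k}
    (hp : IsWeightedHomogeneous w p e) {m : M} (hm : G.π d m = m) :
    G.π (e + d) (p • m) = p • m := by
  rw [G.smul e p hp, hm]

theorem Gr.π_of_ne (G : Gr k w M) {e d : Γ} {m : M} (hm : G.π d m = m) (h : e ≠ d) :
    G.π e m = 0 := by
  rw [← hm, G.ne e d m h]

theorem Gr.π_smul (G : Gr k w M) (e : Γ) {d : Γ} (p : MvPolynomial σ k) {m : M}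
    (hm : G.π d m = m) :
    G.π (e + d) (p • m) = weightedHomogeneousComponent w e p • m := by
  classical
  obtain ⟨s, hs⟩ := poly_sum w p
  have h1 : ∀ e' : Γ, G.π (e + d) (weightedHomogeneousComponent w e' p • m) =
      if e' = e then weightedHomogeneousComponent w e p • m else 0 := by
    intro e'
    have h2 := G.smul_hom (weightedHomogeneousComponent_isWeightedHomogeneous e' p) hm
    split_ifs with h
    · subst h; exact h2
    · exact G.π_of_ne h2 (fun h' => h (add_right_cancel h').symm)
  conv_lhs => rw [← hs]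
  rw [Finset.sum_smul, map_sum]
  simp only [h1, Finset.sum_ite_eq']
  split_ifs with h
  · rfl
  · have : weightedHomogeneousComponent w e p = 0 := by
      conv_lhs => rw [← hs]
      rw [map_sum]
      refine Finset.sum_eq_zero fun e' he' => ?_
      exact (weightedHomogeneousComponent_isWeightedHomogeneous e' p).weightedHomogeneousComponent_ne
        e (fun h' => h (h' ▸ he'))
    rw [this, zero_smul]

/-- Graded submodules. -/
def Gr.Sub (G : Gr k w M) (U : Submodule (MvPolynomial σ k) M) : Prop :=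
  ∀ d m, m ∈ U → G.π d m ∈ U

theorem Gr.sub_top (G : Gr k w M) : G.Sub ⊤ := fun _ _ _ => Submodule.mem_top

theorem Gr.sub_bot (G : Gr k w M) : G.Sub ⊥ := fun d m hm => by
  rw [Submodule.mem_bot] at hm ⊢
  rw [hm, map_zero]

theorem Gr.Sub.inf {G : Gr k w M} {U V : Submodule (MvPolynomial σ k) M} (hU : G.Sub U)
    (hV : G.Sub V) : G.Sub (U ⊓ V) := fun d m hm => ⟨hU d m hm.1, hV d m hm.2⟩

theorem Gr.Sub.sup {G : Gr k w M} {U V : Submodule (MvPolynomial σ k) M} (hU : G.Sub U)
    (hV : G.Sub V) : G.Sub (U ⊔ V) := fun d m hm => by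
  obtain ⟨a, ha, b, hb, rfl⟩ := Submodule.mem_sup.mp hm
  rw [map_add]
  exact Submodule.add_mem_sup (hU d a ha) (hV d b hb)

/-- `f` is homogeneous of degree `e`. -/
def Gr.Map (G : Gr k w M) (G' : Gr k w N) (e : Γ) (f : M →ₗ[MvPolynomial σ k] N) : Prop :=
  ∀ d m, G'.π (e + d) (f m) = f (G.π d m)

theorem Gr.Map.comap {G : Gr k w M} {G' : Gr k w N} {e : Γ} {f : M →ₗ[MvPolynomial σ k] N}
    (hf : G.Map G' e f) {V : Submodule (MvPolynomial σ k) N} (hV : G'.Sub V) :
    G.Sub (V.comap f) := fun d m hm => by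
  rw [Submodule.mem_comap] at hm ⊢
  rw [← hf]
  exact hV _ _ hm

theorem Gr.Map.map {G : Gr k w M} {G' : Gr k w N} {e : Γ} {f : M →ₗ[MvPolynomial σ k] N}
    (hf : G.Map G' e f) {U : Submodule (MvPolynomial σ k) M} (hU : G.Sub U) :
    G'.Sub (U.map f) := by
  rintro d _ ⟨m, hm, rfl⟩
  refine ⟨G.π (d - e) m, hU _ _ hm, ?_⟩
  rw [← hf]
  congr 2
  abel

theorem Gr.Map.ker {G : Gr k w M} {G' : Gr k w N} {e : Γ} {f : M →ₗ[MvPolynomial σ k] N}
    (hf : G.Map G' e f) : G.Sub (LinearMap.ker f) := hf.comap G'.sub_bot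

theorem Gr.sub_span (G : Gr k w M) {ι : Type} [Fintype ι] (v : ι → M) (D : ι → Γ)
    (hv : ∀ i, G.π (D i) (v i) = v i) :
    G.Sub (Submodule.span (MvPolynomial σ k) (Set.range v)) := by
  intro d m hm
  obtain ⟨c, rfl⟩ := (Submodule.mem_span_range_iff_exists_fun _).mp hm
  rw [map_sum]
  refine Submodule.sum_mem _ fun i _ => ?_
  have := G.π_smul (d - D i) (c i) (hv i)
  rw [sub_add_cancel] at this
  rw [this]
  exact Submodule.smul_mem _ _ (Submodule.subset_span ⟨i, rfl⟩)

theorem Gr.exists_gens (G : Gr k w M) [IsNoetherian (MvPolynomial σ k) M]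
    {U : Submodule (MvPolynomial σ k) M} (hU : G.Sub U) :
    ∃ (n : ℕ) (v : Fin n → M) (D : Fin n → Γ), (∀ i, G.π (D i) (v i) = v i) ∧
      Submodule.span (MvPolynomial σ k) (Set.range v) = U := by
  classical
  have h1 : Submodule.span (MvPolynomial σ k) {m | m ∈ U ∧ ∃ d, G.π d m = m} = U := by
    apply le_antisymm
    · exact Submodule.span_le.mpr fun m hm => hm.1
    · intro m hm
      obtain ⟨s, hs⟩ := G.sum m
      rw [← hs]
      exact Submodule.sum_mem _ fun d _ => Submodule.subset_span ⟨hU d m hm, d, G.same d m⟩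
  have h2 : (Submodule.span (MvPolynomial σ k) {m | m ∈ U ∧ ∃ d, G.π d m = m}).FG :=
    IsNoetherian.noetherian _
  obtain ⟨t, ht, ht'⟩ := (Submodule.fg_span_iff_fg_span_finset_subset _).mp h2
  have h3 : ∀ m : t, ∃ d, G.π d (m : M) = m := fun m => (ht m.2).2
  choose D hD using h3
  refine ⟨t.card, fun i => (t.equivFin.symm i : M), fun i => D (t.equivFin.symm i),
    fun i => hD _, ?_⟩
  rw [← h1, ht']
  congr 1
  ext m
  constructor
  · rintro ⟨i, rfl⟩
    exact (t.equivFin.symm i).2
  · intro hm
    exact ⟨t.equivFin ⟨m, hm⟩, by simp⟩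

theorem mem_span_X_of_pos {T : Set σ} (l : Γ →+ ℤ) (hT : ∀ s, s ∉ T → l (w s) ≤ 0)
    {p : MvPolynomial σ k} {e : Γ} (hp : IsWeightedHomogeneous w p e) (he : 0 < l e) :
    p ∈ Ideal.span (X '' T : Set (MvPolynomial σ k)) := by
  rw [mem_ideal_span_X_image]
  intro m hm
  by_contra hcon
  push Not at hcon
  have h1 : Finsupp.weight w m = e := hp (mem_support_iff.mp hm)
  rw [← h1, Finsupp.weight_apply, Finsupp.sum, map_sum] at he
  refine absurd he (not_lt.mpr (Finset.sum_nonpos fun s hs => ?_))
  have h2 : s ∉ T := fun h => (Finsupp.mem_support_iff.mp hs) (hcon s h)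
  rw [map_nsmul]
  exact nsmul_nonpos (hT s h2) _

theorem Gr.van (G : Gr k w M) [IsNoetherian (MvPolynomial σ k) M]
    {U U' : Submodule (MvPolynomial σ k) M} (hU : G.Sub U) {T : Set σ} (l : Γ →+ ℤ)
    (hT : ∀ s, s ∉ T → l (w s) ≤ 0)
    (h : ∀ s ∈ T, ∀ m ∈ U, (X s : MvPolynomial σ k) • m ∈ U') :
    ∃ a : ℤ, ∀ d, a < l d → ∀ m ∈ U, G.π d m = m → m ∈ U' := by
  obtain ⟨n, v, D, hv, rfl⟩ := G.exists_gens hU
  obtain ⟨a, ha⟩ := (Set.finite_range fun i => l (D i)).bddAbove
  refine ⟨a, fun d hd m hm hm' => ?_⟩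
  obtain ⟨c, rfl⟩ := (Submodule.mem_span_range_iff_exists_fun _).mp hm
  rw [← hm', map_sum]
  refine Submodule.sum_mem _ fun i _ => ?_
  have h1 := G.π_smul (d - D i) (c i) (hv i)
  rw [sub_add_cancel] at h1
  rw [h1]
  have h2 : l (D i) ≤ a := ha ⟨i, rfl⟩
  have h3 := mem_span_X_of_pos (k := k) l hT
    (weightedHomogeneousComponent_isWeightedHomogeneous (d - D i) (c i))
    (by rw [map_sub]; omega)
  generalize weightedHomogeneousComponent w (d - D i) (c i) = p at h3
  induction h3 using Submodule.span_induction with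
  | mem x hx =>
    obtain ⟨s, hs, rfl⟩ := hx
    exact h s hs _ (Submodule.subset_span ⟨i, rfl⟩)
  | zero => rw [zero_smul]; exact U'.zero_mem
  | add x y _ _ hx hy => rw [add_smul]; exact U'.add_mem hx hy
  | smul r x _ hx => rw [smul_eq_mul, mul_smul]; exact U'.smul_mem _ hx

end basic

/-- The grading of the ring itself. -/
noncomputable def selfGr (k : Type) [Field k] (w : σ → Γ) : Gr k w (MvPolynomial σ k) where
  π d := weightedHomogeneousComponent w d
  same d m :=
    (weightedHomogeneousComponent_isWeightedHomogeneous d m).weightedHomogeneousComponent_same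
  ne d e m h :=
    (weightedHomogeneousComponent_isWeightedHomogeneous e m).weightedHomogeneousComponent_ne d h
  sum m := poly_sum w m
  smul e p hp d m := by
    classical
    obtain ⟨s, hs⟩ := poly_sum w m
    have h1 : ∀ d' : Γ, weightedHomogeneousComponent w (e + d)
        (p * weightedHomogeneousComponent w d' m) =
        p * weightedHomogeneousComponent w d (weightedHomogeneousComponent w d' m) := by
      intro d'
      have h2 := weightedHomogeneousComponent_isWeightedHomogeneous (w := w) d' m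
      by_cases h : d = d'
      · subst h
        rw [h2.weightedHomogeneousComponent_same, (hp.mul h2).weightedHomogeneousComponent_same]
      · rw [h2.weightedHomogeneousComponent_ne d h, mul_zero,
          (hp.mul h2).weightedHomogeneousComponent_ne _ (fun h' => h (add_left_cancel h'))]
    rw [smul_eq_mul, smul_eq_mul]
    conv_lhs => rw [← hs]
    conv_rhs => rw [← hs]
    rw [Finset.mul_sum, map_sum, map_sum, Finset.mul_sum]
    exact Finset.sum_congr rfl fun d' _ => h1 d'

theorem selfGr_iff {w : σ → Γ} {d : Γ} {p : MvPolynomial σ k} :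
    (selfGr k w).π d p = p ↔ IsWeightedHomogeneous w p d :=
  ⟨fun h => h ▸ weightedHomogeneousComponent_isWeightedHomogeneous d p,
    fun h => h.weightedHomogeneousComponent_same⟩

section cons

variable {w : σ → Γ} {M : Type} [AddCommGroup M] [Module (MvPolynomial σ k) M] [Module k M]

/-- Finite products with shifts. -/
noncomputable def Gr.pi (G : Gr k w M) {ι : Type} [Fintype ι] (D : ι → Γ) : Gr k w (ι → M) where
  π d := LinearMap.pi fun i => (G.π (D i + d)).comp (LinearMap.proj i)
  same d m := funext fun i => G.same _ _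
  ne d e m h := funext fun i => G.ne _ _ _ (fun h' => h (add_left_cancel h'))
  sum m := by
    classical
    choose s hs using fun i => G.sum (m i)
    refine ⟨Finset.univ.biUnion fun i => (s i).image fun d => d - D i, funext fun i => ?_⟩
    rw [Finset.sum_apply]
    change ∑ d ∈ _, G.π (D i + d) (m i) = m i
    have h1 : ∑ d ∈ (s i).image (fun d => d - D i), G.π (D i + d) (m i) = m i := by
      rw [Finset.sum_image (fun a _ b _ h => sub_left_injective h)]
      simp only [add_sub_cancel]
      exact hs i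
    conv_rhs => rw [← h1]
    symm
    refine Finset.sum_subset (Finset.subset_biUnion_of_mem
      (fun i => (s i).image fun d => d - D i) (Finset.mem_univ i)) fun d _ hd => ?_
    rw [← hs i, map_sum]
    refine Finset.sum_eq_zero fun e he => G.ne _ _ _ fun h => hd ?_
    exact Finset.mem_image.mpr ⟨e, he, by rw [← h]; abel⟩
  smul e p hp d m := funext fun i => by
    change G.π (D i + (e + d)) (p • m i) = p • G.π (D i + d) (m i)
    rw [← G.smul e p hp]
    congr 2
    abel

theorem Gr.pi_apply (G : Gr k w M) {ι : Type} [Fintype ι] (D : ι → Γ) (d : Γ) (m : ι → M)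
    (i : ι) : (G.pi D).π d m i = G.π (D i + d) (m i) := rfl

variable [IsScalarTower k (MvPolynomial σ k) M]

/-- Quotients by graded submodules. -/
noncomputable def Gr.quot (G : Gr k w M) (U : Submodule (MvPolynomial σ k) M) (hU : G.Sub U) :
    Gr k w (M ⧸ U) where
  π d :=
    { toFun := QuotientAddGroup.map U.toAddSubgroup U.toAddSubgroup (G.π d).toAddMonoidHom
        (fun m hm => hU d m hm)
      map_add' := fun a b => map_add _ a b
      map_smul' := fun c a => by
        obtain ⟨m, rfl⟩ := U.mkQ_surjective a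
        change Submodule.Quotient.mk (G.π d (c • m)) = Submodule.Quotient.mk (c • G.π d m)
        rw [map_smul] }
  same d a := by
    obtain ⟨m, rfl⟩ := U.mkQ_surjective a
    change Submodule.Quotient.mk (G.π d (G.π d m)) = Submodule.Quotient.mk (G.π d m)
    rw [G.same]
  ne d e a h := by
    obtain ⟨m, rfl⟩ := U.mkQ_surjective a
    change Submodule.Quotient.mk (G.π d (G.π e m)) = 0
    rw [G.ne d e m h]
    rfl
  sum a := by
    obtain ⟨m, rfl⟩ := U.mkQ_surjective a
    obtain ⟨s, hs⟩ := G.sum m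
    refine ⟨s, ?_⟩
    conv_rhs => rw [← hs, map_sum]
    rfl
  smul e p hp d a := by
    obtain ⟨m, rfl⟩ := U.mkQ_surjective a
    change Submodule.Quotient.mk (G.π (e + d) (p • m)) = Submodule.Quotient.mk (p • G.π d m)
    rw [G.smul e p hp]

theorem Gr.map_mkQ (G : Gr k w M) (U : Submodule (MvPolynomial σ k) M) (hU : G.Sub U) :
    G.Map (G.quot U hU) 0 U.mkQ := fun d m => by
  rw [zero_add]
  rfl

end cons

end Pool.Agent.P.MP_260cc8_ag.af
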