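import Pool.Agent.P.MP_260cc8_ag.af.Kill
import Pool.Agent.P.MP_260cc8_ag.af.FFR

/-!
The Hilbert function of the polynomial ring, and the numerical relation between the degrees of two
free modules that become isomorphic after inverting `x.y`.
-/

namespace Pool.Agent.P.MP_260cc8_ag.af

open MvPolynomial

variable {k : Type} [Field k]

theorem weight_wt (m : Fin 8 →₀ ℕ) : Finsupp.weight wt m =
    (((m 0 + m 1 + m 2 : ℕ) : ℤ), ((m 3 + m 4 + m 5 : ℕ) : ℤ), ((m 6 + m 7 : ℕ) : ℤ)) := by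
  rw [Finsupp.weight_apply, Finsupp.sum_fintype _ _ (by simp), Fin.sum_univ_eight]
  simp [wt]

theorem pc_self (d : Dg) :
    (selfGr k wt).pc ⊤ d = restrictSupport k {m | Finsupp.weight wt m = d} := by
  have h := weightedHomogeneousSubmodule_eq_finsupp_supported k wt d
  ext p
  rw [Gr.mem_pc, selfGr_iff, ← mem_weightedHomogeneousSubmodule, h]
  simp only [Submodule.mem_top, true_and]
  rfl

theorem self_fd : (selfGr k wt).Fd := by
  intro d
  rw [pc_self]
  have : {m : Fin 8 →₀ ℕ | Finsupp.weight wt m = d}.Finite := by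
    refine (Set.finite_Iic (Finsupp.equivFunOnFinite.symm fun _ : Fin 8 =>
      (d.1 + d.2.1 + d.2.2).toNat)).subset fun m hm => ?_
    rw [Set.mem_ofPred_eq, weight_wt] at hm
    intro i
    rw [← hm]
    simp only [Finsupp.equivFunOnFinite_symm_apply_apply]
    fin_cases i <;> simp <;> omega
  have := this.to_subtype
  exact Module.Finite.of_basis (basisRestrictSupport k _)

/-- Monomials of tri-degree `(a, b, 0)`. -/
noncomputable def monEquiv (a b : ℕ) :
    {m : Fin 8 →₀ ℕ | Finsupp.weight wt m = ((a : ℤ), (b : ℤ), 0)} ≃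
      (Finset.univ : Finset (Fin 3)).finsuppAntidiag a ×
        (Finset.univ : Finset (Fin 3)).finsuppAntidiag b where
  toFun m := (⟨Finsupp.equivFunOnFinite.symm ![m.1 0, m.1 1, m.1 2], by
      have h := m.2
      rw [Set.mem_ofPred_eq, weight_wt, Prod.mk.injEq, Prod.mk.injEq] at h
      simp [Finset.mem_finsuppAntidiag, Fin.sum_univ_three]
      omega⟩, ⟨Finsupp.equivFunOnFinite.symm ![m.1 3, m.1 4, m.1 5], by
      have h := m.2
      rw [Set.mem_ofPred_eq, weight_wt, Prod.mk.injEq, Prod.mk.injEq] at h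
      simp [Finset.mem_finsuppAntidiag, Fin.sum_univ_three]
      omega⟩)
  invFun f := ⟨Finsupp.equivFunOnFinite.symm
      ![f.1.1 0, f.1.1 1, f.1.1 2, f.2.1 0, f.2.1 1, f.2.1 2, 0, 0], by
      have h1 := f.1.2
      have h2 := f.2.2
      simp only [Finset.mem_finsuppAntidiag, Fin.sum_univ_three] at h1 h2
      rw [Set.mem_ofPred_eq, weight_wt]
      simp [← h1.1, ← h2.1]⟩
  left_inv m := by
    have h := m.2
    rw [Set.mem_ofPred_eq, weight_wt, Prod.mk.injEq, Prod.mk.injEq] at h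
    refine Subtype.ext (Finsupp.ext fun i => ?_)
    fin_cases i <;> simp <;> omega
  right_inv f := by
    refine Prod.ext (Subtype.ext (Finsupp.ext fun i => ?_)) (Subtype.ext (Finsupp.ext fun i => ?_))
    · fin_cases i <;> simp
    · fin_cases i <;> simp

theorem two_choose (a : ℕ) : 2 * ((3 + a - 1).choose a : ℤ) = (a + 1) * (a + 2) := by
  rw [show 3 + a - 1 = a + 2 by omega, Nat.choose_symm_add, Nat.choose_two_right]
  have h : 2 ∣ (a + 2) * (a + 2 - 1) := (Nat.even_mul_pred_self (a + 2)).two_dvd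
  have h1 := Nat.mul_div_cancel' h
  have h2 : ((2 * ((a + 2) * (a + 2 - 1) / 2) : ℕ) : ℤ) = (((a + 2) * (a + 1) : ℕ) : ℤ) := by
    rw [h1]
    rfl
  push_cast at h2 ⊢
  linarith

theorem h_self {a b : ℤ} (ha : 0 ≤ a) (hb : 0 ≤ b) :
    4 * (selfGr k wt).h ⊤ (a, b, 0) = (a + 1) * (a + 2) * ((b + 1) * (b + 2)) := by
  obtain ⟨a, rfl⟩ := Int.eq_ofNat_of_zero_le ha
  obtain ⟨b, rfl⟩ := Int.eq_ofNat_of_zero_le hb
  rw [Gr.h, pc_self, Module.finrank_eq_nat_card_basis (basisRestrictSupport k _),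
    Nat.card_congr (monEquiv a b), Nat.card_prod, Nat.card_eq_fintype_card,
    Nat.card_eq_fintype_card, Fintype.card_coe, Fintype.card_coe,
    Finset.card_finsuppAntidiag_nat_eq_choose, Finset.card_finsuppAntidiag_nat_eq_choose,
    Finset.card_univ, Fintype.card_fin, ← two_choose, ← two_choose]
  push_cast
  ring

theorem cmb_self {a b : ℤ} (ha : 1 ≤ a) (hb : 1 ≤ b) :
    2 * cmb ((selfGr k wt).h ⊤) (a, b, 0) = (a - b - 1) * (a - b) := by
  have h1 := h_self (k := k) (a := 1 + a) (b := b) (by omega) (by omega)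
  have h2 := h_self (k := k) (a := a) (b := b) (by omega) (by omega)
  have h3 := h_self (k := k) (a := a) (b := b - 1) (by omega) (by omega)
  have h4 := h_self (k := k) (a := a - 1) (b := b + 1) (by omega) (by omega)
  simp only [cmb, Prod.mk_add_mk, Prod.mk_sub_mk, add_zero, zero_add, sub_zero]
  nlinarith

theorem cmb_free {ι : Type} [Fintype ι] (α β : ι → ℤ) :
    ∃ a : ℤ, ∀ b, a < b → 2 * cmb ((fr k wt fun i => (α i, β i, 0)).h ⊤) (b + 1, b, 0) =
      ∑ i, (α i - β i) * (α i - β i + 1) := by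
  obtain ⟨a1, h1⟩ := (Set.finite_range fun i => -α i).bddAbove
  obtain ⟨a2, h2⟩ := (Set.finite_range fun i => -β i).bddAbove
  refine ⟨max a1 a2, fun b hb => ?_⟩
  have h : ∀ d, (fr k wt fun i => (α i, β i, 0)).h ⊤ d =
      ∑ i, (selfGr k wt).h ⊤ ((α i, β i, 0) + d) := by
    intro d
    rw [← Gr.h_pi self_fd, Submodule.pi_top]
  have h3 : cmb ((fr k wt fun i => (α i, β i, 0)).h ⊤) (b + 1, b, 0) =
      ∑ i, cmb ((selfGr k wt).h ⊤) (α i + (b + 1), β i + b, 0) := by
    simp only [cmb, h, Finset.sum_add_distrib, Finset.sum_sub_distrib, Finset.mul_sum,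
      Prod.mk_add_mk, Prod.mk_sub_mk, add_zero, zero_add, sub_zero]
    congr 1
    · congr 1
      · congr 1
        exact Finset.sum_congr rfl fun i _ => by congr 2; ring
      · exact Finset.sum_congr rfl fun i _ => by congr 3; ring
    · refine Finset.sum_congr rfl fun i _ => ?_
      congr 2
      · ring
      · congr 1
        ring
  rw [h3, Finset.mul_sum]
  refine Finset.sum_congr rfl fun i _ => ?_
  have h4 : -α i ≤ a1 := h1 ⟨i, rfl⟩
  have h5 : -β i ≤ a2 := h2 ⟨i, rfl⟩
  rw [cmb_self (by omega) (by omega)]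
  ring

theorem qq_hom : IsWeightedHomogeneous wt (qq k) (1, 1, 0) := by
  have h : ∀ i, IsWeightedHomogeneous wt (xx k i * yy k i) (1, 1, 0) :=
    fun i => (xx_hom i).mul (yy_hom i)
  exact ((h 0).add (h 1)).add (h 2)

theorem qq_ne : qq k ≠ 0 := by
  intro h
  have := congrArg (eval ![1, 0, 0, 1, 0, 0, 0, 0]) h
  simp [qq] at this

theorem core_poly {ι κ : Type} [Fintype ι] [Fintype κ] [DecidableEq ι] [DecidableEq κ]
    {α β : ι → ℤ} {α' β' : κ → ℤ} {U : Matrix ι κ (PP k)} {V : Matrix κ ι (PP k)} {e : ℕ}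
    (hU : PM wt (fun i => (α i, β i, (0 : ℤ))) (fun j => (α' j, β' j, 0)) U)
    (h1 : U * V = qq k ^ e • (1 : Matrix ι ι (PP k)))
    (h2 : V * U = qq k ^ e • (1 : Matrix κ κ (PP k))) :
    ∑ i, (α i - β i) * (α i - β i + 1) = ∑ j, (α' j - β' j) * (α' j - β' j + 1) := by
  let G := fr k wt fun i => ((α i, β i, 0) : Dg)
  let G' := fr k wt fun j => ((α' j, β' j, 0) : Dg)
  have hG : G.Fd := self_fd.pi _
  have hG' : G'.Fd := self_fd.pi _
  let L : ℕ → Submodule (PP k) (ι → PP k) := fun n =>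
    LinearMap.range U.mulVecLin ⊔ LinearMap.range (qq k ^ n • LinearMap.id)
  have hR : G.Sub (LinearMap.range U.mulVecLin) := by
    rw [LinearMap.range_eq_map]
    exact hU.map.map G'.sub_top
  have hL : ∀ n, G.Sub (L n) := by
    intro n
    refine hR.sup ?_
    rw [LinearMap.range_eq_map]
    refine Gr.Map.map (G := G) (e := n • (1, 1, 0)) (fun d m => ?_) G.sub_top
    exact G.smul _ _ (qq_hom.pow n) d m
  have hs : ∀ n, ∃ a : ℤ, ∀ d : Dg, a < d.1 → a < d.2.1 → cmb (G.h ⊤) d = cmb (G.h (L n)) d := by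
    intro n
    induction n with
    | zero =>
      refine ⟨0, fun d _ _ => ?_⟩
      have : L 0 = ⊤ := by
        rw [eq_top_iff]
        intro v _
        exact Submodule.mem_sup_right ⟨v, by simp⟩
      rw [this]
    | succ n ih =>
      obtain ⟨a, ha⟩ := ih
      obtain ⟨a', ha'⟩ := kill_pair G hG (hL n) (hL (n + 1)) (sup_le_sup_left (by
        rintro _ ⟨v, rfl⟩
        exact ⟨qq k • v, by simp [smul_smul, pow_succ']⟩) _) (by
        intro m hm
        obtain ⟨u, hu, _, ⟨v, rfl⟩, rfl⟩ := Submodule.mem_sup.mp hm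
        rw [smul_add]
        exact Submodule.add_mem_sup (Submodule.smul_mem _ _ hu)
          ⟨v, by simp [smul_smul, pow_succ']⟩)
      refine ⟨max a a', fun d h3 h4 => ?_⟩
      rw [ha d (by omega) (by omega), ha' d (by omega) (by omega)]
  have hLe : L e = LinearMap.range U.mulVecLin := by
    refine sup_eq_left.mpr ?_
    rintro _ ⟨v, rfl⟩
    refine ⟨V.mulVec v, ?_⟩
    rw [Matrix.mulVecLin_apply, Matrix.mulVec_mulVec, h1, Matrix.smul_mulVec, Matrix.one_mulVec]
    rfl
  have hh : ∀ d, G.h (LinearMap.range U.mulVecLin) d = G'.h ⊤ d := by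
    intro d
    have h3 := Gr.h_rank hG' hU.map G'.sub_top (V := LinearMap.range U.mulVecLin)
      (fun m _ => ⟨m, rfl⟩) d (fun n hn _ => by rwa [← LinearMap.range_eq_map])
    have h4 : G'.h (⊤ ⊓ LinearMap.ker U.mulVecLin) d = 0 := by
      refine G'.h_zero fun m hm _ => ?_
      have h5 : U.mulVec m = 0 := hm.2
      have h6 := congrArg V.mulVec h5
      rw [Matrix.mulVec_mulVec, h2, Matrix.smul_mulVec, Matrix.one_mulVec, Matrix.mulVec_zero] at h6
      exact (smul_eq_zero.mp h6).resolve_left (pow_ne_zero _ qq_ne)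
    rw [zero_add, h4, add_zero] at h3
    exact h3.symm
  obtain ⟨a, ha⟩ := hs e
  obtain ⟨a1, h3⟩ := cmb_free (k := k) α β
  obtain ⟨a2, h4⟩ := cmb_free (k := k) α' β'
  have h5 := ha (max a (max a1 a2) + 1 + 1, max a (max a1 a2) + 1, 0) (by simp only; omega)
    (by simp only; omega)
  rw [hLe, funext hh] at h5
  rw [← h3 (max a (max a1 a2) + 1) (by omega), ← h4 (max a (max a1 a2) + 1) (by omega)]
  exact congrArg (2 * ·) h5

end Pool.Agent.P.MP_260cc8_ag.af
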