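import Pool.Agent.P.MP_260cc8_ag.af.Op

/-!
The index of Toeplitz idempotents and its parity.
-/

namespace Pool.Agent.P.MP_260cc8_ag.af

open Matrix

variable {k : Type} [Field k]

/-- The window. -/
noncomputable def Wd (M : ℤ) : Finset Ix := Finset.Ico (-M) M ×ˢ Finset.univ

theorem mem_Wd {M : ℤ} {u : Ix} : u ∈ Wd M ↔ -M ≤ u.1 ∧ u.1 < M := by simp [Wd]

/-- The projection to the window. -/
noncomputable def win (k : Type) [Field k] (M : ℤ) : En k := chi k fun u => u ∈ Wd M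

/-- The compression to the window. -/
noncomputable def cmp (M : ℤ) (f : En k) : Matrix (Wd M) (Wd M) (RR k) :=
  Matrix.of fun u v => coef f u v

/-- Degrees in the window. -/
noncomputable def dg (M : ℤ) (u : Wd M) : ℤ := u.1.1

theorem cmp_mul (M : ℤ) (f g : En k) : cmp M (f * win k M * g) = cmp M f * cmp M g := by
  ext u v
  rw [cmp, Matrix.of_apply, mul_assoc, coef_mul _ _ _ _ (Wd M) fun w hw => by
    rw [win, coef_chi_mul, if_neg hw], Matrix.mul_apply, ← Finset.sum_coe_sort]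
  refine Finset.sum_congr rfl fun w _ => ?_
  rw [win, coef_chi_mul, if_pos w.2]
  rfl

theorem cmp_win (M : ℤ) (f : En k) : cmp M (f * win k M) = cmp M f := by
  ext u v
  rw [cmp, Matrix.of_apply, win, coef_mul_chi, if_pos v.2]
  rfl

theorem cmp_add (M : ℤ) (f g : En k) : cmp M (f + g) = cmp M f + cmp M g := rfl

theorem cmp_zero (M : ℤ) : cmp M (0 : En k) = 0 := rfl

theorem Hm.cmp {f : En k} (h : Hm f) (M : ℤ) : HM (dg M) (dg M) (cmp M f) := fun u v => h u v

theorem cmp_mul' {M : ℤ} (f : En k) {g : En k} (h : win k M * g = g * win k M) :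
    cmp M f * cmp M g = cmp M (f * g) := by
  rw [← cmp_mul, mul_assoc, h, ← mul_assoc, cmp_win]

/-- Homogeneous idempotents commuting with the window. -/
structure Gd (M : ℤ) (p : En k) : Prop where
  hm : Hm p
  idem : p * p = p
  comm : win k M * p = p * win k M

open Classical in
/-- The index. -/
noncomputable def ind (M : ℤ) (p : En k) : ℤ :=
  if h : ∃ z, Cl (dg M) (cmp M p) z then h.choose else 0

theorem ind_eq {M : ℤ} {p : En k} {z : ℤ} (h : Cl (dg M) (cmp M p) z) : ind M p = z := by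
  have h1 : ∃ z, Cl (dg M) (cmp M p) z := ⟨z, h⟩
  rw [ind, dif_pos h1]
  exact h1.choose_spec.unique h

theorem Gd.cl {M : ℤ} {p : En k} (h : Gd M p) : Cl (dg M) (cmp M p) (ind M p) := by
  obtain ⟨z, hz⟩ := cl_exists (h.hm.cmp M) (by rw [cmp_mul' _ h.comm, h.idem])
  rwa [ind_eq hz]

theorem ind_add {M : ℤ} {p p' : En k} (h : Gd M p) (h' : Gd M p') (h1 : p * p' = 0)
    (h2 : p' * p = 0) : ind M (p + p') = ind M p + ind M p' := by
  have := h.cl.add h'.cl (by rw [cmp_mul' _ h'.comm, h1, cmp_zero])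
    (by rw [cmp_mul' _ h.comm, h2, cmp_zero])
  rw [← cmp_add] at this
  exact ind_eq this

theorem ind_conj {M : ℤ} {f g g' : En k} (hf : Gd M f) (hw : win k M * f = f) (hg : Hm g)
    (hg' : Hm g') (h : g' * g = 1) (hw' : win k M * (g * f * g') = g * f * g') :
    ind M (g * f * g') = ind M f := by
  have h1 : win k M * (g * f) = g * f := by
    have := congrArg (· * g) hw'
    simp only [mul_assoc, h, mul_one] at this
    exact this
  have h2 : cmp M (f * g') * cmp M (g * f) = cmp M f := by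
    rw [← cmp_mul, mul_assoc, h1, mul_assoc, ← mul_assoc g', h, one_mul, hf.idem]
  have h3 : cmp M (g * f) * cmp M (f * g') = cmp M (g * f * g') := by
    rw [← cmp_mul, mul_assoc, ← mul_assoc (win k M), hw, ← mul_assoc, mul_assoc g, hf.idem]
  have h4 : cmp M (g * f) * cmp M f = cmp M (g * f) := by
    rw [cmp_mul' _ hf.comm, mul_assoc, hf.idem]
  have := hf.cl.equiv ((hf.hm.mul hg').cmp M) ((hg.mul hf.hm).cmp M) h2 (by rw [h4])
  rw [h3] at this
  exact ind_eq this

theorem win_eq {M : ℤ} (hM : 0 ≤ M) : win k M = 1 - up k M - lo k (-M) := by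
  refine coef_ext fun u v => ?_
  rw [coef_sub, coef_sub, win, up, lo, coef_chi, coef_chi, coef_chi, coef_one]
  simp only [mem_Wd]
  split_ifs <;> first | omega | simp

theorem Cm.win_mul {M : ℤ} {p : En k} (h : Cm M p) (hM : 0 ≤ M) : win k M * p = p - up k M := by
  rw [win_eq hM, sub_mul, sub_mul, one_mul, h.ul, h.ll, sub_zero]

theorem Cm.gd {M : ℤ} {p : En k} (h : Cm M p) (hM : 0 ≤ M) : Gd M p :=
  ⟨h.hm, h.idem, by
    rw [h.win_mul hM, win_eq hM, mul_sub, mul_sub, mul_one, h.ur, h.lr, sub_zero]⟩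

theorem Cm.up {c a : ℤ} (h1 : a ≤ c) (h2 : -c ≤ a) : Cm c (up k a) :=
  Cm.chi (fun _ h => h1.trans h) fun _ h => h2.trans h

theorem Gd.sub {M : ℤ} {p p' : En k} (h : Gd M p) (h' : Gd M p') (h1 : p * p' = p')
    (h2 : p' * p = p') : Gd M (p - p') :=
  ⟨h.hm.sub h'.hm, by rw [sub_mul, mul_sub, mul_sub, h.idem, h'.idem, h1, h2]; abel,
    by rw [mul_sub, sub_mul, h.comm, h'.comm]⟩

theorem ind_sub {M : ℤ} {p p' : En k} (h : Gd M p) (h' : Gd M p') (h1 : p * p' = p')
    (h2 : p' * p = p') : ind M p = ind M p' + ind M (p - p') := by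
  rw [← ind_add h' (h.sub h' h1 h2) (by rw [mul_sub, h2, h'.idem, sub_self])
    (by rw [sub_mul, h1, h'.idem, sub_self]), add_sub_cancel]

theorem ind_indep {c m : ℤ} (hc : 0 ≤ c) (hm : 0 ≤ m) {p : En k} (h : Cm c p) {σ τ : M4 k}
    (hσ : Band m σ) (hτ : Band m τ) (h1 : σ * τ = 1) (h2 : τ * σ = 1) :
    ind (c + m) (hat σ * p * hat τ) - ind (c + m) p =
      ind (c + m) (hat σ * up k c * hat τ) - ind (c + m) (up k c) := by
  have e2 : hat τ * hat σ = 1 := by rw [← hat_mul, h2, hat_one]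
  have hM : 0 ≤ c + m := by omega
  have hu : Cm c (up k c) := Cm.up le_rfl (by omega)
  have g1 := (h.mono (c' := c + m) (by omega))
  have g2 := (hu.mono (c' := c + m) (by omega))
  have g3 := h.conj hσ hτ h1 h2
  have g4 := hu.conj hσ hτ h1 h2
  have k1 : ∀ a b : En k, hat σ * a * hat τ * (hat σ * b * hat τ) = hat σ * (a * b) * hat τ := by
    intro a b
    calc _ = hat σ * (a * (hat τ * hat σ) * b) * hat τ := by simp only [mul_assoc]
      _ = _ := by rw [e2, mul_one]
  have k2 : hat σ * p * hat τ - hat σ * up k c * hat τ = hat σ * (p - up k c) * hat τ := by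
    rw [mul_sub, sub_mul]
  rw [ind_sub (g1.gd hM) (g2.gd hM) h.ur h.ul,
    ind_sub (g3.gd hM) (g4.gd hM) (by rw [k1, h.ur]) (by rw [k1, h.ul]), k2,
    ind_conj ((g1.gd hM).sub (g2.gd hM) h.ur h.ul) (by
      rw [mul_sub, g1.win_mul hM, g2.win_mul hM]; abel) (Hm.hat σ) (Hm.hat τ) e2 (by
      rw [← k2, mul_sub, g3.win_mul hM, g4.win_mul hM]; abel)]
  ring

theorem ind_indep' {m : ℤ} (hm : 0 ≤ m) {p p' : En k} (h : Cm m p) (h' : Cm m p') {σ τ : M4 k}
    (hσ : Band m σ) (hτ : Band m τ) (h1 : σ * τ = 1) (h2 : τ * σ = 1) :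
    ind (m + m) (hat σ * p * hat τ) - ind (m + m) p =
      ind (m + m) (hat σ * p' * hat τ) - ind (m + m) p' := by
  rw [ind_indep hm hm h hσ hτ h1 h2, ind_indep hm hm h' hσ hτ h1 h2]

/-- The reflection of the window. -/
noncomputable def flipW (M : ℤ) : Wd M ≃ Wd M :=
  flip.subtypeEquiv fun u => by
    simp only [mem_Wd, flip, Equiv.coe_fn_mk]
    omega

theorem ind_flip {M : ℤ} {f f' : En k} (h : Fl f f') (hf : Gd M f) : ind M f' = ind M f := by
  have h1 := hf.cl.transpose.submatrix (flipW M)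
  have h2 : (fun i => -1 - dg M (flipW M i)) = dg M := by
    funext i
    simp [dg, flipW, flip]
  have h3 : (cmp M f)ᵀ.submatrix (flipW M) (flipW M) = cmp M f' := by
    ext u v
    exact (h u v).symm
  rw [h2, h3] at h1
  exact ind_eq h1

theorem ind_ev {M : ℤ} {c : k} {f f' : En k} (h : Ev c f f') (hf : Gd M f) :
    ind M f' = ind M f := by
  have h1 := hf.cl.map c
  have h3 : (cmp M f).map (ev c) = cmp M f' := by
    ext u v
    exact (h u v).symm
  rw [h3] at h1
  exact ind_eq h1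

theorem ind_chi (M : ℤ) (S : Ix → Prop) [DecidablePred S] :
    ind M (chi k S) = ∑ u : Wd M, if S u then Q u.1.1 else 0 := by
  have h1 := Cl.diag (k := k) (dg M) fun u => S u
  have h2 : (diagonal fun u : Wd M => if S u then (1 : RR k) else 0) = cmp M (chi k S) := by
    ext u v
    rw [cmp, Matrix.of_apply, coef_chi, diagonal_apply]
    by_cases h : u = v
    · simp [h]
    · simp [h, Subtype.ext_iff.not.mp h]
  rw [h2] at h1
  exact ind_eq h1

theorem ind_dual {m : ℤ} (hm : 0 ≤ m) {σ τ : M4 k} (hσ : Band m σ) (hτ : Band m τ)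
    (h1 : σ * τ = 1) (h2 : τ * σ = 1) :
    ind (m + m) (hat τᵀ * up k 0 * hat σᵀ) + ind (m + m) (hat σ * up k 0 * hat τ) =
      ind (m + m) (1 : En k) := by
  have hM : 0 ≤ m + m := by omega
  have hu : Cm m (up k 0) := Cm.up hm (by omega)
  have g1 := (hu.conj hσ hτ h1 h2).gd hM
  have g2 := (hu.conj (σ := τᵀ) (τ := σᵀ) (fun a b => hτ b a) (fun a b => hσ b a)
    (by rw [← transpose_mul, h1, transpose_one]) (by rw [← transpose_mul, h2, transpose_one])).gd hM
  have h3 := ind_flip (((Fl.hat σ).mul Fl.up).mul (Fl.hat τ)) g1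
  have h4 : hat τᵀ * (lo k 0 * hat σᵀ) = 1 - hat τᵀ * up k 0 * hat σᵀ := by
    rw [eq_sub_iff_add_eq, mul_assoc, ← mul_add, ← add_mul, add_comm, up_add_lo, one_mul,
      ← hat_mul, ← transpose_mul, h1, transpose_one, hat_one]
  rw [← h3, h4]
  exact (ind_sub ⟨Hm.one, mul_one _, by rw [mul_one, one_mul]⟩ g2 (one_mul _) (mul_one _)).symm

theorem parity {S S' H K ψ ψ' : M4 k} (hS : S * S' = 1) (hH : H * K = 1) (hψ : ψ * ψ' = 1)
    (h0 : ∀ a b, Hg 0 (ψ a b)) (h1 : S.map (ev 1) = H * ψ * Hᵀ)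
    (h2 : ∀ a b, Hg (![1, -1, -1, -1] a + ![2, 0, 0, 0] b) (S.map (ev 0) a b)) : False := by
  have hS' := mul_eq_one_comm.mp hS
  have hH' := mul_eq_one_comm.mp hH
  have hψ' := mul_eq_one_comm.mp hψ
  have hev : ∀ c, S.map (ev c) * S'.map (ev c) = 1 := fun c => by
    rw [← Matrix.map_mul, hS, Matrix.map_one _ (map_zero _) (map_one _)]
  obtain ⟨m, hm, hb⟩ := exists_band ![S, S', H, K, H * ψ, ψ' * K, S.map (ev 0), S'.map (ev 0)]
  have hm0 : 0 ≤ m := by omega
  have hM : 0 ≤ m + m := by omega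
  have hu : Cm m (up k 0) := Cm.up hm0 (by omega)
  have hu0 : Cm 0 (up k 0) := Cm.up le_rfl (by omega)
  have gS := (hu.conj (hb 0) (hb 1) hS hS').gd hM
  have a0 := ind_ev (((Ev.hat 0 S).mul (Ev.chi 0 _)).mul (Ev.hat 0 S')) gS
  have a1 := ind_ev (((Ev.hat 1 S).mul (Ev.chi 1 _)).mul (Ev.hat 1 S')) gS
  have b1 : H * ψ * (ψ' * K) = 1 := by
    rw [Matrix.mul_assoc, ← Matrix.mul_assoc ψ, hψ, Matrix.one_mul, hH]
  have b2 : S'.map (ev 1) = Kᵀ * (ψ' * K) := by
    refine left_inv_eq_right_inv (mul_eq_one_comm.mp (hev 1)) ?_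
    rw [h1, Matrix.mul_assoc, ← Matrix.mul_assoc Hᵀ, ← transpose_mul, hH', transpose_one,
      Matrix.one_mul, b1]
  have cT : Cm m (hat Hᵀ * up k 0 * hat Kᵀ) := by
    have := hu0.conj (σ := Hᵀ) (τ := Kᵀ) (fun a b => hb 2 b a) (fun a b => hb 3 b a)
      (by rw [← transpose_mul, hH', transpose_one]) (by rw [← transpose_mul, hH, transpose_one])
    rwa [zero_add] at this
  have cH : Cm m (hat H * up k 0 * hat K) := by
    have := hu0.conj (hb 2) (hb 3) hH hH'
    rwa [zero_add] at this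
  have d1 := ind_indep' hm0 cT hu (hb 4) (hb 5) b1 (mul_eq_one_comm.mp b1)
  have d2 := ind_indep' hm0 cH hu (hb 3) (hb 2) hH' hH
  have d3 := ind_dual hm0 (hb 3) (hb 2) hH' hH
  have d4 := ind_dual (k := k) hm0 (σ := 1) (τ := 1) (fun a b l hl => by
    have : Hg 0 ((1 : M4 k) a b) := by simpa using HM.one (d := fun _ : Fin 4 => 0) a b
    rw [this.cp_eq] at hl
    split_ifs at hl with h
    · simpa [h] using hm0
    · exact absurd rfl hl) (fun a b l hl => by
    have : Hg 0 ((1 : M4 k) a b) := by simpa using HM.one (d := fun _ : Fin 4 => 0) a b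
    rw [this.cp_eq] at hl
    split_ifs at hl with h
    · simpa [h] using hm0
    · exact absurd rfl hl) (one_mul _) (one_mul _)
  let T : Ix → Prop := fun u => -(![2, 0, 0, 0] : Fin 4 → ℤ) u.2 ≤ u.1
  let T' : Ix → Prop := fun u => (![1, -1, -1, -1] : Fin 4 → ℤ) u.2 ≤ u.1
  have cχ : Cm m (chi k T) := Cm.chi (fun u h => by
      obtain ⟨j, a⟩ := u
      fin_cases a <;> simp [T] at h ⊢ <;> omega) (fun u h => by
      obtain ⟨j, a⟩ := u
      fin_cases a <;> simp [T] at h ⊢ <;> omega)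
  have d5 := ind_indep' hm0 cχ hu (hb 6) (hb 7) (hev 0) (mul_eq_one_comm.mp (hev 0))
  have e1 : hat ψ * up k 0 = up k 0 * hat ψ :=
    hat_chi (α := 0) (β := 0) (by simpa using h0) (by simp) (by simp)
  have e2 : hat (H * ψ) * up k 0 * hat (ψ' * K) = hat H * up k 0 * hat K := by
    rw [hat_mul, mul_assoc (hat H), e1, mul_assoc, mul_assoc, ← hat_mul, ← Matrix.mul_assoc, hψ,
      Matrix.one_mul, mul_assoc]
  have e3 : hat (H * ψ) * (hat Hᵀ * up k 0 * hat Kᵀ) * hat (ψ' * K) =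
      hat (S.map (ev 1)) * up k 0 * hat (S'.map (ev 1)) := by
    rw [h1, b2, hat_mul (H * ψ), hat_mul Kᵀ]
    simp only [mul_assoc]
  have e4 : hat K * (hat H * up k 0 * hat K) * hat H = up k 0 := by
    calc _ = hat K * hat H * up k 0 * (hat K * hat H) := by simp only [mul_assoc]
      _ = _ := by rw [← hat_mul, hH', hat_one, one_mul, mul_one]
  have e5 : hat (S.map (ev 0)) * chi k T * hat (S'.map (ev 0)) = chi k T' := by
    rw [hat_chi (T := T') h2 (fun _ => Iff.rfl) (fun _ => Iff.rfl), mul_assoc, ← hat_mul, hev,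
      hat_one, mul_one]
  have e6 : ind (m + m) (chi k T) - ind (m + m) (chi k T') = 1 := by
    rw [ind_chi, ind_chi, ← Finset.sum_sub_distrib,
      Finset.sum_eq_single ⟨(-2, 0), mem_Wd.mpr (by simp only; omega)⟩]
    · simp [T, T', Q]
    · rintro ⟨⟨j, a⟩, hu⟩ _ hne
      have hne' : ¬(j = -2 ∧ a = 0) := fun h => hne (Subtype.ext (Prod.ext h.1 h.2))
      have q0 : Q 0 = 0 := rfl
      have q1 : Q (-1) = 0 := rfl
      by_cases j0 : j = 0
      · simp [j0, q0]
      by_cases j1 : j = -1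
      · simp [j1, q1]
      have : T (j, a) ↔ T' (j, a) := by
        fin_cases a <;> simp [T, T'] at hne' ⊢ <;> omega
      simp [this]
    · simp
  simp only [Matrix.cons_val] at d1 d2 d3 d5
  rw [e2, e3] at d1
  rw [e4] at d2
  rw [e5] at d5
  rw [transpose_one, hat_one, one_mul, mul_one] at d4
  change ind _ (_ * up k 0 * _) = _ at a0 a1
  omega

end Pool.Agent.P.MP_260cc8_ag.af
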