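import Pool.Agent.P.MP_260cc8_ag.af.Gr

/-!
Dimensions of graded pieces, and the relation they satisfy on a module killed by `x.y`.
-/

namespace Pool.Agent.P.MP_260cc8_ag.af

open MvPolynomial

variable {k : Type} [Field k]

section dim

variable {σ : Type} {Γ : Type} [AddCommGroup Γ] {w : σ → Γ}
  {M : Type} [AddCommGroup M] [Module (MvPolynomial σ k) M] [Module k M]
  [IsScalarTower k (MvPolynomial σ k) M]
  {N : Type} [AddCommGroup N] [Module (MvPolynomial σ k) N] [Module k N]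
  [IsScalarTower k (MvPolynomial σ k) N]

/-- The piece of degree `d` of a submodule. -/
noncomputable def Gr.pc (G : Gr k w M) (U : Submodule (MvPolynomial σ k) M) (d : Γ) : Submodule k M :=
  U.restrictScalars k ⊓ LinearMap.eqLocus (G.π d) LinearMap.id

theorem Gr.mem_pc {G : Gr k w M} {U : Submodule (MvPolynomial σ k) M} {d : Γ} {m : M} :
    m ∈ G.pc U d ↔ m ∈ U ∧ G.π d m = m := Iff.rfl

/-- The dimension of the piece of degree `d`. -/
noncomputable def Gr.h (G : Gr k w M) (U : Submodule (MvPolynomial σ k) M) (d : Γ) : ℤ :=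
  Module.finrank k (G.pc U d)

/-- All pieces have finite dimension. -/
def Gr.Fd (G : Gr k w M) : Prop := ∀ d, FiniteDimensional k (G.pc ⊤ d)

theorem Gr.Fd.pc {G : Gr k w M} (hG : G.Fd) (U : Submodule (MvPolynomial σ k) M) (d : Γ) :
    FiniteDimensional k (G.pc U d) :=
  haveI := hG d
  Submodule.finiteDimensional_of_le (S₂ := G.pc ⊤ d) fun _ hm => ⟨Submodule.mem_top, hm.2⟩

theorem Gr.h_zero (G : Gr k w M) {U : Submodule (MvPolynomial σ k) M} {d : Γ}
    (h : ∀ m ∈ U, G.π d m = m → m = 0) : G.h U d = 0 := by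
  have : G.pc U d = ⊥ := by
    rw [eq_bot_iff]
    intro m hm
    exact h m hm.1 hm.2
  rw [Gr.h, this, finrank_bot]
  rfl

theorem Gr.h_rank {G : Gr k w M} {G' : Gr k w N} (hG : G.Fd) {e : Γ}
    {f : M →ₗ[MvPolynomial σ k] N} (hf : G.Map G' e f) {U : Submodule (MvPolynomial σ k) M}
    {V : Submodule (MvPolynomial σ k) N} (hU : G.Sub U) (hUV : ∀ m ∈ U, f m ∈ V) (d : Γ)
    (hs : ∀ n ∈ V, G'.π (e + d) n = n → n ∈ U.map f) :
    G.h U d = G'.h V (e + d) + G.h (U ⊓ LinearMap.ker f) d := by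
  have := hG.pc U d
  let g : G.pc U d →ₗ[k] G'.pc V (e + d) :=
    (f.restrictScalars k).restrict fun m hm => ⟨hUV m hm.1, by
      change G'.π (e + d) (f m) = f m
      rw [hf, hm.2]; rfl⟩
  have h1 : LinearMap.range g = ⊤ := by
    rw [eq_top_iff]
    rintro ⟨n, hn⟩ -
    obtain ⟨m, hm, rfl⟩ := hs n hn.1 hn.2
    refine ⟨⟨G.π d m, hU d m hm, G.same d m⟩, Subtype.ext ?_⟩
    change f (G.π d m) = f m
    rw [← hf]
    exact hn.2
  have h2 : (LinearMap.ker g).map (G.pc U d).subtype = G.pc (U ⊓ LinearMap.ker f) d := by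
    ext m
    constructor
    · rintro ⟨⟨m, hm⟩, h, rfl⟩
      exact ⟨⟨hm.1, congrArg Subtype.val h⟩, hm.2⟩
    · intro hm
      exact ⟨⟨m, hm.1.1, hm.2⟩, Subtype.ext hm.1.2, rfl⟩
  have h3 := g.finrank_range_add_finrank_ker
  rw [h1, finrank_top] at h3
  rw [Gr.h, Gr.h, Gr.h, ← h2, Submodule.finrank_map_subtype_eq, ← h3]
  push_cast
  rfl

theorem Gr.Fd.quot {G : Gr k w M} (hG : G.Fd) (U : Submodule (MvPolynomial σ k) M)
    (hU : G.Sub U) : (G.quot U hU).Fd := by
  intro d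
  have := hG d
  have : (G.quot U hU).pc ⊤ d = (G.pc ⊤ d).map (U.mkQ.restrictScalars k) := by
    ext a
    constructor
    · intro ha
      obtain ⟨m, rfl⟩ := U.mkQ_surjective a
      exact ⟨G.π d m, ⟨Submodule.mem_top, G.same d m⟩, ha.2⟩
    · rintro ⟨m, hm, rfl⟩
      refine ⟨Submodule.mem_top, ?_⟩
      have h := G.map_mkQ U hU d m
      rw [zero_add, show G.π d m = m from hm.2] at h
      exact h
  rw [this]
  infer_instance

/-- The pieces of a product. -/
noncomputable def Gr.piEquiv (G : Gr k w M) {ι : Type} [Fintype ι] (D : ι → Γ)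
    (U : Submodule (MvPolynomial σ k) M) (d : Γ) :
    (G.pi D).pc (Submodule.pi Set.univ fun _ => U) d ≃ₗ[k] ∀ i, G.pc U (D i + d) where
  toFun v i := ⟨v.1 i, v.2.1 i (Set.mem_univ i), congrFun v.2.2 i⟩
  invFun v := ⟨fun i => (v i).1, fun i _ => (v i).2.1, funext fun i => (v i).2.2⟩
  map_add' _ _ := rfl
  map_smul' _ _ := rfl
  left_inv _ := rfl
  right_inv _ := rfl

theorem Gr.Fd.pi {G : Gr k w M} (hG : G.Fd) {ι : Type} [Fintype ι] (D : ι → Γ) :
    (G.pi D).Fd := by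
  intro d
  have := fun i => hG (D i + d)
  have h := (G.piEquiv D ⊤ d).symm.finiteDimensional
  rwa [Submodule.pi_top] at h

theorem Gr.h_pi {G : Gr k w M} (hG : G.Fd) {ι : Type} [Fintype ι] (D : ι → Γ)
    (U : Submodule (MvPolynomial σ k) M) (d : Γ) :
    (G.pi D).h (Submodule.pi Set.univ fun _ => U) d = ∑ i, G.h U (D i + d) := by
  have := fun i => hG.pc U (D i + d)
  rw [Gr.h, (G.piEquiv D U d).finrank_eq, Module.finrank_pi_fintype]
  push_cast
  rfl

omit [IsScalarTower k (MvPolynomial σ k) M] in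
theorem Gr.Sub.pi {G : Gr k w M} {ι : Type} [Fintype ι] (D : ι → Γ)
    {U : Submodule (MvPolynomial σ k) M} (hU : G.Sub U) :
    (G.pi D).Sub (Submodule.pi Set.univ fun _ => U) :=
  fun _ _ hm i hi => hU _ _ (hm i hi)

end dim

/-- The polynomial ring in eight variables. -/
abbrev PP (k : Type) [Field k] := MvPolynomial (Fin 8) k

/-- Tri-degrees. -/
abbrev Dg := ℤ × ℤ × ℤ

/-- The tri-degrees of the variables. -/
def wt : Fin 8 → Dg :=
  ![(1, 0, 0), (1, 0, 0), (1, 0, 0), (0, 1, 0), (0, 1, 0), (0, 1, 0), (0, 0, 1), (0, 0, 1)]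

/-- The pairing of the first three variables with the next three. -/
noncomputable def qq (k : Type) [Field k] : PP k := X 0 * X 3 + X 1 * X 4 + X 2 * X 5

section kill

variable {M : Type} [AddCommGroup M] [Module (PP k) M]

/-- `m ↦ (a_i m)`. -/
noncomputable def vecL (a : Fin 3 → PP k) : M →ₗ[PP k] (Fin 3 → M) :=
  LinearMap.pi fun i => a i • LinearMap.id

/-- `m ↦ a.m`. -/
noncomputable def dotL (a : Fin 3 → PP k) : (Fin 3 → M) →ₗ[PP k] M :=
  a 0 • LinearMap.proj 0 + a 1 • LinearMap.proj 1 + a 2 • LinearMap.proj 2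

/-- The cross product with `a`. -/
noncomputable def crossL (a : Fin 3 → PP k) : (Fin 3 → M) →ₗ[PP k] (Fin 3 → M) :=
  LinearMap.pi ![a 1 • LinearMap.proj 2 - a 2 • LinearMap.proj 1,
    a 2 • LinearMap.proj 0 - a 0 • LinearMap.proj 2,
    a 0 • LinearMap.proj 1 - a 1 • LinearMap.proj 0]

theorem vecL_apply (a : Fin 3 → PP k) (m : M) (i : Fin 3) : vecL a m i = a i • m := rfl

theorem dotL_apply (a : Fin 3 → PP k) (m : Fin 3 → M) :
    dotL a m = a 0 • m 0 + a 1 • m 1 + a 2 • m 2 := rfl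

theorem crossL_0 (a : Fin 3 → PP k) (m : Fin 3 → M) : crossL a m 0 = a 1 • m 2 - a 2 • m 1 := rfl

theorem crossL_1 (a : Fin 3 → PP k) (m : Fin 3 → M) : crossL a m 1 = a 2 • m 0 - a 0 • m 2 := rfl

theorem crossL_2 (a : Fin 3 → PP k) (m : Fin 3 → M) : crossL a m 2 = a 0 • m 1 - a 1 • m 0 := rfl

theorem ext3 {α : Type} {u v : Fin 3 → α} (h0 : u 0 = v 0) (h1 : u 1 = v 1) (h2 : u 2 = v 2) :
    u = v := by
  funext i
  fin_cases i
  exacts [h0, h1, h2]

theorem smul_of_cross (a : Fin 3 → PP k) (m : Fin 3 → M) (h : crossL a m = 0) (i : Fin 3) :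
    vecL a (m i) = a i • m := by
  have h0 : a 1 • m 2 - a 2 • m 1 = 0 := congrFun h 0
  have h1 : a 2 • m 0 - a 0 • m 2 = 0 := congrFun h 1
  have h2 : a 0 • m 1 - a 1 • m 0 = 0 := congrFun h 2
  rw [sub_eq_zero] at h0 h1 h2
  fin_cases i <;> apply ext3 <;> simp [vecL_apply, h0, h1, h2]

variable [Module k M]

theorem map_vecL (G : Gr k wt M) {a : Fin 3 → PP k} {e : Dg}
    (ha : ∀ i, IsWeightedHomogeneous wt (a i) e) : G.Map (G.pi fun _ => 0) e (vecL a) := by
  intro d m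
  funext i
  rw [Gr.pi_apply, zero_add, vecL_apply, vecL_apply, G.smul e _ (ha i)]

theorem map_dotL (G : Gr k wt M) {a : Fin 3 → PP k} {e : Dg}
    (ha : ∀ i, IsWeightedHomogeneous wt (a i) e) : (G.pi fun _ => 0).Map G e (dotL a) := by
  intro d m
  simp only [dotL_apply, map_add, Gr.pi_apply, zero_add, G.smul e _ (ha _)]

theorem map_crossL (G : Gr k wt M) {a : Fin 3 → PP k} {e : Dg}
    (ha : ∀ i, IsWeightedHomogeneous wt (a i) e) :
    (G.pi fun _ => 0).Map (G.pi fun _ => 0) e (crossL a) := by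
  intro d m
  apply ext3 <;>
    simp only [crossL_0, crossL_1, crossL_2, map_sub, Gr.pi_apply, zero_add, G.smul e _ (ha _)]

/-- The first three variables. -/
noncomputable def xx (k : Type) [Field k] : Fin 3 → PP k := ![X 0, X 1, X 2]

/-- The next three variables. -/
noncomputable def yy (k : Type) [Field k] : Fin 3 → PP k := ![X 3, X 4, X 5]

theorem xx_hom (i : Fin 3) : IsWeightedHomogeneous wt (xx k i) (1, 0, 0) := by
  fin_cases i <;> exact isWeightedHomogeneous_X k wt _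

theorem yy_hom (i : Fin 3) : IsWeightedHomogeneous wt (yy k i) (0, 1, 0) := by
  fin_cases i <;> exact isWeightedHomogeneous_X k wt _

theorem van_x {N : Type} [AddCommGroup N] [Module (PP k) N] [Module k N] (G : Gr k wt N)
    [IsNoetherian (PP k) N] {U U' : Submodule (PP k) N} (hU : G.Sub U)
    (h : ∀ i, ∀ m ∈ U, xx k i • m ∈ U') :
    ∃ a : ℤ, ∀ d : Dg, a < d.1 → ∀ m ∈ U, G.π d m = m → m ∈ U' := by
  refine G.van (T := {0, 1, 2}) hU (AddMonoidHom.fst ℤ (ℤ × ℤ)) ?_ ?_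
  · intro s hs
    fin_cases s <;> simp [wt] at hs ⊢
  · rintro s (rfl | rfl | rfl)
    exacts [h 0, h 1, h 2]

theorem van_y {N : Type} [AddCommGroup N] [Module (PP k) N] [Module k N] (G : Gr k wt N)
    [IsNoetherian (PP k) N] {U U' : Submodule (PP k) N} (hU : G.Sub U)
    (h : ∀ i, ∀ m ∈ U, yy k i • m ∈ U') :
    ∃ a : ℤ, ∀ d : Dg, a < d.2.1 → ∀ m ∈ U, G.π d m = m → m ∈ U' := by
  refine G.van (T := {3, 4, 5}) hU
    ((AddMonoidHom.fst ℤ ℤ).comp (AddMonoidHom.snd ℤ (ℤ × ℤ))) ?_ ?_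
  · intro s hs
    fin_cases s <;> simp [wt] at hs ⊢
  · rintro s (rfl | rfl | rfl)
    exacts [h 0, h 1, h 2]

variable [IsScalarTower k (PP k) M]

/-- The combination of values of a Hilbert function. -/
def cmb (h : Dg → ℤ) (d : Dg) : ℤ :=
  h ((1, 0, 0) + d) - 3 * h d + h (d - (0, 1, 0)) + h (d - (1, 0, 0) + (0, 1, 0))

theorem kill (G : Gr k wt M) [IsNoetherian (PP k) M] (hG : G.Fd) {U : Submodule (PP k) M}
    (hU : G.Sub U) (hq : ∀ m ∈ U, qq k • m = 0) :
    ∃ a : ℤ, ∀ d : Dg, a < d.1 → a < d.2.1 → cmb (G.h U) d = 0 := by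
  let G3 := G.pi fun _ : Fin 3 => (0 : Dg)
  let U3 : Submodule (PP k) (Fin 3 → M) := Submodule.pi Set.univ fun _ => U
  have hU3 : G3.Sub U3 := hU.pi _
  have hG3 : G3.Fd := hG.pi _
  let Z1 := U3 ⊓ LinearMap.ker (crossL (xx k))
  let Z2 := U3 ⊓ LinearMap.ker (dotL (xx k))
  have hZ1 : G3.Sub Z1 := hU3.inf (map_crossL G xx_hom).ker
  have hZ2 : G3.Sub Z2 := hU3.inf (map_dotL G xx_hom).ker
  let Z3 := Z2 ⊓ LinearMap.ker (crossL (yy k))
  have hZ3 : G3.Sub Z3 := hZ2.inf (map_crossL G yy_hom).ker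
  let W := Z1 ⊓ LinearMap.ker (dotL (yy k))
  have hW : G3.Sub W := hZ1.inf (map_dotL G yy_hom).ker
  have q1 : ∀ m ∈ U, dotL (yy k) (vecL (xx k) m) = 0 := by
    intro m hm
    rw [← hq m hm]
    simp only [dotL_apply, vecL_apply, xx, yy, qq, Matrix.cons_val_zero, Matrix.cons_val_one,
      Matrix.cons_val]
    module
  have q2 : ∀ m ∈ U, dotL (xx k) (vecL (yy k) m) = 0 := by
    intro m hm
    rw [← hq m hm]
    simp only [dotL_apply, vecL_apply, xx, yy, qq, Matrix.cons_val_zero, Matrix.cons_val_one,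
      Matrix.cons_val]
    module
  have v3 : ∀ (a : Fin 3 → PP k), ∀ m ∈ U, vecL a m ∈ U3 := fun a m hm i _ => U.smul_mem _ hm
  have cv : ∀ (a : Fin 3 → PP k) (m : M), crossL a (vecL a m) = 0 := by
    intro a m
    apply ext3 <;> simp only [crossL_0, crossL_1, crossL_2, vecL_apply, Pi.zero_apply] <;> module
  obtain ⟨a1, h1⟩ := van_x G (U' := U3.map (dotL (xx k))) hU (by
    intro i m hm
    refine ⟨Pi.single i m, fun j _ => ?_, ?_⟩
    · by_cases h : j = i
      · subst h; simpa using hm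
      · simp [Pi.single_eq_of_ne h]
    · fin_cases i <;> simp [dotL_apply])
  obtain ⟨a2, h2⟩ := van_x G (U' := ⊥) (hU.inf (map_vecL G xx_hom).ker)
    (fun i m hm => congrFun hm.2 i)
  obtain ⟨a3, h3⟩ := van_x G3 (U' := U.map (vecL (xx k))) hZ1
    (fun i m hm => ⟨m i, hm.1 i trivial, smul_of_cross _ m hm.2 i⟩)
  obtain ⟨a4, h4⟩ := van_y G (U' := ⊥) (hU.inf (map_vecL G yy_hom).ker)
    (fun i m hm => congrFun hm.2 i)
  obtain ⟨a5, h5⟩ := van_y G3 (U' := U.map (vecL (yy k))) hZ3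
    (fun i m hm => ⟨m i, hm.1.1 i trivial, smul_of_cross _ m hm.2 i⟩)
  obtain ⟨a6, h6⟩ := van_y G3 (U' := Z2.map (crossL (yy k))) hW (by
    intro i m hm
    have c0 : xx k 1 • m 2 - xx k 2 • m 1 = 0 := congrFun hm.1.2 0
    have c1 : xx k 2 • m 0 - xx k 0 • m 2 = 0 := congrFun hm.1.2 1
    have c2 : xx k 0 • m 1 - xx k 1 • m 0 = 0 := congrFun hm.1.2 2
    have c3 : yy k 0 • m 0 + yy k 1 • m 1 + yy k 2 • m 2 = 0 := hm.2
    have m0 : m 0 ∈ U := hm.1.1 0 trivial
    have m1 : m 1 ∈ U := hm.1.1 1 trivial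
    have m2 : m 2 ∈ U := hm.1.1 2 trivial
    fin_cases i
    · refine ⟨![0, m 2, -m 1], ⟨fun j _ => ?_, ?_⟩, ?_⟩
      · fin_cases j <;> simp [m1, m2]
      · change xx k 0 • (0 : M) + xx k 1 • m 2 + xx k 2 • (-m 1) = 0
        linear_combination (norm := module) c0
      · apply ext3
        · change yy k 1 • (-m 1) - yy k 2 • m 2 = yy k 0 • m 0
          linear_combination (norm := module) -c3
        · change yy k 2 • (0 : M) - yy k 0 • (-m 1) = yy k 0 • m 1
          module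
        · change yy k 0 • m 2 - yy k 1 • (0 : M) = yy k 0 • m 2
          module
    · refine ⟨![-m 2, 0, m 0], ⟨fun j _ => ?_, ?_⟩, ?_⟩
      · fin_cases j <;> simp [m0, m2]
      · change xx k 0 • (-m 2) + xx k 1 • (0 : M) + xx k 2 • m 0 = 0
        linear_combination (norm := module) c1
      · apply ext3
        · change yy k 1 • m 0 - yy k 2 • (0 : M) = yy k 1 • m 0
          module
        · change yy k 2 • (-m 2) - yy k 0 • m 0 = yy k 1 • m 1
          linear_combination (norm := module) -c3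
        · change yy k 0 • (0 : M) - yy k 1 • (-m 2) = yy k 1 • m 2
          module
    · refine ⟨![m 1, -m 0, 0], ⟨fun j _ => ?_, ?_⟩, ?_⟩
      · fin_cases j <;> simp [m0, m1]
      · change xx k 0 • m 1 + xx k 1 • (-m 0) + xx k 2 • (0 : M) = 0
        linear_combination (norm := module) c2
      · apply ext3
        · change yy k 1 • (0 : M) - yy k 2 • (-m 0) = yy k 2 • m 0
          module
        · change yy k 2 • m 1 - yy k 0 • (0 : M) = yy k 2 • m 1
          module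
        · change yy k 0 • (-m 0) - yy k 1 • m 1 = yy k 2 • m 2
          linear_combination (norm := module) -c3)
  refine ⟨max (max (max a1 a2) (max a3 a4)) (max a5 a6) + 1, fun d hd hd' => ?_⟩
  have e1 := Gr.h_rank hG3 (map_dotL G xx_hom) hU3 (V := U) (fun m hm => by
      rw [dotL_apply]
      exact U.add_mem (U.add_mem (U.smul_mem _ (hm 0 trivial)) (U.smul_mem _ (hm 1 trivial)))
        (U.smul_mem _ (hm 2 trivial))) d
    (h1 _ (by simp only [Prod.fst_add]; omega))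
  have e0 := Gr.h_pi hG (fun _ : Fin 3 => (0 : Dg)) U d
  have hx1 : ∀ m ∈ U, vecL (xx k) m ∈ Z1 := fun m hm => ⟨v3 _ m hm, cv _ m⟩
  have dd : (1, 0, 0) + (d - (1, 0, 0) + (0, 1, 0)) = ((0, 1, 0) : Dg) + d := by abel
  have e2 := Gr.h_rank hG (map_vecL G xx_hom) hU hx1 (d - (1, 0, 0) + (0, 1, 0))
    (h3 _ (by rw [dd]; simp only [Prod.fst_add]; omega))
  have z2 := G.h_zero (h2 (d - (1, 0, 0) + (0, 1, 0))
    (by simp only [Prod.fst_add, Prod.fst_sub]; omega))
  have e3 := Gr.h_rank hG3 (map_crossL G yy_hom) hZ2 (V := Z1) (by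
      intro m hm
      have m0 : m 0 ∈ U := hm.1 0 trivial
      have m1 : m 1 ∈ U := hm.1 1 trivial
      have m2 : m 2 ∈ U := hm.1 2 trivial
      have c3 : xx k 0 • m 0 + xx k 1 • m 1 + xx k 2 • m 2 = 0 := hm.2
      have t0 := hq _ m0
      have t1 := hq _ m1
      have t2 := hq _ m2
      have hqq : qq k = xx k 0 * yy k 0 + xx k 1 * yy k 1 + xx k 2 * yy k 2 := rfl
      rw [hqq] at t0 t1 t2
      refine ⟨fun j _ => ?_, ?_⟩
      · fin_cases j
        · exact U.sub_mem (U.smul_mem _ m2) (U.smul_mem _ m1)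
        · exact U.sub_mem (U.smul_mem _ m0) (U.smul_mem _ m2)
        · exact U.sub_mem (U.smul_mem _ m1) (U.smul_mem _ m0)
      · change crossL (xx k) (crossL (yy k) m) = 0
        apply ext3 <;> simp only [crossL_0, crossL_1, crossL_2, Pi.zero_apply]
        · linear_combination (norm := module) yy k 0 • c3 - t0
        · linear_combination (norm := module) yy k 1 • c3 - t1
        · linear_combination (norm := module) yy k 2 • c3 - t2) d (by
      intro n hn hn'
      refine h6 _ (by simp only [Prod.snd_add, Prod.fst_add]; omega) n ⟨hn, ?_⟩ hn'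
      obtain ⟨m, hm, rfl⟩ := h3 _ (by simp only [Prod.fst_add]; omega) n hn hn'
      exact q1 m hm)
  have dd' : (0, 1, 0) + (d - (0, 1, 0)) = d := by abel
  have e4 := Gr.h_rank hG (map_vecL G yy_hom) hU (V := Z3)
    (fun m hm => ⟨⟨v3 _ m hm, q2 m hm⟩, cv _ m⟩) (d - (0, 1, 0))
    (h5 _ (by rw [dd']; omega))
  have z4 := G.h_zero (h4 (d - (0, 1, 0))
    (by simp only [Prod.snd_sub, Prod.fst_sub]; omega))
  rw [dd] at e2
  rw [dd'] at e4
  simp only [zero_add, Finset.sum_const, Finset.card_univ, Fintype.card_fin, nsmul_eq_mul,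
    Nat.cast_ofNat] at e0
  change G3.h U3 d = _ at e0
  change G3.h U3 d = _ + G3.h Z2 d at e1
  change _ = G3.h Z1 _ + _ at e2
  change G3.h Z2 d = G3.h Z1 _ + G3.h Z3 d at e3
  change _ = G3.h Z3 d + _ at e4
  rw [cmb]
  omega

theorem kill_pair (G : Gr k wt M) [IsNoetherian (PP k) M] (hG : G.Fd)
    {U U' : Submodule (PP k) M} (hU : G.Sub U) (hU' : G.Sub U') (hle : U' ≤ U)
    (hq : ∀ m ∈ U, qq k • m ∈ U') :
    ∃ a : ℤ, ∀ d : Dg, a < d.1 → a < d.2.1 → cmb (G.h U) d = cmb (G.h U') d := by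
  obtain ⟨a, ha⟩ := kill (G.quot U' hU') (hG.quot U' hU') ((G.map_mkQ U' hU').map hU) (by
    rintro _ ⟨m, hm, rfl⟩
    rw [← map_smul, Submodule.mkQ_apply, Submodule.Quotient.mk_eq_zero]
    exact hq m hm)
  have h : ∀ d, G.h U d = (G.quot U' hU').h (U.map U'.mkQ) d + G.h U' d := by
    intro d
    have := Gr.h_rank hG (G.map_mkQ U' hU') hU (V := U.map U'.mkQ)
      (fun m hm => Submodule.mem_map_of_mem hm) d (fun n hn _ => hn)
    rwa [zero_add, Submodule.ker_mkQ, inf_eq_right.mpr hle] at this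
  refine ⟨a, fun d h1 h2 => ?_⟩
  have := ha d h1 h2
  simp only [cmb, h] at this ⊢
  omega

end kill

end Pool.Agent.P.MP_260cc8_ag.af
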