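import Pool.Agent.P.MP_260cc8_ag.af.Cl

/-!
Toeplitz operators attached to matrices over the graded ring.
-/

namespace Pool.Agent.P.MP_260cc8_ag.af

open Matrix

variable {k : Type} [Field k]

/-- The index set. -/
abbrev Ix := ℤ × Fin 4

/-- Operators. -/
def En (k : Type) [Field k] : Type := Module.End (RR k) (Ix →₀ RR k)

noncomputable instance : Ring (En k) := Module.End.instRing

/-- The linear map of an operator. -/
def En.to (f : En k) : (Ix →₀ RR k) →ₗ[RR k] (Ix →₀ RR k) := f

/-- Square matrices of size four. -/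
abbrev M4 (k : Type) [Field k] := Matrix (Fin 4) (Fin 4) (RR k)

/-- Matrix coefficients. -/
noncomputable def coef (f : En k) (u v : Ix) : RR k := f.to (Finsupp.single v 1) u

theorem coef_ext {f g : En k} (h : ∀ u v, coef f u v = coef g u v) : f = g :=
  show f.to = g.to from
    Finsupp.lhom_ext' fun v => LinearMap.ext_ring (Finsupp.ext fun u => h u v)

theorem coef_mul (f g : En k) (u v : Ix) (s : Finset Ix) (h : ∀ w, w ∉ s → coef g w v = 0) :
    coef (f * g) u v = ∑ w ∈ s, coef f u w * coef g w v := by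
  have h1 : g.to (Finsupp.single v 1) = ∑ w ∈ s, coef g w v • Finsupp.single w (1 : RR k) := by
    ext w
    rw [Finsupp.finsetSum_apply]
    simp only [Finsupp.smul_apply, Finsupp.single_apply, smul_eq_mul, mul_ite, mul_one, mul_zero,
      Finset.sum_ite_eq']
    split_ifs with hw
    · rfl
    · exact h w hw
  change f.to (g.to (Finsupp.single v 1)) u = _
  rw [h1, map_sum, Finsupp.finsetSum_apply]
  refine Finset.sum_congr rfl fun w _ => ?_
  rw [map_smul, Finsupp.smul_apply, smul_eq_mul, mul_comm]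
  rfl

theorem coef_supp (g : En k) (v : Ix) :
    ∀ w, w ∉ (g.to (Finsupp.single v 1)).support → coef g w v = 0 :=
  fun _ hw => Finsupp.notMem_support_iff.mp hw

theorem coef_add (f g : En k) (u v : Ix) : coef (f + g) u v = coef f u v + coef g u v := rfl

theorem coef_sub (f g : En k) (u v : Ix) : coef (f - g) u v = coef f u v - coef g u v := rfl

theorem coef_zero (u v : Ix) : coef (0 : En k) u v = 0 := rfl

theorem coef_one (u v : Ix) : coef (1 : En k) u v = if u = v then 1 else 0 := by
  change Finsupp.single v (1 : RR k) u = _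
  simp [Finsupp.single_apply, eq_comm]

/-- Coordinate projections. -/
noncomputable def chi (k : Type) [Field k] (S : Ix → Prop) [DecidablePred S] : En k :=
  show (Ix →₀ RR k) →ₗ[RR k] (Ix →₀ RR k) from
    { toFun x := x.filter S
      map_add' _ _ := Finsupp.filter_add
      map_smul' _ _ := Finsupp.filter_smul }

theorem coef_chi_mul (S : Ix → Prop) [DecidablePred S] (f : En k) (u v : Ix) :
    coef (chi k S * f) u v = if S u then coef f u v else 0 := Finsupp.filter_apply _ _ _

theorem coef_mul_chi (S : Ix → Prop) [DecidablePred S] (f : En k) (u v : Ix) :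
    coef (f * chi k S) u v = if S v then coef f u v else 0 := by
  change f.to ((Finsupp.single v (1 : RR k)).filter S) u = _
  split_ifs with h
  · rw [Finsupp.filter_single_of_pos _ h]
    rfl
  · rw [Finsupp.filter_single_of_neg _ h, map_zero]
    rfl

theorem coef_chi (S : Ix → Prop) [DecidablePred S] (u v : Ix) :
    coef (chi k S) u v = if S u then (if u = v then 1 else 0) else 0 := by
  rw [← mul_one (chi k S), coef_chi_mul, coef_one]

/-- All components of the entries have degree at most `m` in absolute value. -/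
def Band (m : ℤ) (σ : M4 k) : Prop := ∀ a b l, cp l (σ a b) ≠ 0 → |l| ≤ m

theorem exists_band {ι : Type} [Finite ι] (σ : ι → M4 k) :
    ∃ m : ℤ, 2 ≤ m ∧ ∀ i, Band m (σ i) := by
  choose m hm using fun u : ι × Fin 4 × Fin 4 => cp_band (σ u.1 u.2.1 u.2.2)
  obtain ⟨a, ha⟩ := (Set.finite_range m).bddAbove
  exact ⟨max a 2, le_max_right _ _, fun i x y l hl =>
    ((hm (i, x, y) l hl).trans (ha ⟨_, rfl⟩)).trans (le_max_left _ _)⟩

/-- The Toeplitz operator of a matrix. -/
noncomputable def hat (σ : M4 k) : En k :=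
  Finsupp.linearCombination (RR k) fun v : Ix =>
    Finsupp.ofSupportFinite (fun u : Ix => cp (u.1 - v.1) (σ u.2 v.2)) (by
      obtain ⟨m, -, hm⟩ := exists_band fun _ : Unit => σ
      refine ((Set.finite_Icc (v.1 - m) (v.1 + m)).prod Set.finite_univ).subset fun u hu => ?_
      have := abs_le.mp (hm () _ _ _ hu)
      exact ⟨⟨by omega, by omega⟩, trivial⟩)

theorem coef_hat (σ : M4 k) (u v : Ix) : coef (hat σ) u v = cp (u.1 - v.1) (σ u.2 v.2) := by
  rw [coef, hat, En.to, Finsupp.linearCombination_single, one_smul]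
  rfl

theorem hat_mul (σ τ : M4 k) : hat (σ * τ) = hat σ * hat τ := by
  refine coef_ext fun u v => ?_
  obtain ⟨m, -, hm⟩ := exists_band fun _ : Unit => τ
  have h0 : ∀ a b l, l ∉ Finset.Icc (-m) m → cp l (τ a b) = 0 := by
    intro a b l hl
    by_contra h
    exact hl (Finset.mem_Icc.mpr (abs_le.mp (hm () a b l h)))
  rw [coef_mul _ _ u v (((Finset.Icc (-m) m).map (addRightEmbedding v.1)) ×ˢ Finset.univ)
    (fun w hw => by
      rw [coef_hat]
      refine h0 _ _ _ fun h => hw ?_
      exact Finset.mem_product.mpr ⟨Finset.mem_map.mpr ⟨_, h, by simp⟩, Finset.mem_univ _⟩),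
    coef_hat, Matrix.mul_apply, cp_sum, Finset.sum_product, Finset.sum_map, Finset.sum_comm]
  refine Finset.sum_congr rfl fun γ _ => ?_
  rw [cp_mul _ _ _ _ (h0 γ v.2)]
  refine Finset.sum_congr rfl fun l _ => ?_
  simp only [coef_hat, addRightEmbedding_apply, add_sub_cancel_right]
  congr 2
  ring

theorem hat_one : hat (1 : M4 k) = 1 := by
  refine coef_ext fun u v => ?_
  rw [coef_hat, coef_one, Matrix.one_apply]
  by_cases h : u.2 = v.2
  · rw [if_pos h, Hg.one.cp_eq]
    simp [Prod.ext_iff, h, sub_eq_zero]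
  · rw [if_neg h, cp_zero, if_neg fun h' => h (congrArg Prod.snd h')]

/-- Homogeneous operators. -/
def Hm (f : En k) : Prop := ∀ u v, Hg (u.1 - v.1) (coef f u v)

theorem Hm.mul {f g : En k} (hf : Hm f) (hg : Hm g) : Hm (f * g) := fun u v => by
  rw [coef_mul f g u v _ (coef_supp g v)]
  refine Hg.sum _ fun w _ => ?_
  have := (hf u w).mul (hg w v)
  rwa [sub_add_sub_cancel] at this

theorem Hm.sub {f g : En k} (hf : Hm f) (hg : Hm g) : Hm (f - g) :=
  fun u v => (hf u v).sub (hg u v)

theorem Hm.one : Hm (1 : En k) := fun u v => by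
  rw [coef_one]
  split_ifs with h
  · rw [h, sub_self]
    exact Hg.one
  · exact Hg.zero _

theorem Hm.chi (S : Ix → Prop) [DecidablePred S] : Hm (chi k S) := fun u v => by
  rw [← mul_one (af.chi k S), coef_chi_mul]
  split_ifs
  · exact Hm.one u v
  · exact Hg.zero _

theorem Hm.hat (σ : M4 k) : Hm (hat σ) := fun u v => by
  rw [coef_hat]
  exact cp_hg _ _

/-- The projection to degrees at least `c`. -/
noncomputable def up (k : Type) [Field k] (c : ℤ) : En k := chi k fun u => c ≤ u.1

/-- The projection to degrees below `c`. -/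
noncomputable def lo (k : Type) [Field k] (c : ℤ) : En k := chi k fun u => u.1 < c

theorem chi_mul_chi {S T U : Ix → Prop} [DecidablePred S] [DecidablePred T] [DecidablePred U]
    (h : ∀ u, U u ↔ S u ∧ T u) : chi k S * chi k T = chi k U := by
  refine coef_ext fun u v => ?_
  rw [coef_chi_mul, coef_chi, coef_chi]
  have := h u
  by_cases h1 : S u <;> by_cases h2 : T u <;> simp_all

theorem chi_mul_chi_zero {S T : Ix → Prop} [DecidablePred S] [DecidablePred T]
    (h : ∀ u, S u → ¬T u) : chi k S * chi k T = 0 := by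
  refine coef_ext fun u v => ?_
  rw [coef_chi_mul, coef_chi, coef_zero]
  have := h u
  by_cases h1 : S u <;> simp_all

theorem up_add_lo (c : ℤ) : up k c + lo k c = 1 := by
  refine coef_ext fun u v => ?_
  rw [coef_add, up, lo, coef_chi, coef_chi, coef_one]
  by_cases h : c ≤ u.1
  · simp [h, not_lt.mpr h]
  · simp [h, not_le.mp h]

theorem lo_hat_up {m a c : ℤ} {σ : M4 k} (hσ : Band m σ) (h : a + m ≤ c) :
    lo k a * hat σ * up k c = 0 := by
  refine coef_ext fun u v => ?_
  rw [up, lo, coef_mul_chi, coef_chi_mul, coef_hat, coef_zero]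
  split_ifs with h1 h2
  · by_contra h3
    have := abs_le.mp (hσ _ _ _ h3)
    omega
  · rfl
  · rfl

theorem up_hat_lo {m a c : ℤ} {σ : M4 k} (hσ : Band m σ) (h : c + m ≤ a) :
    up k a * hat σ * lo k c = 0 := by
  refine coef_ext fun u v => ?_
  rw [up, lo, coef_mul_chi, coef_chi_mul, coef_hat, coef_zero]
  split_ifs with h1 h2
  · by_contra h3
    have := abs_le.mp (hσ _ _ _ h3)
    omega
  · rfl
  · rfl

/-- Idempotents squeezed between two coordinate projections. -/
structure Cm (c : ℤ) (p : En k) : Prop where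
  hm : Hm p
  idem : p * p = p
  ul : up k c * p = up k c
  ur : p * up k c = up k c
  ll : lo k (-c) * p = 0
  lr : p * lo k (-c) = 0

theorem Cm.chi {c : ℤ} {S : Ix → Prop} [DecidablePred S] (h1 : ∀ u, c ≤ u.1 → S u)
    (h2 : ∀ u, S u → -c ≤ u.1) : Cm c (chi k S) where
  hm := Hm.chi S
  idem := chi_mul_chi fun _ => by simp
  ul := chi_mul_chi fun u => ⟨fun h => ⟨h, h1 u h⟩, fun h => h.1⟩
  ur := chi_mul_chi fun u => ⟨fun h => ⟨h1 u h, h⟩, fun h => h.2⟩
  ll := chi_mul_chi_zero fun u h h' => absurd (h2 u h') (not_le.mpr h)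
  lr := chi_mul_chi_zero fun u h h' => absurd (h2 u h) (not_le.mpr h')

theorem Cm.mono {c c' : ℤ} {p : En k} (h : Cm c p) (hc : c ≤ c') : Cm c' p := by
  have h1 : up k c' * up k c = up k c' := chi_mul_chi fun u => by omega
  have h2 : up k c * up k c' = up k c' := chi_mul_chi fun u => by omega
  have h3 : lo k (-c') * lo k (-c) = lo k (-c') := chi_mul_chi fun u => by omega
  have h4 : lo k (-c) * lo k (-c') = lo k (-c') := chi_mul_chi fun u => by omega
  refine ⟨h.hm, h.idem, ?_, ?_, ?_, ?_⟩
  · rw [← h1, mul_assoc, h.ul]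
  · rw [← h2, ← mul_assoc, h.ur]
  · rw [← h3, mul_assoc, h.ll, mul_zero]
  · rw [← h4, ← mul_assoc, h.lr, zero_mul]

theorem Cm.conj {c m : ℤ} {p : En k} (h : Cm c p) {σ τ : M4 k} (hσ : Band m σ) (hτ : Band m τ)
    (h1 : σ * τ = 1) (h2 : τ * σ = 1) : Cm (c + m) (hat σ * p * hat τ) := by
  have e1 : hat σ * hat τ = 1 := by rw [← hat_mul, h1, hat_one]
  have e2 : hat τ * hat σ = 1 := by rw [← hat_mul, h2, hat_one]
  have a1 : up k (c + m) * hat σ * up k c = up k (c + m) * hat σ := by
    conv_rhs => rw [← mul_one (up k (c + m) * hat σ), ← up_add_lo c, mul_add,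
      up_hat_lo hσ le_rfl, add_zero]
  have a2 : up k c * (hat τ * up k (c + m)) = hat τ * up k (c + m) := by
    conv_rhs => rw [← one_mul (hat τ * up k (c + m)), ← up_add_lo c, add_mul, ← mul_assoc (lo k c),
      lo_hat_up hτ le_rfl, add_zero]
  have a3 : lo k (-(c + m)) * hat σ * lo k (-c) = lo k (-(c + m)) * hat σ := by
    conv_rhs => rw [← mul_one (lo k (-(c + m)) * hat σ), ← up_add_lo (-c), mul_add,
      lo_hat_up hσ (by omega), zero_add]
  have a4 : lo k (-c) * (hat τ * lo k (-(c + m))) = hat τ * lo k (-(c + m)) := by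
    conv_rhs => rw [← one_mul (hat τ * lo k (-(c + m))), ← up_add_lo (-c), add_mul,
      ← mul_assoc (up k (-c)), up_hat_lo hτ (by omega), zero_add]
  refine ⟨((Hm.hat σ).mul h.hm).mul (Hm.hat τ), ?_, ?_, ?_, ?_, ?_⟩
  · calc hat σ * p * hat τ * (hat σ * p * hat τ) = hat σ * (p * (hat τ * hat σ) * p) * hat τ := by
          simp only [mul_assoc]
      _ = _ := by rw [e2, mul_one, h.idem]
  · rw [← mul_assoc, ← mul_assoc, ← a1, mul_assoc _ (up k c), h.ul, a1, mul_assoc, e1, mul_one]
  · rw [mul_assoc, ← a2, ← mul_assoc, mul_assoc _ p, h.ur, mul_assoc, a2, ← mul_assoc, e1, one_mul]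
  · rw [← mul_assoc, ← mul_assoc, ← a3, mul_assoc _ (lo k (-c)), h.ll, mul_zero, zero_mul]
  · rw [mul_assoc, ← a4, ← mul_assoc, mul_assoc _ p, h.lr, mul_zero, zero_mul]

theorem hat_chi {σ : M4 k} {α β : Fin 4 → ℤ} (h : ∀ a b, Hg (β a + α b) (σ a b))
    {S T : Ix → Prop} [DecidablePred S] [DecidablePred T] (hS : ∀ u, S u ↔ -α u.2 ≤ u.1)
    (hT : ∀ u, T u ↔ β u.2 ≤ u.1) : hat σ * chi k S = chi k T * hat σ := by
  refine coef_ext fun u v => ?_
  rw [coef_mul_chi, coef_chi_mul, coef_hat, (h _ _).cp_eq]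
  simp only [hS, hT]
  split_ifs <;> first | rfl | omega

/-- The reflection of the index set. -/
def flip : Ix ≃ Ix where
  toFun u := (-1 - u.1, u.2)
  invFun u := (-1 - u.1, u.2)
  left_inv u := by simp
  right_inv u := by simp

theorem flip_flip (u : Ix) : flip (flip u) = u := by simp [flip]

/-- `f'` is the reflected transpose of `f`. -/
def Fl (f f' : En k) : Prop := ∀ u v, coef f' u v = coef f (flip v) (flip u)

theorem Fl.mul {f f' g g' : En k} (hf : Fl f f') (hg : Fl g g') : Fl (f * g) (g' * f') := by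
  intro u v
  let s := (g.to (Finsupp.single (flip u) 1)).support ∪
    (f'.to (Finsupp.single v 1)).support.map flip.toEmbedding
  rw [coef_mul f g _ _ s fun w hw => coef_supp g _ w fun h => hw (Finset.mem_union_left _ h),
    coef_mul g' f' u v (s.map flip.toEmbedding) fun w hw => coef_supp f' _ w fun h => hw
      (Finset.mem_map.mpr ⟨flip w, Finset.mem_union_right _ (Finset.mem_map_of_mem _ h),
        flip_flip w⟩), Finset.sum_map]
  refine Finset.sum_congr rfl fun w _ => ?_
  rw [hf, hg, Equiv.coe_toEmbedding, flip_flip, mul_comm]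

theorem Fl.hat (σ : M4 k) : Fl (hat σ) (hat σᵀ) := fun u v => by
  rw [coef_hat, coef_hat]
  simp [flip]

theorem Fl.up : Fl (up k 0) (lo k 0) := fun u v => by
  rw [af.up, lo, coef_chi, coef_chi]
  by_cases h : u = v
  · subst h
    have : (0 ≤ (flip u).1) ↔ u.1 < 0 := by
      simp only [flip, Equiv.coe_fn_mk]
      omega
    simp [this]
  · have : flip v ≠ flip u := fun h' => h (flip.injective h').symm
    simp [h, this]

/-- `f'` is obtained from `f` by substituting `c` in all coefficients. -/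
def Ev (c : k) (f f' : En k) : Prop := ∀ u v, coef f' u v = ev c (coef f u v)

theorem Ev.mul {c : k} {f f' g g' : En k} (hf : Ev c f f') (hg : Ev c g g') :
    Ev c (f * g) (f' * g') := by
  intro u v
  rw [coef_mul f g u v _ (coef_supp g v), coef_mul f' g' u v _ fun w hw => by
    rw [hg, coef_supp g v w hw, map_zero], map_sum]
  exact Finset.sum_congr rfl fun w _ => by rw [hf, hg, map_mul]

theorem Ev.hat (c : k) (σ : M4 k) : Ev c (hat σ) (hat (σ.map (ev c))) := fun u v => by
  rw [coef_hat, coef_hat, Matrix.map_apply, cp_ev]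

theorem Ev.chi (c : k) (S : Ix → Prop) [DecidablePred S] : Ev c (chi k S) (chi k S) :=
  fun u v => by
    rw [coef_chi]
    split_ifs <;> simp

end Pool.Agent.P.MP_260cc8_ag.af
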