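import Pool.Agent.P.MP_260cc8_ag.af.Sk

/-!
The prime ideal `(x.y - 1, x × w)` in nine variables.
-/

namespace Pool.Agent.P.MP_260cc8_ag.af

open MvPolynomial

variable {k : Type} [Field k]

/-- The polynomial ring in nine variables. -/
abbrev P9 (k : Type) [Field k] := MvPolynomial (Fin 9) k

/-- The quadric. -/
noncomputable def q9 (k : Type) [Field k] : P9 k := X 0 * X 3 + X 1 * X 4 + X 2 * X 5 - 1

/-- The ideal. -/
noncomputable def J9 (k : Type) [Field k] : Ideal (P9 k) :=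
  Ideal.span {X 0 * X 3 + X 1 * X 4 + X 2 * X 5 - 1, X 1 * X 8 - X 2 * X 7, X 2 * X 6 - X 0 * X 8,
    X 0 * X 7 - X 1 * X 6}

theorem j0 : q9 k ∈ J9 k := Ideal.subset_span (by simp [q9])

theorem j1 : (X 1 * X 8 - X 2 * X 7 : P9 k) ∈ J9 k := Ideal.subset_span (by simp)

theorem j2 : (X 2 * X 6 - X 0 * X 8 : P9 k) ∈ J9 k := Ideal.subset_span (by simp)

theorem j3 : (X 0 * X 7 - X 1 * X 6 : P9 k) ∈ J9 k := Ideal.subset_span (by simp)

theorem j_comb {p : P9 k} (a b c d : P9 k) (h : p = a * q9 k + b * (X 1 * X 8 - X 2 * X 7) +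
    c * (X 2 * X 6 - X 0 * X 8) + d * (X 0 * X 7 - X 1 * X 6)) : p ∈ J9 k := by
  rw [h]
  exact add_mem (add_mem (add_mem (Ideal.mul_mem_left _ _ j0) (Ideal.mul_mem_left _ _ j1))
    (Ideal.mul_mem_left _ _ j2)) (Ideal.mul_mem_left _ _ j3)

theorem J9_le {B : Type} [CommRing B] (f : P9 k →+* B) (K : Ideal B) (h0 : f (q9 k) ∈ K)
    (h1 : f (X 1 * X 8 - X 2 * X 7) ∈ K) (h2 : f (X 2 * X 6 - X 0 * X 8) ∈ K)
    (h3 : f (X 0 * X 7 - X 1 * X 6) ∈ K) {p : P9 k} (hp : p ∈ J9 k) : f p ∈ K := by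
  have : J9 k ≤ K.comap f := by
    rw [J9, Ideal.span_le]
    rintro _ (rfl | rfl | rfl | rfl)
    exacts [h0, h1, h2, h3]
  exact this hp

theorem zmem {B : Type} [CommRing B] {K : Ideal B} {a : B} (h : a = 0) : a ∈ K :=
  h ▸ K.zero_mem

/-- The form `y.w`. -/
noncomputable def yw (k : Type) [Field k] : P9 k := X 3 * X 6 + X 4 * X 7 + X 5 * X 8

/-- Lifts of a basis of the conormal module. -/
noncomputable def F9 (k : Type) [Field k] : Fin 3 → P9 k :=
  ![(q9 k + 1) * X 6 - yw k * X 0 + q9 k * X 0, (q9 k + 1) * X 7 - yw k * X 1 + q9 k * X 1,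
    (q9 k + 1) * X 8 - yw k * X 2 + q9 k * X 2]

theorem F9_mem (j : Fin 3) : F9 k j ∈ J9 k := by
  fin_cases j
  · exact j_comb (X 0) 0 (X 5) (-X 4) (by simp [F9, q9, yw]; ring)
  · exact j_comb (X 1) (-X 5) 0 (X 3) (by simp [F9, q9, yw]; ring)
  · exact j_comb (X 2) (X 4) (-X 3) 0 (by simp [F9, q9, yw]; ring)

theorem sq_mem {a p : P9 k} (ha : a ∈ J9 k) (h : p = -q9 k * a) : p ∈ J9 k ^ 2 := by
  rw [h, pow_two]
  exact Ideal.mul_mem_mul (neg_mem j0) ha

theorem F9_span {p : P9 k} (hp : p ∈ J9 k) :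
    ∃ c : Fin 3 → P9 k, p - ∑ j, c j * F9 k j ∈ J9 k ^ 2 := by
  induction hp using Submodule.span_induction with
  | mem p hp =>
    rcases hp with rfl | rfl | rfl | rfl
    · exact ⟨![X 3, X 4, X 5], sq_mem j0 (by simp [Fin.sum_univ_three, F9, q9, yw]; ring)⟩
    · exact ⟨![0, -X 2, X 1], sq_mem j1 (by simp [Fin.sum_univ_three, F9, q9, yw]; ring)⟩
    · exact ⟨![X 2, 0, -X 0], sq_mem j2 (by simp [Fin.sum_univ_three, F9, q9, yw]; ring)⟩
    · exact ⟨![-X 1, X 0, 0], sq_mem j3 (by simp [Fin.sum_univ_three, F9, q9, yw]; ring)⟩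
  | zero => exact ⟨0, by simp⟩
  | add a b _ _ ha hb =>
    obtain ⟨c, hc⟩ := ha
    obtain ⟨d, hd⟩ := hb
    refine ⟨c + d, ?_⟩
    have := add_mem hc hd
    simp only [Pi.add_apply, add_mul, Finset.sum_add_distrib]
    rwa [add_sub_add_comm]
  | smul r a _ ha =>
    obtain ⟨c, hc⟩ := ha
    refine ⟨r • c, ?_⟩
    have := Ideal.mul_mem_left _ r hc
    simp only [Pi.smul_apply, smul_eq_mul, mul_assoc, ← Finset.mul_sum]
    rwa [← mul_sub]

theorem der_sq (i : Fin 9) {p : P9 k} (hp : p ∈ J9 k ^ 2) : pderiv i p ∈ J9 k := by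
  rw [pow_two] at hp
  refine Submodule.mul_induction_on hp (fun a ha b hb => ?_) fun a b ha hb => ?_
  · rw [Derivation.leibniz, smul_eq_mul, smul_eq_mul]
    exact add_mem (Ideal.mul_mem_right _ _ ha) (Ideal.mul_mem_right _ _ hb)
  · rw [map_add]
    exact add_mem ha hb

theorem F9_indep {r : Fin 3 → P9 k} (h : ∑ j, r j * F9 k j ∈ J9 k ^ 2) (j : Fin 3) :
    r j ∈ J9 k := by
  have h1 : ∀ i, ∑ j, r j * pderiv i (F9 k j) ∈ J9 k := by
    intro i
    have := der_sq i h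
    simp only [map_sum, Derivation.leibniz, smul_eq_mul, Finset.sum_add_distrib] at this
    exact (Ideal.add_mem_iff_left _ (Ideal.sum_mem _ fun j _ =>
      Ideal.mul_mem_right _ _ (F9_mem j))).mp this
  have h3 := h1 3
  have h4 := h1 4
  have h5 := h1 5
  have h6 := h1 6
  have h7 := h1 7
  have h8 := h1 8
  simp [Fin.sum_univ_three, F9, q9, yw, Derivation.leibniz, pderiv_X] at h3 h4 h5 h6 h7 h8
  have hs : r 0 * X 0 + r 1 * X 1 + r 2 * X 2 ∈ J9 k :=
    (Submodule.sub_mem_iff_right _ (add_mem (add_mem (Ideal.mul_mem_left _ (X 3) h3)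
      (Ideal.mul_mem_left _ (X 4) h4)) (Ideal.mul_mem_left _ (X 5) h5))).mp
      (j_comb (r 0 * X 0 + r 1 * X 1 + r 2 * X 2) (X 4 * r 2 - X 5 * r 1) (X 5 * r 0 - X 3 * r 2)
        (X 3 * r 1 - X 4 * r 0) (by rw [q9]; ring))
  fin_cases j
  · exact (Submodule.sub_mem_iff_right _ (add_mem h6 (Ideal.mul_mem_left _ (X 3) hs))).mp
      (j_comb (r 0) 0 0 0 (by simp only [q9, Fin.zero_eta]; ring))
  · exact (Submodule.sub_mem_iff_right _ (add_mem h7 (Ideal.mul_mem_left _ (X 4) hs))).mp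
      (j_comb (r 1) 0 0 0 (by simp only [q9, Fin.mk_one]; ring))
  · exact (Submodule.sub_mem_iff_right _ (add_mem h8 (Ideal.mul_mem_left _ (X 5) hs))).mp
      (j_comb (r 2) 0 0 0 (by simp only [q9, Fin.reduceFinMk]; ring))

/-- The classes in the conormal module. -/
noncomputable def c9 (k : Type) [Field k] (j : Fin 3) : (J9 k).Cotangent :=
  (J9 k).toCotangent ⟨F9 k j, F9_mem j⟩

theorem c9_span : Submodule.span (P9 k) (Set.range (c9 k)) = ⊤ := by
  rw [eq_top_iff]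
  rintro y -
  obtain ⟨w, rfl⟩ := (J9 k).toCotangent_surjective y
  obtain ⟨c, hc⟩ := F9_span w.2
  rw [Submodule.mem_span_range_iff_exists_fun]
  refine ⟨c, ?_⟩
  simp only [c9, ← map_smul, ← map_sum]
  rw [eq_comm, Ideal.toCotangent_eq]
  simpa using hc

theorem c9_indep : LinearIndependent (P9 k ⧸ J9 k) (c9 k) := by
  rw [Fintype.linearIndependent_iff]
  intro g hg i
  choose r hr using fun j => Ideal.Quotient.mk_surjective (g j)
  rw [← hr, Ideal.Quotient.eq_zero_iff_mem]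
  refine F9_indep ?_ i
  have h1 : ∀ j, g j • c9 k j = r j • c9 k j := fun j => by
    rw [← hr]
    exact algebraMap_smul (P9 k ⧸ J9 k) (r j) (c9 k j)
  simp only [h1] at hg
  simp only [c9, ← map_smul, ← map_sum] at hg
  rw [Ideal.toCotangent_eq_zero] at hg
  simpa using hg

/-- The basis of the conormal module. -/
noncomputable def b9 (k : Type) [Field k] : Module.Basis (Fin 3) (P9 k ⧸ J9 k) (J9 k).Cotangent :=
  Module.Basis.mk c9_indep (Submodule.span_eq_top_of_span_eq_top (P9 k) _ _ c9_span).ge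

theorem q9_irred : Irreducible (q9 k) := by
  have h : q9 k = X 0 * X 3 + (X 1 * X 4 + X 2 * X 5 - 1) := by rw [q9]; ring
  rw [h]
  refine irreducible_mul_X_add _ _ _ (X_ne_zero 0) (by simp) (fun hv => ?_) ?_
  · rcases Finset.mem_union.mp (vars_sub_subset _ hv) with hv | hv
    · rcases Finset.mem_union.mp (vars_add_subset _ _ hv) with hv | hv <;>
        simpa using vars_mul _ _ hv
    · simp at hv
  · rw [X_prime.irreducible.isRelPrime_iff_not_dvd]
    intro hd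
    simpa using map_dvd constantCoeff hd

theorem w_mem (j : Fin 3) : (![X 6, X 7, X 8] j - yw k * ![X 0, X 1, X 2] j : P9 k) ∈ J9 k := by
  fin_cases j
  · exact j_comb (-X 6) 0 (X 5) (-X 4) (by simp [q9, yw]; ring)
  · exact j_comb (-X 7) (-X 5) 0 (X 3) (by simp [q9, yw]; ring)
  · exact j_comb (-X 8) (X 4) (-X 3) 0 (by simp [q9, yw]; ring)

theorem J9_prime : (J9 k).IsPrime := by
  let φ : P9 k →ₐ[k] P9 k :=
    aeval ![X 0, X 1, X 2, X 3, X 4, X 5, X 6 * X 0, X 6 * X 1, X 6 * X 2]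
  let ψ : P9 k →ₐ[k] P9 k := aeval ![X 0, X 1, X 2, X 3, X 4, X 5, yw k, X 7, X 8]
  have h1 : (Ideal.Quotient.mkₐ k (J9 k)).comp (ψ.comp φ) = Ideal.Quotient.mkₐ k (J9 k) := by
    refine algHom_ext fun i => ?_
    simp only [AlgHom.comp_apply, Ideal.Quotient.mkₐ_eq_mk]
    rw [eq_comm, Ideal.Quotient.eq]
    fin_cases i
    iterate 6 simp [φ, ψ]
    · simpa [φ, ψ] using w_mem (k := k) 0
    · simpa [φ, ψ] using w_mem (k := k) 1
    · simpa [φ, ψ] using w_mem (k := k) 2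
  have h2 : φ (q9 k) = q9 k := by simp [φ, q9]
  have h3 : ψ (q9 k) = q9 k := by simp [ψ, q9]
  have h4 : J9 k = (Ideal.span {q9 k}).comap φ := by
    ext p
    rw [Ideal.mem_comap]
    refine ⟨fun hp => J9_le φ.toRingHom _ ?_ (zmem ?_) (zmem ?_) (zmem ?_) hp, fun hp => ?_⟩
    · exact Ideal.mem_span_singleton.mpr (dvd_of_eq h2.symm)
    · simp [φ]
      ring
    · simp [φ]
      ring
    · simp [φ]
      ring
    · obtain ⟨c, hc⟩ := Ideal.mem_span_singleton.mp hp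
      have h5 := congrArg (· p) h1
      simp only [AlgHom.comp_apply, Ideal.Quotient.mkₐ_eq_mk] at h5
      rw [← Ideal.Quotient.eq_zero_iff_mem, ← h5, Ideal.Quotient.eq_zero_iff_mem, hc, map_mul, h3]
      exact Ideal.mul_mem_right _ _ j0
  have h6 : (Ideal.span {q9 k}).IsPrime :=
    (Ideal.span_singleton_prime q9_irred.ne_zero).mpr q9_irred.prime
  rw [h4]
  exact Ideal.comap_isPrime _ _

theorem J9_smooth : Algebra.Smooth k (P9 k ⧸ J9 k) := by
  let f := Ideal.Quotient.mkₐ k (J9 k)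
  have hf : RingHom.ker f.toRingHom = J9 k := Ideal.Quotient.mkₐ_ker k _
  let θ : P9 k →ₐ[k] P9 k := aeval ![X 0, X 1, X 2, (1 - q9 k) * X 3, (1 - q9 k) * X 4,
    (1 - q9 k) * X 5, yw k * X 0, yw k * X 1, yw k * X 2]
  let g0 := (Ideal.Quotient.mkₐ k (RingHom.ker f.toRingHom ^ 2)).comp θ
  have hg : ∀ p ∈ J9 k, g0 p = 0 := by
    intro p hp
    simp only [g0, AlgHom.comp_apply, Ideal.Quotient.mkₐ_eq_mk]
    rw [Ideal.Quotient.eq_zero_iff_mem, hf]
    refine J9_le θ.toRingHom _ (sq_mem j0 ?_) (zmem ?_) (zmem ?_) (zmem ?_) hp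
    · simp [θ, q9]
      ring
    · simp [θ]
      ring
    · simp [θ]
      ring
    · simp [θ]
      ring
  have h1 : Algebra.FormallySmooth k (P9 k ⧸ J9 k) := by
    refine Algebra.FormallySmooth.of_split f (Ideal.Quotient.liftₐ _ g0 hg) ?_
    refine Ideal.Quotient.algHom_ext k (algHom_ext fun i => ?_)
    change Ideal.Quotient.mk (J9 k) (θ (X i)) = Ideal.Quotient.mk (J9 k) (X i)
    rw [eq_comm, Ideal.Quotient.eq]
    fin_cases i
    iterate 3 simp [θ]
    · exact j_comb (X 3) 0 0 0 (by simp [θ]; ring)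
    · exact j_comb (X 4) 0 0 0 (by simp [θ]; ring)
    · exact j_comb (X 5) 0 0 0 (by simp [θ]; ring)
    · simpa [θ] using w_mem (k := k) 0
    · simpa [θ] using w_mem (k := k) 1
    · simpa [θ] using w_mem (k := k) 2
  have h2 : Algebra.FinitePresentation k (P9 k ⧸ J9 k) :=
    Algebra.FinitePresentation.quotient (IsNoetherian.noetherian _)
  exact ⟨h1, h2⟩

end Pool.Agent.P.MP_260cc8_ag.af
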