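import Pool.Agent.P.MP_260cc8_ag.af.Hilb

/-!
The ring `k[x,y,t]/(x.y-1)` with its grading by the integers.
-/

namespace Pool.Agent.P.MP_260cc8_ag.af

open MvPolynomial

variable {k : Type} [Field k]

theorem scale_hom {σ Γ L : Type} [AddCommGroup Γ] [CommRing L] {w : σ → Γ}
    (θ ι : MvPolynomial σ k →+* L) (χ : Γ → L) (h0 : χ 0 = 1) (ha : ∀ d e, χ (d + e) = χ d * χ e)
    (hC : ∀ r, θ (C r) = ι (C r)) (hX : ∀ s, θ (X s) * χ (w s) = ι (X s))
    {p : MvPolynomial σ k} {d : Γ} (hp : IsWeightedHomogeneous w p d) : θ p * χ d = ι p := by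
  have h : ∀ (m : σ →₀ ℕ) (r : k), θ (monomial m r) * χ (Finsupp.weight w m) = ι (monomial m r) := by
    intro m r
    induction m using Finsupp.induction_linear generalizing r with
    | zero => rw [map_zero, h0, mul_one]; exact hC r
    | add f g hf hg =>
      rw [← mul_one r, ← monomial_mul, map_mul, map_mul, map_add, ha, ← hf, ← hg]
      ring
    | single s n =>
      rw [← C_mul_X_pow_eq_monomial, map_mul, map_mul, map_pow, map_pow, hC, ← hX,
        Finsupp.weight_single, mul_assoc]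
      congr 1
      induction n with
      | zero => simp [h0]
      | succ n ih => rw [succ_nsmul, ha, pow_succ, pow_succ, ← ih]; ring
  induction hp using IsWeightedHomogeneous.induction_on with
  | zero => simp
  | add p q _ _ hp hq => rw [map_add, map_add, add_mul, hp, hq]
  | monomial m r hr => rw [← hr]; exact h m r

theorem subst_hom {σ Γ : Type} [AddCommGroup Γ] {w : σ → Γ} (φ : Γ →+ Γ)
    (f : σ → MvPolynomial σ k) (hf : ∀ s, IsWeightedHomogeneous w (f s) (φ (w s)))
    {p : MvPolynomial σ k} {d : Γ} (hp : IsWeightedHomogeneous w p d) :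
    IsWeightedHomogeneous w (aeval f p) (φ d) := by
  induction hp using IsWeightedHomogeneous.induction_on with
  | zero => rw [map_zero]; exact isWeightedHomogeneous_zero _ _ _
  | add p q _ _ hp hq => rw [map_add]; exact hp.add hq
  | monomial m r hr =>
    rw [← hr, aeval_monomial, algebraMap_eq, Finsupp.weight_apply, Finsupp.sum, map_sum,
      Finsupp.prod]
    refine IsWeightedHomogeneous.C_mul (IsWeightedHomogeneous.prod _ _ _ fun s _ => ?_) r
    rw [map_nsmul]
    exact (hf s).pow _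

/-- The defining ideal. -/
noncomputable def II (k : Type) [Field k] : Ideal (PP k) := Ideal.span {qq k - 1, X 6 - 1}

/-- The ring `k[x,y,t]/(x.y-1)`. -/
abbrev RR (k : Type) [Field k] := PP k ⧸ II k

/-- The quotient map. -/
noncomputable abbrev mk (k : Type) [Field k] : PP k →+* RR k := Ideal.Quotient.mk (II k)

theorem mk_qq : mk k (qq k) = 1 := by
  rw [← map_one (mk k), Ideal.Quotient.eq]
  exact Ideal.subset_span (by simp)

theorem mk_X6 : mk k (X 6) = 1 := by
  rw [← map_one (mk k), Ideal.Quotient.eq]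
  exact Ideal.subset_span (by simp)

/-- A ring map from the quotient. -/
noncomputable def liftR {L : Type} [CommRing L] (f : PP k →+* L) (h1 : f (qq k) = 1)
    (h2 : f (X 6) = 1) : RR k →+* L :=
  Ideal.Quotient.lift (II k) f fun a ha => by
    have : II k ≤ RingHom.ker f := by
      rw [II, Ideal.span_le]
      rintro _ (rfl | rfl)
      · simp [h1]
      · simp [h2]
    exact this ha

theorem liftR_mk {L : Type} [CommRing L] (f : PP k →+* L) (h1 : f (qq k) = 1)
    (h2 : f (X 6) = 1) (p : PP k) : liftR f h1 h2 (mk k p) = f p := rfl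

theorem mk_inj {p : PP k} {d : Dg} (hp : IsWeightedHomogeneous wt p d) (h : mk k p = 0) :
    p = 0 := by
  let L := FractionRing (PP k)
  let ι : PP k →+* L := algebraMap (PP k) L
  have hι : Function.Injective ι := IsFractionRing.injective _ _
  have hq : ι (qq k) ≠ 0 := (map_ne_zero_iff ι hι).mpr qq_ne
  have h6 : ι (X 6) ≠ 0 := (map_ne_zero_iff ι hι).mpr (X_ne_zero 6)
  let χ : Dg → L := fun d => ι (qq k) ^ d.2.1 * ι (X 6) ^ d.2.2
  have hχ : ∀ d, χ d ≠ 0 := fun d => mul_ne_zero (zpow_ne_zero _ hq) (zpow_ne_zero _ h6)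
  let θ : PP k →+* L := eval₂Hom (ι.comp C) fun s => ι (X s) / χ (wt s)
  have hs : ∀ {p : PP k} {d : Dg}, IsWeightedHomogeneous wt p d → θ p * χ d = ι p :=
    fun hp => scale_hom θ ι χ (by simp [χ]) (fun d e => by
      simp only [χ, Prod.snd_add, Prod.fst_add, zpow_add₀ hq, zpow_add₀ h6]
      ring) (fun r => by simp [θ]) (fun s => by
      simp only [θ, coe_eval₂Hom, eval₂_X]
      exact div_mul_cancel₀ _ (hχ _)) hp
  have h1 : θ (qq k) = 1 := by
    have := hs qq_hom
    simp only [χ, zpow_one, zpow_zero, mul_one] at this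
    exact mul_right_cancel₀ hq (by rw [this, one_mul])
  have h2 : θ (X 6) = 1 := by
    have := hs (isWeightedHomogeneous_X k wt 6)
    simp only [χ, show wt 6 = (0, 0, 1) from rfl, zpow_one, zpow_zero, one_mul] at this
    exact mul_right_cancel₀ h6 (by rw [this, one_mul])
  have h3 : θ p = 0 := by rw [← liftR_mk θ h1 h2, h, map_zero]
  have h4 := hs hp
  rw [h3, zero_mul] at h4
  exact hι (by rw [← h4, map_zero])

/-- Elements of degree `j`. -/
def Hg (j : ℤ) (a : RR k) : Prop :=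
  ∃ (b c : ℤ) (p : PP k), IsWeightedHomogeneous wt p (j + b, b, c) ∧ mk k p = a

theorem raise {p : PP k} {j b c b' c' : ℤ} (hp : IsWeightedHomogeneous wt p (j + b, b, c))
    (hb : b ≤ b') (hc : c ≤ c') :
    ∃ p' : PP k, IsWeightedHomogeneous wt p' (j + b', b', c') ∧ mk k p' = mk k p := by
  obtain ⟨m, rfl⟩ := Int.le.dest hb
  obtain ⟨n, rfl⟩ := Int.le.dest hc
  refine ⟨p * qq k ^ m * X 6 ^ n, ?_, by simp [mk_qq, mk_X6]⟩
  have := (hp.mul (qq_hom.pow m)).mul ((isWeightedHomogeneous_X k wt 6).pow n)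
  simp only [show wt 6 = (0, 0, 1) from rfl, Prod.smul_mk, Prod.mk_add_mk, nsmul_eq_mul, mul_one,
    mul_zero, add_zero] at this
  rwa [← add_assoc]

theorem Hg.of_hom {p : PP k} {d : Dg} (hp : IsWeightedHomogeneous wt p d) :
    Hg (d.1 - d.2.1) (mk k p) :=
  ⟨d.2.1, d.2.2, p, by rwa [sub_add_cancel], rfl⟩

theorem Hg.zero (j : ℤ) : Hg j (0 : RR k) :=
  ⟨0, 0, 0, isWeightedHomogeneous_zero _ _ _, map_zero _⟩

theorem Hg.C (r : k) : Hg 0 (mk k (C r)) := ⟨0, 0, _, isWeightedHomogeneous_C _ _, rfl⟩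

theorem Hg.one : Hg 0 (1 : RR k) := by simpa using Hg.C (1 : k)

theorem Hg.add {j : ℤ} {a a' : RR k} (h : Hg j a) (h' : Hg j a') : Hg j (a + a') := by
  obtain ⟨b, c, p, hp, rfl⟩ := h
  obtain ⟨b', c', p', hp', rfl⟩ := h'
  obtain ⟨r, hr, h1⟩ := raise hp (le_max_left b b') (le_max_left c c')
  obtain ⟨r', hr', h1'⟩ := raise hp' (le_max_right b b') (le_max_right c c')
  exact ⟨_, _, r + r', hr.add hr', by rw [map_add, h1, h1']⟩

theorem Hg.neg {j : ℤ} {a : RR k} (h : Hg j a) : Hg j (-a) := by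
  obtain ⟨b, c, p, hp, rfl⟩ := h
  exact ⟨b, c, -p, hp.neg, map_neg _ _⟩

theorem Hg.sub {j : ℤ} {a a' : RR k} (h : Hg j a) (h' : Hg j a') : Hg j (a - a') := by
  rw [sub_eq_add_neg]
  exact h.add h'.neg

theorem Hg.mul {i j : ℤ} {a a' : RR k} (h : Hg i a) (h' : Hg j a') : Hg (i + j) (a * a') := by
  obtain ⟨b, c, p, hp, rfl⟩ := h
  obtain ⟨b', c', p', hp', rfl⟩ := h'
  refine ⟨b + b', c + c', p * p', ?_, map_mul _ _ _⟩
  have := hp.mul hp'
  rwa [Prod.mk_add_mk, Prod.mk_add_mk, add_add_add_comm] at this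

theorem Hg.sum {ι : Type} (s : Finset ι) {j : ℤ} {a : ι → RR k} (h : ∀ i ∈ s, Hg j (a i)) :
    Hg j (∑ i ∈ s, a i) :=
  Finset.sum_induction a (Hg j) (fun _ _ => Hg.add) (Hg.zero j) h

theorem Hg.lift {ι : Type} [Finite ι] {j : ι → ℤ} {a : ι → RR k} (h : ∀ i, Hg (j i) (a i))
    (β γ : ι → ℤ) : ∃ b : ℕ, ∃ p : ι → PP k, ∀ i,
      IsWeightedHomogeneous wt (p i) (j i + (β i + b), β i + b, γ i + b) ∧ mk k (p i) = a i := by
  choose b c p hp hp' using h
  obtain ⟨a1, h1⟩ := (Set.finite_range fun i => b i - β i).bddAbove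
  obtain ⟨a2, h2⟩ := (Set.finite_range fun i => c i - γ i).bddAbove
  refine ⟨(max a1 a2).toNat, ?_⟩
  have h3 : ∀ i, ∃ r : PP k, IsWeightedHomogeneous wt r (j i + (β i + (max a1 a2).toNat),
      β i + (max a1 a2).toNat, γ i + (max a1 a2).toNat) ∧ mk k r = a i := by
    intro i
    have h4 : b i - β i ≤ a1 := h1 ⟨i, rfl⟩
    have h5 : c i - γ i ≤ a2 := h2 ⟨i, rfl⟩
    rw [← hp' i]
    exact raise (hp i) (by omega) (by omega)
  choose r hr using h3
  exact ⟨r, hr⟩

theorem hg_induction {Pr : RR k → Prop} (h0 : Pr 0) (ha : ∀ a b, Pr a → Pr b → Pr (a + b))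
    (hh : ∀ j a, Hg j a → Pr a) (a : RR k) : Pr a := by
  obtain ⟨p, rfl⟩ := Ideal.Quotient.mk_surjective a
  obtain ⟨s, hs⟩ := poly_sum wt p
  rw [← hs, map_sum]
  exact Finset.sum_induction _ Pr ha h0 fun d _ =>
    hh _ _ (Hg.of_hom (weightedHomogeneousComponent_isWeightedHomogeneous d p))

/-- The coaction before passing to the quotient. -/
noncomputable def co0 (k : Type) [Field k] : PP k →+* AddMonoidAlgebra (RR k) ℤ :=
  eval₂Hom ((AddMonoidAlgebra.singleZeroRingHom.comp (mk k)).comp C) fun s =>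
    AddMonoidAlgebra.single ((wt s).1 - (wt s).2.1) (mk k (X s))

theorem co0_hom {p : PP k} {d : Dg} (hp : IsWeightedHomogeneous wt p d) :
    co0 k p = AddMonoidAlgebra.single (d.1 - d.2.1) (mk k p) := by
  have h := scale_hom (L := AddMonoidAlgebra (RR k) ℤ) (co0 k)
    (AddMonoidAlgebra.singleZeroRingHom.comp (mk k))
    (fun d : Dg => AddMonoidAlgebra.single (-(d.1 - d.2.1)) (1 : RR k))
    rfl (fun d e => by
      rw [AddMonoidAlgebra.single_mul_single, one_mul]
      congr 1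
      simp only [Prod.fst_add, Prod.snd_add]
      ring) (fun r => by simp [co0]) (fun s => by
      simp [co0]) hp
  have h1 := congrArg (· * AddMonoidAlgebra.single (d.1 - d.2.1) (1 : RR k)) h
  simp only [mul_assoc, AddMonoidAlgebra.single_mul_single, neg_add_cancel, mul_one,
    ← AddMonoidAlgebra.one_def] at h1
  rw [h1]
  simp

/-- The coaction defining the grading. -/
noncomputable def co (k : Type) [Field k] : RR k →+* AddMonoidAlgebra (RR k) ℤ :=
  liftR (L := AddMonoidAlgebra (RR k) ℤ) (co0 k) (by rw [co0_hom qq_hom, mk_qq]; rfl)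
    (by rw [co0_hom (isWeightedHomogeneous_X k wt 6), mk_X6]; rfl)

/-- The component of degree `j`. -/
noncomputable def cp (j : ℤ) (a : RR k) : RR k := (co k a).coeff j

theorem Hg.cp_eq {j : ℤ} {a : RR k} (h : Hg j a) (l : ℤ) : cp l a = if l = j then a else 0 := by
  obtain ⟨b, c, p, hp, rfl⟩ := h
  rw [cp, co, liftR_mk, co0_hom hp, AddMonoidAlgebra.coeff_single, Finsupp.single_apply]
  simp only [add_sub_cancel_right, eq_comm]

theorem cp_zero (j : ℤ) : cp j (0 : RR k) = 0 := by simp [cp]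

theorem cp_add (j : ℤ) (a b : RR k) : cp j (a + b) = cp j a + cp j b := by simp [cp]

theorem cp_sum {ι : Type} (s : Finset ι) (j : ℤ) (a : ι → RR k) :
    cp j (∑ i ∈ s, a i) = ∑ i ∈ s, cp j (a i) := by
  classical
  induction s using Finset.induction_on with
  | empty => simp [cp_zero]
  | insert i s hi ih => rw [Finset.sum_insert hi, Finset.sum_insert hi, cp_add, ih]

theorem cp_hg (j : ℤ) (a : RR k) : Hg j (cp j a) := by
  induction a using hg_induction with
  | h0 => rw [cp_zero]; exact Hg.zero j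
  | ha a b h1 h2 => rw [cp_add]; exact h1.add h2
  | hh l a h =>
    rw [h.cp_eq]
    split_ifs with h1
    · rwa [h1]
    · exact Hg.zero j

theorem cp_mul (a b : RR k) (n : ℤ) (s : Finset ℤ) (hs : ∀ l, l ∉ s → cp l b = 0) :
    cp n (a * b) = ∑ l ∈ s, cp (n - l) a * cp l b := by
  rw [cp, map_mul, AddMonoidAlgebra.coeff_mul_apply_right,
    Finsupp.sum_of_support_subset (s := s)]
  · simp only [cp, sub_eq_add_neg]
  · intro l hl
    by_contra h
    exact Finsupp.mem_support_iff.mp hl (hs l h)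
  · simp

theorem cp_band (a : RR k) : ∃ m : ℤ, ∀ l, cp l a ≠ 0 → |l| ≤ m := by
  obtain ⟨m, hm⟩ := ((co k a).coeff.support.finite_toSet.image fun l => |l|).bddAbove
  exact ⟨m, fun l hl => hm ⟨l, Finsupp.mem_support_iff.mpr hl, rfl⟩⟩

/-- The substitution of a constant for the last variable, on polynomials. -/
noncomputable def ev0 (c : k) : Fin 8 → PP k :=
  ![X 0, X 1, X 2, X 3, X 4, X 5, X 6, C c * X 6]

/-- The substitution of a constant for the last variable. -/
noncomputable def ev (c : k) : RR k →+* RR k :=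
  liftR ((mk k).comp (aeval (ev0 c) : PP k →ₐ[k] PP k).toRingHom)
    (by rw [← mk_qq]; simp [qq, ev0]) (by rw [← mk_X6]; simp [ev0])

theorem ev_mk (c : k) (p : PP k) : ev c (mk k p) = mk k (aeval (ev0 c) p) := rfl

theorem Hg.ev {j : ℤ} {a : RR k} (h : Hg j a) (c : k) : Hg j (ev c a) := by
  obtain ⟨b, c', p, hp, rfl⟩ := h
  refine ⟨b, c', _, subst_hom (AddMonoidHom.id _) (ev0 c) (fun s => ?_) hp, (ev_mk c p).symm⟩
  fin_cases s
  exacts [isWeightedHomogeneous_X k wt 0, isWeightedHomogeneous_X k wt 1,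
    isWeightedHomogeneous_X k wt 2, isWeightedHomogeneous_X k wt 3,
    isWeightedHomogeneous_X k wt 4, isWeightedHomogeneous_X k wt 5,
    isWeightedHomogeneous_X k wt 6, (isWeightedHomogeneous_X k wt 6).C_mul c]

theorem cp_ev (c : k) (j : ℤ) (a : RR k) : cp j (ev c a) = ev c (cp j a) := by
  induction a using hg_induction with
  | h0 => simp [cp_zero]
  | ha a b h1 h2 => rw [map_add, cp_add, cp_add, map_add, h1, h2]
  | hh l a h =>
    rw [(h.ev c).cp_eq, h.cp_eq]
    split_ifs <;> simp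

/-- Homogeneous matrices over the quotient ring. -/
def HM {ι κ : Type} (d : ι → ℤ) (d' : κ → ℤ) (A : Matrix ι κ (RR k)) : Prop :=
  ∀ i j, Hg (d i - d' j) (A i j)

theorem HM.lift {ι κ : Type} [Finite ι] [Finite κ] {d : ι → ℤ} {d' : κ → ℤ}
    {A : Matrix ι κ (RR k)} (h : HM d d' A) : ∃ (b : ℕ) (B : Matrix ι κ (PP k)),
      (∀ i j, IsWeightedHomogeneous wt (B i j) (d i - d' j + b, b, b)) ∧ B.map (mk k) = A := by
  obtain ⟨b, p, hp⟩ := Hg.lift (ι := ι × κ) (j := fun u => d u.1 - d' u.2)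
    (a := fun u => A u.1 u.2) (fun u => h u.1 u.2) 0 0
  refine ⟨b, Matrix.of fun i j => p (i, j), fun i j => ?_, ?_⟩
  · simpa using (hp (i, j)).1
  · ext i j
    exact (hp (i, j)).2

theorem lift_mul {ι κ : Type} [Fintype ι] [Fintype κ] [DecidableEq ι] {d : ι → ℤ} {d' : κ → ℤ}
    {b b' : ℕ} {B : Matrix ι κ (PP k)} {B' : Matrix κ ι (PP k)}
    (hB : ∀ i j, IsWeightedHomogeneous wt (B i j) (d i - d' j + b, b, b))
    (hB' : ∀ i j, IsWeightedHomogeneous wt (B' i j) (d' i - d j + b', b', b'))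
    (h : B.map (mk k) * B'.map (mk k) = 1) :
    B * B' = (qq k * X 6) ^ (b + b') • (1 : Matrix ι ι (PP k)) := by
  ext1 i j
  rw [← sub_eq_zero]
  refine mk_inj (d := (d i - d j + (b + b' : ℕ), (b + b' : ℕ), (b + b' : ℕ)))
    (IsWeightedHomogeneous.sub ?_ ?_) ?_
  · rw [Matrix.mul_apply]
    refine IsWeightedHomogeneous.sum _ _ _ fun l _ => ?_
    have := (hB i l).mul (hB' l j)
    rw [Prod.mk_add_mk, Prod.mk_add_mk] at this
    push_cast
    rwa [show d i - d j + (b + b') = d i - d' l + b + (d' l - d j + b') by ring]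
  · rw [Matrix.smul_apply, Matrix.one_apply]
    split_ifs with hij
    · have := (qq_hom.mul (isWeightedHomogeneous_X k wt 6)).pow (b + b')
      simp only [show wt 6 = (0, 0, 1) from rfl, Prod.smul_mk, Prod.mk_add_mk, nsmul_eq_mul,
        mul_one, add_zero, zero_add] at this
      rwa [hij, sub_self, zero_add, smul_eq_mul, mul_one]
    · rw [smul_zero]
      exact isWeightedHomogeneous_zero _ _ _
  · rw [← Matrix.map_mul] at h
    have := congrFun (congrFun h i) j
    rw [Matrix.map_apply] at this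
    rw [map_sub, this, Matrix.smul_apply, smul_eq_mul, map_mul, map_pow, map_mul, mk_qq, mk_X6,
      Matrix.one_apply, Matrix.one_apply]
    split_ifs <;> simp

/-- The weight attached to a degree. -/
def Q (j : ℤ) : ℤ := j * (j + 1) / 2

theorem two_Q (j : ℤ) : 2 * Q j = j * (j + 1) :=
  Int.mul_ediv_cancel' (Int.even_mul_succ_self j).two_dvd

theorem Q_flip (j : ℤ) : Q (-1 - j) = Q j := by
  rw [Q, Q]
  congr 1
  ring

theorem core {ι κ : Type} [Fintype ι] [Fintype κ] [DecidableEq ι] [DecidableEq κ]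
    {d : ι → ℤ} {d' : κ → ℤ} {U : Matrix ι κ (RR k)} {V : Matrix κ ι (RR k)} (hU : HM d d' U)
    (hV : HM d' d V) (h1 : U * V = 1) (h2 : V * U = 1) : ∑ i, Q (d i) = ∑ j, Q (d' j) := by
  obtain ⟨b, B, hB, rfl⟩ := hU.lift
  obtain ⟨b', B', hB', rfl⟩ := hV.lift
  have h3 := lift_mul hB hB' h1
  have h4 := lift_mul hB' hB h2
  let f : Fin 8 → PP k := ![X 0, X 1, X 2, X 3, X 4, X 5, 1, 0]
  let z : PP k →+* PP k := (aeval f : PP k →ₐ[k] PP k).toRingHom
  have hz : z (qq k * X 6) = qq k := by simp [z, f, qq]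
  let φ : Dg →+ Dg := (AddMonoidHom.id ℤ).prodMap ((AddMonoidHom.id ℤ).prodMap 0)
  have hf : ∀ s, IsWeightedHomogeneous wt (f s) (φ (wt s)) := by
    intro s
    fin_cases s
    exacts [isWeightedHomogeneous_X k wt 0, isWeightedHomogeneous_X k wt 1,
      isWeightedHomogeneous_X k wt 2, isWeightedHomogeneous_X k wt 3,
      isWeightedHomogeneous_X k wt 4, isWeightedHomogeneous_X k wt 5,
      isWeightedHomogeneous_one k wt, isWeightedHomogeneous_zero _ _ _]
  have h5 : ∀ {μ : Type} [Fintype μ] [DecidableEq μ] (n : ℕ),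
      ((qq k * X 6) ^ n • (1 : Matrix μ μ (PP k))).map z = qq k ^ n • (1 : Matrix μ μ (PP k)) := by
    intro μ _ _ n
    ext1 i j
    rw [Matrix.map_apply, Matrix.smul_apply, Matrix.smul_apply, smul_eq_mul, smul_eq_mul, map_mul,
      map_pow, hz, Matrix.one_apply]
    split_ifs <;> simp
  have h6 := core_poly (k := k) (α := d) (β := fun _ => 0) (α' := fun j => d' j - b)
    (β' := fun _ => -b) (U := B.map z) (V := B'.map z) (e := b + b') (fun i j => by
      have := subst_hom φ f hf (hB i j)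
      simp only [Prod.mk_sub_mk, zero_sub, neg_neg, sub_zero]
      rw [show d i - (d' j - b) = d i - d' j + b by ring]
      exact this) (by rw [← Matrix.map_mul, h3, h5]) (by rw [← Matrix.map_mul, h4, h5, add_comm])
  have h7 : 2 * ∑ i, Q (d i) = 2 * ∑ j, Q (d' j) := by
    simp only [Finset.mul_sum, two_Q]
    simpa using h6
  omega

end Pool.Agent.P.MP_260cc8_ag.af
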