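import Pool.Agent.P.MP_260cc8_ag.af.Dh

/-!
Alternating matrices attached to unimodular rows, and the parity obstruction.
-/

namespace Pool.Agent.P.MP_260cc8_ag.af

open Matrix

section gen

variable {A : Type} [CommRing A]

/-- The alternating matrix of two vectors. -/
def Vm (v w : Fin 3 → A) : Matrix (Fin 4) (Fin 4) A :=
  !![0, -v 0, -v 1, -v 2; v 0, 0, -w 2, w 1; v 1, w 2, 0, -w 0; v 2, -w 1, w 0, 0]

/-- The block matrix with blocks one and `C`. -/
def Km (C : Matrix (Fin 3) (Fin 3) A) : Matrix (Fin 4) (Fin 4) A :=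
  !![1, 0, 0, 0; 0, C 0 0, C 0 1, C 0 2; 0, C 1 0, C 1 1, C 1 2; 0, C 2 0, C 2 1, C 2 2]

theorem Vm_mul {v w : Fin 3 → A} (h : v ⬝ᵥ w = 1) : Vm v w * (-Vm w v) = 1 := by
  simp only [dotProduct, Fin.sum_univ_three] at h
  ext i j
  fin_cases i <;> fin_cases j <;> simp [Vm, Matrix.mul_apply, Fin.sum_univ_four] <;>
    first | ring1 | linear_combination h

theorem Km_mul {C G : Matrix (Fin 3) (Fin 3) A} (h : C * G = 1) : Km C * Km G = 1 := by
  have h1 : ∀ i j, C i 0 * G 0 j + C i 1 * G 1 j + C i 2 * G 2 j = if i = j then 1 else 0 := by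
    intro i j
    have := congrFun (congrFun h i) j
    rwa [Matrix.mul_apply, Fin.sum_univ_three, Matrix.one_apply] at this
  ext i j
  fin_cases i <;> fin_cases j <;> simp [Km, Matrix.mul_apply, Fin.sum_univ_four, h1]

theorem Km_Vm (C : Matrix (Fin 3) (Fin 3) A) (v w : Fin 3 → A) :
    Km C * Vm v w * (Km C)ᵀ = Vm (C *ᵥ v) ((adjugate C)ᵀ *ᵥ w) := by
  ext i j
  fin_cases i <;> fin_cases j <;>
    simp [Km, Vm, Matrix.mul_apply, Fin.sum_univ_four, adjugate_fin_three, Matrix.mulVec,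
      dotProduct, Fin.sum_univ_three] <;> ring

theorem Vm_map {B : Type} [CommRing B] (f : A →+* B) (v w : Fin 3 → A) :
    (Vm v w).map f = Vm (fun i => f (v i)) fun i => f (w i) := by
  ext i j
  fin_cases i <;> fin_cases j <;> simp [Vm]

theorem Vm_smul (v w : Fin 3 → A) {a b : A} (h : a * b = 1) :
    Vm v (a • w) = diagonal (Function.update 1 1 a) * (diagonal (Function.update 1 2 a) *
      (diagonal (Function.update 1 3 a) * (Vm v w * diagonal (Function.update 1 0 b)))) := by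
  ext i j
  simp only [diagonal_mul, mul_diagonal]
  fin_cases i <;> fin_cases j <;> simp [Vm] <;> linear_combination (-v _) * h

theorem diag_inv (i : Fin 4) {a b : A} (h : a * b = 1) :
    (diagonal (Function.update 1 i a) : Matrix (Fin 4) (Fin 4) A) *
      diagonal (Function.update 1 i b) = 1 := by
  rw [diagonal_mul_diagonal, ← diagonal_one]
  congr 1
  funext j
  by_cases hj : j = i
  · simp [hj, h]
  · simp [hj]

theorem mul_inv' {n : Type} [Fintype n] [DecidableEq n] {σ τ σ' τ' : Matrix n n A} (h : σ * τ = 1)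
    (h' : σ' * τ' = 1) : σ * σ' * (τ' * τ) = 1 := by
  rw [Matrix.mul_assoc, ← Matrix.mul_assoc σ', h', Matrix.one_mul, h]

theorem no_comp_gen (D : Matrix (Fin 4) (Fin 4) A → ℤ)
    (Dmul : ∀ {σ τ σ' τ'}, σ * τ = 1 → σ' * τ' = 1 → D (σ * σ') = D σ + D σ')
    (Dinv : ∀ {σ τ}, σ * τ = 1 → D τ = -D σ) (Dtr : ∀ {σ τ}, σ * τ = 1 → D σᵀ = D σ)
    (Ddg : ∀ (i : Fin 4) {a b : A}, a * b = 1 →
      D (diagonal (Function.update 1 i a)) = D (diagonal (Function.update 1 0 a)))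
    (H : A → Prop) (H0 : H 0) (Hn : ∀ {a}, H a → H (-a))
    (Dz : ∀ {σ τ}, σ * τ = 1 → (∀ a b, H (σ a b)) → D σ = 0) (p0 p1 : A →+* A)
    (D0 : ∀ {σ τ}, σ * τ = 1 → D (σ.map p0) = D σ) (D1 : ∀ {σ τ}, σ * τ = 1 → D (σ.map p1) = D σ)
    (t : A) (t0 : p0 t = 0) (t1 : p1 t = 1) {x y : Fin 3 → A} (hxy : x ⬝ᵥ y = 1)
    (Dxy : D (Vm x y) = -1) (hy : ∀ i, p1 (y i) = y i) {C G : Matrix (Fin 3) (Fin 3) A}
    (hC : C * G = 1) {g n : Fin 3 → A} (hg : g ⬝ᵥ n = 1) (g0 : ∀ i, H (p0 (g i)))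
    (n0 : ∀ i, H (p0 (n i))) (hC1 : ∀ i j, p1 (C i j) = C i j)
    (hn1 : ∀ i, p1 (p1 (n i)) = p1 (n i)) (hx : C *ᵥ (fun i => p1 (g i)) = x) : False := by
  let g1 : Fin 3 → A := fun i => p1 (g i)
  let n1 : Fin 3 → A := fun i => p1 (n i)
  let w : Fin 3 → A := Cᵀ *ᵥ y
  let r : Fin 3 → A := (w - n1) ⨯₃ n1
  have e1 : g1 ⬝ᵥ n1 = 1 := by
    have := congrArg p1 hg
    simpa [dotProduct] using this
  have e2 : g1 ⬝ᵥ w = 1 := by
    rw [dotProduct_mulVec, vecMul_transpose, hx, hxy]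
  have e3 : g ⬝ᵥ (n + t • g ⨯₃ r) = 1 := by
    rw [dotProduct_add, dotProduct_smul, dot_self_cross, hg, smul_zero, add_zero]
  have e4 : ∀ i, p1 (w i) = w i := fun i => by
    simp [w, Matrix.mulVec, dotProduct, hC1, hy]
  have e5 : ∀ i, p1 (r i) = r i := fun i => by
    fin_cases i <;> simp [r, n1, cross_apply, e4, hn1]
  have e6 : (fun i => p1 ((n + t • g ⨯₃ r) i)) = w := by
    have : (fun i => p1 ((n + t • g ⨯₃ r) i)) = n1 + g1 ⨯₃ r := by
      funext i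
      fin_cases i <;> simp [t1, n1, g1, cross_apply, e5]
    rw [this, cross_cross_eq_smul_sub_smul', e1, sub_dotProduct, dotProduct_comm w,
      dotProduct_comm n1, e1, e2, sub_self, zero_smul, one_smul]
    abel
  have d0 := D0 (Vm_mul e3)
  have d1 := D1 (Vm_mul e3)
  rw [Vm_map, e6] at d1
  rw [Dz (τ := (-Vm (n + t • g ⨯₃ r) g).map p0) (by
    rw [← Matrix.map_mul, Vm_mul e3, Matrix.map_one _ (map_zero _) (map_one _)]) (by
      intro a b
      rw [Vm_map]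
      fin_cases a <;> fin_cases b <;> simp [Vm, t0] <;>
        first | exact H0 | exact g0 _ | exact n0 _ | exact Hn (g0 _) | exact Hn (n0 _))] at d0
  have hK := Km_mul hC
  have hK' : (Km C)ᵀ * (Km G)ᵀ = 1 := by
    rw [← transpose_mul, mul_eq_one_comm.mp hK, transpose_one]
  have d2 : D (Km C * Vm g1 w * (Km C)ᵀ) = D (Km C) + D (Vm g1 w) + D (Km C) := by
    rw [Dmul (mul_inv' hK (Vm_mul e2)) hK', Dmul hK (Vm_mul e2), Dtr hK]
  have hd : C.det * G.det = 1 := by rw [← det_mul, hC, det_one]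
  have hd' : G.det * C.det = 1 := by rw [mul_comm, hd]
  rw [Km_Vm, hx, mulVec_mulVec, ← transpose_mul, mul_adjugate, transpose_smul, transpose_one,
    smul_mulVec, one_mulVec, Vm_smul _ _ hd] at d2
  have k1 := mul_inv' (Vm_mul hxy) (diag_inv 0 hd')
  have k2 := mul_inv' (diag_inv 3 hd) k1
  have k3 := mul_inv' (diag_inv 2 hd) k2
  rw [Dmul (diag_inv 1 hd) k3, Dmul (diag_inv 2 hd) k2, Dmul (diag_inv 3 hd) k1,
    Dmul (Vm_mul hxy) (diag_inv 0 hd'), Dxy, Ddg 1 hd, Ddg 2 hd, Ddg 3 hd,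
    Dinv (diag_inv 0 hd)] at d2
  change D (Vm g1 w) = _ at d1
  omega

end gen

variable {k : Type} [Field k]

/-- The first row of variables. -/
noncomputable def xr (k : Type) [Field k] (i : Fin 3) : RR k := mk k (xx k i)

/-- The second row of variables. -/
noncomputable def yr (k : Type) [Field k] (i : Fin 3) : RR k := mk k (yy k i)

theorem xr_yr : xr k ⬝ᵥ yr k = 1 := by
  rw [← mk_qq]
  simp [xr, yr, dotProduct, Fin.sum_univ_three, xx, yy, qq]

theorem ev_yr (c : k) (i : Fin 3) : ev c (yr k i) = yr k i := by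
  rw [yr, ev_mk]
  fin_cases i <;> simp [yy, ev0]

theorem ev_t (c : k) : ev c (mk k (MvPolynomial.X 7)) = mk k (MvPolynomial.C c) := by
  rw [ev_mk]
  simp [ev0, mk_X6]

theorem Dm_xy : Dm (Vm (xr k) (yr k)) = -1 := by
  have hx : ∀ i, Hg 1 (xr k i) := fun i => Hg.of_hom (xx_hom i)
  have hy : ∀ i, Hg (-1) (yr k i) := fun i => Hg.of_hom (yy_hom i)
  refine Dm_neg_one (Vm_mul xr_yr) fun a b => ?_
  fin_cases a <;> fin_cases b <;> simp [Vm] <;>
    first | exact Hg.zero _ | exact hx _ | exact hy _ | exact (hx _).neg | exact (hy _).neg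

theorem no_comp {C G : Matrix (Fin 3) (Fin 3) (RR k)} (hC : C * G = 1) {g n : Fin 3 → RR k}
    (hg : g ⬝ᵥ n = 1) (g0 : ∀ i, Hg 0 (ev 0 (g i))) (n0 : ∀ i, Hg 0 (ev 0 (n i)))
    (hC1 : ∀ i j, ev 1 (C i j) = C i j) (hn1 : ∀ i, ev 1 (ev 1 (n i)) = ev 1 (n i))
    (hx : C *ᵥ (fun i => ev 1 (g i)) = xr k) : False := by
  refine no_comp_gen (A := RR k) Dm ?_ ?_ ?_ ?_ (Hg 0) (Hg.zero 0) Hg.neg ?_ (ev 0) (ev 1)
    ?_ ?_ (mk k (MvPolynomial.X 7)) ?_ ?_ (x := xr k) (y := yr k) ?_ ?_ ?_ (C := C) (G := G) ?_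
    (g := g) (n := n) ?_ ?_ ?_ ?_ ?_ ?_
  · exact Dm_mul
  · exact Dm_inv
  · exact Dm_transpose
  · exact Dm_diag
  · exact Dm_zero
  · exact fun h => Dm_ev h 0
  · exact fun h => Dm_ev h 1
  · rw [ev_t, MvPolynomial.C_0, map_zero]
  · rw [ev_t, MvPolynomial.C_1, map_one]
  · exact xr_yr
  · exact Dm_xy
  · exact ev_yr 1
  · exact hC
  · exact hg
  · exact g0
  · exact n0
  · exact hC1
  · exact hn1
  · exact hx

end Pool.Agent.P.MP_260cc8_ag.af
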